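import Mathlib
import Pool.Agent.Run7.h783.RV.Prod2
set_option autoImplicit false
set_option linter.unusedSectionVars false

/-! # The extension estimate for products over blocks, for general planar factors -/

namespace Run7.h485.RR

open MeasureTheory Set Complex Filter Topology
open scoped ENNReal NNReal RealInnerProductSpace
open Pool.Agent.TH277.CS (s2 sup sup_meas)
open Pool.Agent.TH277.HT (ch ch_norm ch_cont ch_add ch_sum EE EE_meas Sch Adm E1 E1_meas E1t_meas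
  EE_mult lint_pi mix)
open Pool.Agent.TH277.CB (Q2 pq pq_norm pq_cont pq_exp E2 E2_meas E2t_meas Phi Phi_mp lint_pi2 EE_blk
  sch_time)
open Run7.h783.RV (swap_sup jens1 E2s_meas sup_mix)

attribute [local irreducible] E1 E2

/-- **The estimate for products over blocks.** -/
theorem blocksG (m₁ m₂ n : ℕ) (hm₂ : 1 ≤ m₂) (hn : n = m₁ + 2 * m₂) (q : ℝ)
    (hq : 2 * ((n : ℝ) + 1) / n < q) :
    ∃ C : ℝ≥0∞, C ≠ ∞ ∧ ∀ (B K : ℝ≥0∞), B ≠ ∞ →
      ∀ (e : Fin m₁ ⊕ (Fin m₂ ⊕ Fin m₂) ≃ Fin n) (H : Type) [NormedAddCommGroup H]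
      [InnerProductSpace ℂ H] [CompleteSpace H]
      (M : ContinuousMultilinearMap ℂ (fun _ : Fin m₁ => H) ℂ) (a : Fin m₁ → ℝ → H),
      ‖M‖ ≤ 1 → (∀ j, Adm (a j)) →
      ∀ (S : Fin m₂ → Type) [∀ j, MeasurableSpace (S j)] (ν : ∀ j, Measure (S j))
        [∀ j, IsFiniteMeasure (ν j)] (g : ∀ j, S j → ℝ × ℝ → ℂ),
        (∀ j, Measurable (Function.uncurry (g j))) → (∀ j s x, x ∉ Q2 → g j s x = 0) →
        (∀ j s, ∫⁻ x, ‖g j s x‖ₑ ≤ B) →
        (∀ j s, ∫⁻ t : ℝ, (∫⁻ y : ℝ × ℝ, ‖E2 (g j s) y t‖ₑ ^ q) ^ ((n : ℝ) / 2) ≤ K) →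
        ∫⁻ y : (Fin n → ℝ) × ℝ,
          ‖EE (fun ξ => M (fun j => a j ((Phi e ξ).1 j)) *
            ∏ j, sup (ν j) (g j) ((Phi e ξ).2 j)) y‖ₑ ^ q ≤
          C * (K ^ (2 / (n : ℝ))) ^ m₂ * ∏ j, ν j univ ^ q := by
  have hn2 : 2 ≤ n := by omega
  have hn0' : 0 < n := by omega
  have hn0 : (0 : ℝ) < n := by exact_mod_cast hn0'
  have hn2' : (2 : ℝ) ≤ n := by exact_mod_cast hn2
  have hq2 : 2 < q := by
    have h1 : 2 < 2 * ((n : ℝ) + 1) / n := by
      rw [lt_div_iff₀ hn0]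
      linarith
    linarith
  have hq0 : 0 < q := by linarith
  obtain ⟨C, hC⟩ := mix n hn2 q hq
  set N : ℝ := (n : ℝ) / 2 with hN
  have hN1 : 1 ≤ N := by rw [hN]; linarith
  have hN0 : 0 < N := by linarith
  have hsum : ∑ _j : Fin m₁, 1 / (n : ℝ) + ∑ _j : Fin m₂, 1 / N = 1 := by
    rw [Finset.sum_const, Finset.card_univ, Fintype.card_fin, nsmul_eq_mul,
      Finset.sum_const, Finset.card_univ, Fintype.card_fin, nsmul_eq_mul, hN]
    have h1 : (n : ℝ) = m₁ + 2 * m₂ := by exact_mod_cast hn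
    field_simp
    linarith
  refine ⟨((C : ℝ≥0∞) ^ (1 / (n : ℝ))) ^ m₁, ENNReal.pow_ne_top
    (ENNReal.rpow_ne_top_of_nonneg (by positivity) ENNReal.coe_ne_top), ?_⟩
  intro B K hB e H _ _ _ M a hM ha S _ ν _ g hg hz hB1 hK0
  set s : (Fin m₁ → ℝ) → ℂ := fun ξ => M (fun j => a j (ξ j)) with hs
  have hSch : Sch m₁ s := ⟨H, inferInstance, inferInstance, inferInstance, M, a, hM, ha,
    fun ξ => rfl⟩
  have hsm : StronglyMeasurable s := hSch.meas
  set G : Fin m₂ → ℝ × ℝ → ℂ := fun j => sup (ν j) (g j) with hG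
  have hGm : ∀ j, StronglyMeasurable (G j) := fun j => sup_meas (ν j) (hg j)
  have hG0 : ∀ j x, x ∉ Q2 → G j x = 0 := by
    intro j x hx
    simp only [hG]
    unfold sup
    have h1 : ∀ s, g j s x = 0 := fun s => hz j s x hx
    simp only [h1, integral_zero]
  set f : (Fin n → ℝ) → ℂ := fun ξ => s (Phi e ξ).1 * ∏ j, G j ((Phi e ξ).2 j) with hf
  have hfm : StronglyMeasurable f := by
    apply StronglyMeasurable.mul
    · exact hsm.comp_measurable (measurable_fst.comp (Phi_mp e).measurable)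
    · apply Finset.stronglyMeasurable_fun_prod
      intro j _
      exact (hGm j).comp_measurable ((measurable_pi_apply j).comp
        (measurable_snd.comp (Phi_mp e).measurable))
  have hEm : Measurable fun y : (Fin n → ℝ) × ℝ => ‖EE f y‖ₑ ^ q :=
    (EE_meas hfm).enorm.pow_const q
  set Bj : Fin m₁ → ℝ → ℝ≥0∞ := fun j t => ∫⁻ x : ℝ, ‖E1 (a j) x t‖ₑ ^ q with hBj
  have hBm : ∀ j, Measurable (Bj j) := fun j =>
    ((E1_meas (ha j)).enorm.pow_const q).lintegral_prod_left'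
  set Wj : Fin m₂ → ℝ → ℝ≥0∞ := fun j t => ∫⁻ y : ℝ × ℝ, ‖E2 (G j) y t‖ₑ ^ q with hWj
  have hWm : ∀ j, Measurable (Wj j) := fun j =>
    ((E2_meas (G j) (hGm j)).enorm.pow_const q).lintegral_prod_left'
  -- the bound at a fixed time
  have hfix : ∀ t : ℝ, ∫⁻ x : Fin n → ℝ, ‖EE f (x, t)‖ₑ ^ q ≤
      (∏ j, (Bj j t ^ (n : ℝ)) ^ (1 / (n : ℝ))) * ∏ j, (Wj j t ^ N) ^ (1 / N) := by
    intro t
    set Z : (Fin m₁ → ℝ) × (Fin m₂ → ℝ × ℝ) → ℝ≥0∞ := fun z =>
      ‖EE s (z.1, t)‖ₑ ^ q * ∏ j, ‖E2 (G j) (z.2 j) t‖ₑ ^ q with hZ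
    have hEs : Measurable fun x : Fin m₁ → ℝ => ‖EE s (x, t)‖ₑ ^ q :=
      ((EE_meas hsm).enorm.pow_const q).comp
        (by fun_prop : Measurable fun x : Fin m₁ → ℝ => ((x, t) : (Fin m₁ → ℝ) × ℝ))
    have hEg : ∀ j, Measurable fun y : ℝ × ℝ => ‖E2 (G j) y t‖ₑ ^ q := fun j =>
      (E2t_meas (G j) (hGm j) t).pow_const q
    have hEgp : Measurable fun z : Fin m₂ → ℝ × ℝ => ∏ j, ‖E2 (G j) (z j) t‖ₑ ^ q :=
      Finset.measurable_prod _ fun j _ => (hEg j).comp (measurable_pi_apply j)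
    have hZm : Measurable Z :=
      (hEs.comp measurable_fst).mul (hEgp.comp measurable_snd)
    calc ∫⁻ x : Fin n → ℝ, ‖EE f (x, t)‖ₑ ^ q = ∫⁻ x : Fin n → ℝ, Z (Phi e x) := by
          apply lintegral_congr
          intro x
          rw [hf, EE_blk e hsm hGm hG0 x t, enorm_mul, ENNReal.mul_rpow_of_nonneg _ _ hq0.le]
          simp only [hZ]
          congr 1
          rw [ENNReal.prod_rpow_of_nonneg hq0.le]
          congr 1
          rw [← ofReal_norm, norm_prod, ENNReal.ofReal_prod_of_nonneg fun j _ => norm_nonneg _]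
          apply Finset.prod_congr rfl
          intro j _
          rw [ofReal_norm]
      _ = ∫⁻ z, Z z := (Phi_mp e).lintegral_comp hZm
      _ = (∫⁻ x : Fin m₁ → ℝ, ‖EE s (x, t)‖ₑ ^ q) *
            ∫⁻ z : Fin m₂ → ℝ × ℝ, ∏ j, ‖E2 (G j) (z j) t‖ₑ ^ q := by
          rw [Measure.volume_eq_prod]
          exact lintegral_prod_mul hEs.aemeasurable hEgp.aemeasurable
      _ = (∫⁻ x : Fin m₁ → ℝ, ‖EE s (x, t)‖ₑ ^ q) * ∏ j, Wj j t := by
          rw [lint_pi2 (fun j y => ‖E2 (G j) y t‖ₑ ^ q) hEg]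
      _ ≤ (∏ j, Bj j t) * ∏ j, Wj j t := by
          gcongr
          exact sch_time hq0 M hM ha t
      _ = _ := by
          congr 1
          · apply Finset.prod_congr rfl
            intro j _
            rw [← ENNReal.rpow_mul, mul_one_div_cancel hn0.ne', ENNReal.rpow_one]
          · apply Finset.prod_congr rfl
            intro j _
            rw [← ENNReal.rpow_mul, mul_one_div_cancel hN0.ne', ENNReal.rpow_one]
  have hWint : ∀ j, ∫⁻ t, Wj j t ^ N ≤ K * ν j univ ^ (q * N) := by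
    intro j
    exact sup_mix (ν j) (hg j) B hB (hB1 j) q N (by linarith) hN1 K (hK0 j)
  rw [Measure.volume_eq_prod, lintegral_prod_symm _ hEm.aemeasurable]
  calc ∫⁻ t : ℝ, ∫⁻ x : Fin n → ℝ, ‖EE f (x, t)‖ₑ ^ q
      ≤ ∫⁻ t : ℝ, (∏ j, (Bj j t ^ (n : ℝ)) ^ (1 / (n : ℝ))) * ∏ j, (Wj j t ^ N) ^ (1 / N) :=
        lintegral_mono hfix
    _ = ∫⁻ t : ℝ, ∏ i : Fin m₁ ⊕ Fin m₂,
          (Sum.elim (fun j t => Bj j t ^ (n : ℝ)) (fun j t => Wj j t ^ N) i t) ^
            (Sum.elim (fun _ => 1 / (n : ℝ)) (fun _ => 1 / N) i) := by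
        refine lintegral_congr fun t => ?_
        rw [Fintype.prod_sum_type]
        rfl
    _ ≤ ∏ i : Fin m₁ ⊕ Fin m₂,
          (∫⁻ t : ℝ, Sum.elim (fun j t => Bj j t ^ (n : ℝ)) (fun j t => Wj j t ^ N) i t) ^
            (Sum.elim (fun _ => 1 / (n : ℝ)) (fun _ => 1 / N) i) := by
        apply ENNReal.lintegral_prod_norm_pow_le
        · rintro (j | j) _
          · exact ((hBm j).pow_const _).aemeasurable
          · exact ((hWm j).pow_const _).aemeasurable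
        · rw [Fintype.sum_sum_type]
          exact hsum
        · rintro (j | j) _
          · simp only [Sum.elim_inl]
            positivity
          · simp only [Sum.elim_inr]
            positivity
    _ = (∏ j, (∫⁻ t : ℝ, Bj j t ^ (n : ℝ)) ^ (1 / (n : ℝ))) *
          ∏ j, (∫⁻ t : ℝ, Wj j t ^ N) ^ (1 / N) := by
        rw [Fintype.prod_sum_type]
        rfl
    _ ≤ (∏ _j : Fin m₁, (C : ℝ≥0∞) ^ (1 / (n : ℝ))) * ∏ j, (K * ν j univ ^ (q * N)) ^ (1 / N) := by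
        gcongr with j _ j
        · exact hC H (a j) (ha j)
        · exact hWint j
    _ = ((C : ℝ≥0∞) ^ (1 / (n : ℝ))) ^ m₁ * (K ^ (2 / (n : ℝ))) ^ m₂ * ∏ j, ν j univ ^ q := by
        have h1 : ∀ j, (K * ν j univ ^ (q * N)) ^ (1 / N) = K ^ (1 / N) * ν j univ ^ q := by
          intro j
          rw [ENNReal.mul_rpow_of_nonneg _ _ (by positivity), ← ENNReal.rpow_mul, mul_assoc,
            mul_one_div_cancel hN0.ne', mul_one]
        simp_rw [h1]
        have e9 : 1 / N = 2 / (n : ℝ) := by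
          rw [hN]
          field_simp
        rw [Finset.prod_mul_distrib, Finset.prod_const, Finset.prod_const, Finset.card_univ,
          Fintype.card_fin, Finset.card_univ, Fintype.card_fin, e9]
        ring

end Run7.h485.RR
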