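import Mathlib
import Pool.Agent.W771.Restr2
import Pool.Agent.Run7.h783.RV.Space
set_option autoImplicit false

/-! # The parabola: bounds for the extension of bounded functions on `[1/2,1]` -/

namespace Run7.h485.RR

open MeasureTheory Set Complex Filter Topology
open scoped ENNReal NNReal RealInnerProductSpace
open Pool.Agent.W771 Run7.h783.RV

/-- log-convexity of the norms -/
theorem interp {α : Type*} [MeasurableSpace α] (μ : Measure α) (F : α → ℝ≥0∞)
    (hF : AEMeasurable F μ) (q p : ℝ) (h2 : 2 < q) (hp : q < p) :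
    ∫⁻ a, F a ^ q ∂μ ≤ (∫⁻ a, F a ^ 2 ∂μ) ^ ((p - q) / (p - 2)) *
      (∫⁻ a, F a ^ p ∂μ) ^ ((q - 2) / (p - 2)) := by
  have hp2 : 0 < p - 2 := by linarith
  have ha : 0 ≤ (p - q) / (p - 2) := div_nonneg (by linarith) hp2.le
  have hb : 0 ≤ (q - 2) / (p - 2) := div_nonneg (by linarith) hp2.le
  have h := ENNReal.lintegral_mul_norm_pow_le (μ := μ) (f := fun a => F a ^ 2)
    (g := fun a => F a ^ p) (hF.pow_const 2) (hF.pow_const p) ha hb (by
      rw [← add_div, div_eq_one_iff_eq hp2.ne']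
      ring)
  refine le_trans (le_of_eq ?_) h
  refine lintegral_congr fun a => ?_
  have e1 : (F a ^ 2) ^ ((p - q) / (p - 2)) = F a ^ (2 * ((p - q) / (p - 2))) := by
    rw [← ENNReal.rpow_natCast, ← ENNReal.rpow_mul]
    norm_num
  have e2 : (F a ^ p) ^ ((q - 2) / (p - 2)) = F a ^ (p * ((q - 2) / (p - 2))) := by
    rw [← ENNReal.rpow_mul]
  rw [e1, e2, ← ENNReal.rpow_add_of_nonneg _ _ (by positivity) (mul_nonneg (by linarith) hb)]
  congr 1
  field_simp
  ring

/-- bounded functions with support in `[1/2,1]` -/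
structure Nice (g : ℝ → ℂ) : Prop where
  meas : Measurable g
  bd : ∀ r, ‖g r‖ ≤ 1
  supp : ∀ r, r ∉ Icc (1 / 2 : ℝ) 1 → g r = 0

/-- the extension operator of the parabola -/
noncomputable def GG (g : ℝ → ℂ) (y t : ℝ) : ℂ :=
  ∫ r in Ioi (0 : ℝ), g r * cexp (((-(r * y + t * r ^ 2) : ℝ) : ℂ) * I)

theorem GG_meas (g : ℝ → ℂ) (hg : Measurable g) : Measurable fun w : ℝ × ℝ => GG g w.1 w.2 := by
  unfold GG
  refine StronglyMeasurable.measurable ?_
  refine StronglyMeasurable.integral_prod_right (f := fun (w : ℝ × ℝ) (r : ℝ) =>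
    g r * cexp (((-(r * w.1 + w.2 * r ^ 2) : ℝ) : ℂ) * I)) ?_
  refine Measurable.stronglyMeasurable ?_
  exact (hg.comp measurable_snd).mul (Continuous.measurable (by fun_prop))

variable {g : ℝ → ℂ}

/-- Plancherel in time -/
theorem GG_time (h : Nice g) (y : ℝ) :
    ∫⁻ t, ‖GG g y t‖ₑ ^ 2 ≤ ENNReal.ofReal (2 * Real.pi) := by
  set f : ℝ → ℂ := fun s => g (√s) / (2 * √s : ℝ) * cexp (((-(√s * y) : ℝ) : ℂ) * I) with hf
  have hfm : Measurable f := by
    refine Measurable.mul (Measurable.div (h.meas.comp Real.continuous_sqrt.measurable) ?_) ?_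
    · exact Complex.measurable_ofReal.comp (Real.continuous_sqrt.measurable.const_mul 2)
    · refine Continuous.measurable ?_
      have := Real.continuous_sqrt
      fun_prop
  have hsq : ∀ s : ℝ, √s ∈ Icc (1 / 2 : ℝ) 1 → s ∈ Icc (1 / 4 : ℝ) 1 := by
    intro s hs
    have h0 : 0 ≤ s := by
      by_contra hc
      rw [Real.sqrt_eq_zero_of_nonpos (by linarith)] at hs
      have := hs.1
      norm_num at this
    have h1 := Real.sq_sqrt h0
    have h2 := hs.1
    have h3 := hs.2
    constructor <;> nlinarith [Real.sqrt_nonneg s]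
  have hfb : ∀ s, ‖f s‖ ≤ 1 := by
    intro s
    by_cases hs : √s ∈ Icc (1 / 2 : ℝ) 1
    · rw [hf]
      simp only
      rw [norm_mul, Complex.norm_exp_ofReal_mul_I, mul_one, norm_div, Complex.norm_real,
        Real.norm_of_nonneg (by positivity)]
      rw [div_le_one (by have := hs.1; linarith)]
      have := h.bd (√s)
      have := hs.1
      linarith
    · rw [hf]
      simp only
      rw [h.supp _ hs]
      simp
  have hfs : ∀ s, s ∉ Icc (1 / 4 : ℝ) 1 → f s = 0 := by
    intro s hs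
    rw [hf]
    simp only
    rw [h.supp _ (fun hc => hs (hsq s hc))]
    simp
  have hind : ∀ s, ‖f s‖ ≤ (Icc (1 / 4 : ℝ) 1).indicator (fun _ => (1 : ℝ)) s := by
    intro s
    by_cases hs : s ∈ Icc (1 / 4 : ℝ) 1
    · rw [indicator_of_mem hs]; exact hfb s
    · rw [indicator_of_notMem hs, hfs s hs, norm_zero]
  have hmem : ∀ p : ℝ≥0∞, MemLp f p := by
    intro p
    have h1 : MemLp ((Icc (1 / 4 : ℝ) 1).indicator fun _ : ℝ => (1 : ℝ)) p := by
      refine memLp_indicator_const p measurableSet_Icc (1 : ℝ) (Or.inr ?_)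
      rw [Real.volume_Icc]
      exact ENNReal.ofReal_ne_top
    refine h1.of_le hfm.aestronglyMeasurable (Eventually.of_forall fun s => ?_)
    exact (hind s).trans (le_abs_self _)
  have e1 : ∀ t, GG g y t = ∫ s : ℝ, f s * cexp (-(I * (s * t : ℝ))) := by
    intro t
    have e2 : ∫ s : ℝ, f s * cexp (-(I * (s * t : ℝ))) =
        ∫ s in Ioi (0 : ℝ), f s * cexp (-(I * (s * t : ℝ))) := by
      rw [← integral_indicator measurableSet_Ioi]
      congr 1
      funext s
      by_cases hs : s ∈ Ioi (0 : ℝ)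
      · rw [indicator_of_mem hs]
      · rw [indicator_of_notMem hs, hfs s (fun hc => hs (lt_of_lt_of_le (by norm_num) hc.1)),
          zero_mul]
    rw [e2, sub_sq]
    unfold GG
    refine setIntegral_congr_fun measurableSet_Ioi fun r hr => ?_
    have hr0 : (0 : ℝ) < r := hr
    have hrc : (r : ℂ) ≠ 0 := by exact_mod_cast hr0.ne'
    rw [hf]
    simp only
    rw [Real.sqrt_sq hr0.le]
    have e3 : cexp (((-(r * y + t * r ^ 2) : ℝ) : ℂ) * I) =
        cexp (((-(r * y) : ℝ) : ℂ) * I) * cexp (-(I * (r ^ 2 * t : ℝ))) := by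
      rw [← Complex.exp_add]
      congr 1
      push_cast
      ring
    rw [e3]
    push_cast
    field_simp
  simp_rw [e1]
  rw [planch1 f (memLp_one_iff_integrable.1 (hmem 1)) (hmem 2)]
  refine mul_le_of_le_one_right zero_le ?_
  calc ∫⁻ u, ‖f u‖ₑ ^ 2 ≤ ∫⁻ u, (Icc (1 / 4 : ℝ) 1).indicator 1 u := by
        refine lintegral_mono fun u => ?_
        by_cases hu : u ∈ Icc (1 / 4 : ℝ) 1
        · rw [indicator_of_mem hu, Pi.one_apply]
          have : ‖f u‖ₑ ≤ 1 := by
            rw [← ofReal_norm, ENNReal.ofReal_le_one]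
            exact hfb u
          exact pow_le_one' this 2
        · rw [indicator_of_notMem hu, hfs u hu]
          simp
    _ = ENNReal.ofReal (1 - 1 / 4) := by
        rw [lintegral_indicator_one measurableSet_Icc, Real.volume_Icc]
    _ ≤ 1 := by
        rw [ENNReal.ofReal_le_one]
        norm_num

/-- the planar restriction theorem -/
theorem GG_lp (p : ℝ) (hp : 4 < p) : ∃ C : ℝ≥0, ∀ g : ℝ → ℂ, Nice g →
    ∫⁻ t, ∫⁻ y, ‖GG g y t‖ₑ ^ p ≤ C := by
  obtain ⟨C, hC⟩ := ker_Lr (p / 2) ((p - 4) / 8) (by linarith) (by linarith)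
  refine ⟨C, fun g h => ?_⟩
  set a : ℝ → Unit → ℂ := fun u _ => g (u + 3 / 4) with ha
  have ham : Measurable (Function.uncurry a) :=
    h.meas.comp (measurable_fst.add_const (3 / 4 : ℝ))
  set A : Set ℝ := Icc (-(1 / 2) : ℝ) (1 / 2) with hA
  have hAm : MeasurableSet A := measurableSet_Icc
  have hz : ∀ u, u ∉ A → ∀ l, a u l = 0 := by
    intro u hu l
    rw [ha]
    apply h.supp
    intro hc
    apply hu
    rw [hA]
    constructor <;> linarith [hc.1, hc.2]
  have hN2 : ∀ u, N2 (Measure.dirac ()) a u = ‖g (u + 3 / 4)‖ₑ ^ 2 := by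
    intro u
    unfold N2
    rw [lintegral_dirac]
  have hN : ∀ u, N2 (Measure.dirac ()) a u ≤ 1 := by
    intro u
    rw [hN2]
    refine pow_le_one' ?_ 2
    rw [← ofReal_norm, ENNReal.ofReal_le_one]
    exact h.bd _
  have e1 : ∀ x t, ‖E1 a x t ()‖ₑ ^ 2 = ‖∫ p, kk (Measure.dirac ()) a p * PH x t p‖ₑ := by
    intro x t
    rw [← M2_eq (Measure.dirac ()) a ham A hAm subset_rfl hz hN x t]
    unfold M2
    rw [lintegral_dirac]
  have h1 := hC A hAm subset_rfl (kk (Measure.dirac ()) a) (kk_meas _ a ham)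
    (fun p => by
      have := kk_bound (Measure.dirac ()) a ham hN p
      rw [← ofReal_norm, ENNReal.ofReal_le_one] at this
      exact this) (kk_supp _ a A hz)
  have hv : volume A = 1 := by
    rw [hA, Real.volume_Icc]
    norm_num
  rw [hv, ENNReal.one_rpow, mul_one] at h1
  refine le_trans (le_of_eq ?_) h1
  refine lintegral_congr fun t => ?_
  rw [← lintegral_sub_right_eq_self (fun y => ‖GG g y t‖ₑ ^ p) (3 / 2 * t)]
  refine lintegral_congr fun x => ?_
  rw [← e1, ← ENNReal.rpow_natCast, ← ENNReal.rpow_mul]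
  have e0 : ((2 : ℕ) : ℝ) * (p / 2) = p := by
    push_cast
    ring
  rw [e0]
  congr 1
  have e2 : GG g (x - 3 / 2 * t) t = cexp (((-(3 / 4 * (x - 3 / 2 * t) + t * (3 / 4) ^ 2) : ℝ) : ℂ) * I) *
      E1 a x t () := by
    have e3 : GG g (x - 3 / 2 * t) t =
        ∫ r : ℝ, g r * cexp (((-(r * (x - 3 / 2 * t) + t * r ^ 2) : ℝ) : ℂ) * I) := by
      unfold GG
      rw [← integral_indicator measurableSet_Ioi]
      congr 1
      funext s
      by_cases hs : s ∈ Ioi (0 : ℝ)
      · rw [indicator_of_mem hs]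
      · rw [indicator_of_notMem hs, h.supp s (fun hc => hs (lt_of_lt_of_le (by norm_num) hc.1)),
          zero_mul]
    rw [e3, ← integral_add_right_eq_self _ (3 / 4 : ℝ)]
    unfold E1
    rw [← integral_const_mul]
    congr 1
    funext u
    rw [ha]
    unfold ph
    simp only
    rw [mul_left_comm, ← Complex.exp_add]
    congr 2
    push_cast
    ring
  rw [e2, enorm_mul, ← ofReal_norm (cexp _), Complex.norm_exp_ofReal_mul_I, ENNReal.ofReal_one,
    one_mul]

end Run7.h485.RR
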