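import Mathlib
import Pool.Agent.Run7.h485.RR.Pla
set_option autoImplicit false

/-! # The estimate of Stein and Tomas for the paraboloid in `ℝ³`: `‖E f‖_4 ≤ C ‖f‖_2` -/

namespace Run7.h485.RR

open MeasureTheory Set Complex Filter Topology
open scoped ENNReal NNReal RealInnerProductSpace
open Pool.Agent.W771 Run7.h783.RV

/-- bounded functions with support in the ball of radius `R` -/
structure BB (M R : ℝ) (f : ℂ → ℂ) : Prop where
  meas : Measurable f
  bd : ∀ x, ‖f x‖ ≤ M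
  supp : ∀ x, R < ‖x‖ → f x = 0

theorem BB.memLp {M R : ℝ} {f : ℂ → ℂ} (h : BB M R f) (p : ℝ≥0∞) : MemLp f p :=
  bdd_int f h.meas M R h.bd h.supp p

theorem BB.int {M R : ℝ} {f : ℂ → ℂ} (h : BB M R f) : Integrable f :=
  memLp_one_iff_integrable.1 (h.memLp 1)

/-- the phase -/
noncomputable def eC (t : ℝ) (ξ x : ℂ) : ℂ := cexp (((-(⟪ξ, x⟫ + t * ‖x‖ ^ 2) : ℝ) : ℂ) * I)

theorem eC_norm (t : ℝ) (ξ x : ℂ) : ‖eC t ξ x‖ = 1 := Complex.norm_exp_ofReal_mul_I _

theorem eC_enorm (t : ℝ) (ξ x : ℂ) : ‖eC t ξ x‖ₑ = 1 := by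
  rw [← ofReal_norm, eC_norm, ENNReal.ofReal_one]

theorem eC_cont : Continuous fun p : ℝ × ℂ × ℂ => eC p.1 p.2.1 p.2.2 := by
  unfold eC
  fun_prop

theorem EC_def (f : ℂ → ℂ) (t : ℝ) (ξ : ℂ) : EC f t ξ = ∫ x : ℂ, f x * eC t ξ x := rfl

/-- Plancherel at a fixed time -/
theorem EC_l2 (f : ℂ → ℂ) (hm0 : Measurable f) (h1 : Integrable f) (h2 : MemLp f 2) (t : ℝ) :
    ∫⁻ ξ, ‖EC f t ξ‖ₑ ^ 2 = ENNReal.ofReal (4 * Real.pi ^ 2) * ∫⁻ x, ‖f x‖ₑ ^ 2 := by
  set g : ℂ → ℂ := fun x => f x * cexp (((-(t * ‖x‖ ^ 2) : ℝ) : ℂ) * I) with hg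
  have hgm : Measurable g := hm0.mul (Continuous.measurable (by fun_prop))
  have hgn : ∀ x, ‖g x‖ = ‖f x‖ := fun x => by
    rw [hg]
    simp only
    rw [norm_mul, Complex.norm_exp_ofReal_mul_I, mul_one]
  have g1 : Integrable g := h1.norm.mono' hgm.aestronglyMeasurable
    (Eventually.of_forall fun x => (hgn x).le)
  have g2 : MemLp g 2 := h2.of_le hgm.aestronglyMeasurable (Eventually.of_forall fun x => (hgn x).le)
  obtain ⟨hm, he⟩ := Pool.Agent.Helper390.Covario.plancherel g1 g2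
  have e : ∀ ξ, EC f t ξ = (FourierTransform.fourier g) ((2 * Real.pi)⁻¹ • ξ) := by
    intro ξ
    rw [Real.fourier_eq']
    unfold EC
    refine integral_congr_ae (Eventually.of_forall fun x => ?_)
    simp only [hg, smul_eq_mul]
    rw [inner_smul_right, mul_left_comm, ← Complex.exp_add, ← add_mul, ← Complex.ofReal_add,
      real_inner_comm]
    congr 3
    have := Real.pi_pos
    field_simp
    ring_nf
  have e0 : ∀ z : ℂ, ‖z‖ₑ ^ 2 = ENNReal.ofReal (‖z‖ ^ 2) := fun z => by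
    rw [ENNReal.ofReal_pow (norm_nonneg _), ofReal_norm]
  have hint : Integrable (fun x => ‖(FourierTransform.fourier g) x‖ ^ 2) :=
    (memLp_two_iff_integrable_sq_norm hm.aestronglyMeasurable).1 hm
  have hintf : Integrable (fun x => ‖g x‖ ^ 2) :=
    (memLp_two_iff_integrable_sq_norm g2.aestronglyMeasurable).1 g2
  have e1 : ∫⁻ x, ‖(FourierTransform.fourier g) x‖ₑ ^ 2 = ∫⁻ x, ‖f x‖ₑ ^ 2 := by
    simp_rw [e0]
    rw [← ofReal_integral_eq_lintegral_ofReal hint (ae_of_all _ fun _ => by positivity), he,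
      ofReal_integral_eq_lintegral_ofReal hintf (ae_of_all _ fun _ => by positivity)]
    simp_rw [hgn]
  have hFm : Measurable (FourierTransform.fourier g) := by
    refine Continuous.measurable ?_
    exact VectorFourier.fourierIntegral_continuous Real.continuous_fourierChar continuous_inner g1
  have h3 := lint_smul (volume : Measure ℂ) (fun x => ‖(FourierTransform.fourier g) x‖ₑ ^ 2)
    (hFm.enorm.pow_const 2) ((2 * Real.pi)⁻¹) (by positivity)
  simp_rw [e]
  rw [h3, e1, Complex.finrank_real_complex]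
  congr 2
  rw [abs_of_pos (by positivity)]
  field_simp
  norm_num

/-- Plancherel in time for a function of the radius -/
theorem time_l2 (k : ℝ → ℂ) (hk : Measurable k) (M R : ℝ) (hR : 0 ≤ R) (hM : ∀ s, ‖k s‖ ≤ M)
    (hs : ∀ s, R < s → k s = 0) :
    ∫⁻ t : ℝ, ‖∫ s in Ioi (0 : ℝ), (s : ℂ) * k s * cexp (((-(t * s ^ 2 / 2) : ℝ) : ℂ) * I)‖ₑ ^ 2 =
      ENNReal.ofReal (2 * Real.pi) * ∫⁻ s in Ioi (0 : ℝ), ENNReal.ofReal s * ‖k s‖ₑ ^ 2 := by
  have hM0 : 0 ≤ M := (norm_nonneg _).trans (hM 0)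
  set f : ℝ → ℂ := (Ioi (0 : ℝ)).indicator fun u => k (√(2 * u)) with hf
  have hfm : Measurable f := by
    refine Measurable.indicator ?_ measurableSet_Ioi
    exact hk.comp (Real.continuous_sqrt.measurable.comp (measurable_id.const_mul 2))
  have hind : ∀ u, ‖f u‖ ≤ (Ioc (0 : ℝ) (R ^ 2)).indicator (fun _ => M) u := by
    intro u
    by_cases hu : u ∈ Ioc (0 : ℝ) (R ^ 2)
    · rw [indicator_of_mem hu, hf, indicator_of_mem (by exact hu.1)]
      exact hM _
    · rw [indicator_of_notMem hu]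
      by_cases hu0 : u ∈ Ioi (0 : ℝ)
      · rw [hf, indicator_of_mem hu0, hs, norm_zero]
        have h1 : R ^ 2 < u := by
          by_contra hc
          exact hu ⟨hu0, not_lt.1 hc⟩
        have h2 : (0 : ℝ) < u := hu0
        rw [Real.lt_sqrt hR]
        linarith
      · rw [hf, indicator_of_notMem hu0, norm_zero]
  have hmem : ∀ p : ℝ≥0∞, MemLp f p := by
    intro p
    have h1 : MemLp ((Ioc (0 : ℝ) (R ^ 2)).indicator fun _ : ℝ => M) p := by
      refine memLp_indicator_const p measurableSet_Ioc M (Or.inr ?_)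
      rw [Real.volume_Ioc]
      exact ENNReal.ofReal_ne_top
    refine h1.of_le hfm.aestronglyMeasurable (Eventually.of_forall fun s => ?_)
    exact (hind s).trans (le_abs_self _)
  have himg : (fun s : ℝ => s ^ 2 / 2) '' (Ioi 0) = Ioi (0 : ℝ) := by
    ext x
    constructor
    · rintro ⟨y, hy, rfl⟩
      have hy0 : (0 : ℝ) < y := hy
      exact (by positivity : (0 : ℝ) < y ^ 2 / 2)
    · intro hx
      have hx0 : (0 : ℝ) < x := hx
      refine ⟨√(2 * x), Real.sqrt_pos.2 (by positivity), ?_⟩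
      simp only
      rw [Real.sq_sqrt (by positivity)]
      ring
  have hder : ∀ x ∈ Ioi (0 : ℝ), HasDerivWithinAt (fun s : ℝ => s ^ 2 / 2) x (Ioi 0) x := by
    intro x _
    have := ((hasDerivAt_pow 2 x).div_const 2).hasDerivWithinAt (s := Ioi (0 : ℝ))
    refine this.congr_deriv ?_
    norm_num
  have hinj : InjOn (fun s : ℝ => s ^ 2 / 2) (Ioi 0) := by
    intro x hx y hy hxy
    have hx0 : (0 : ℝ) < x := hx
    have hy0 : (0 : ℝ) < y := hy
    simp only at hxy
    exact (pow_left_inj₀ hx0.le hy0.le (by norm_num)).1 (by linarith : x ^ 2 = y ^ 2)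
  have e1 : ∀ t : ℝ, ∫ s in Ioi (0 : ℝ), (s : ℂ) * k s * cexp (((-(t * s ^ 2 / 2) : ℝ) : ℂ) * I) =
      ∫ u : ℝ, f u * cexp (-(I * (u * t : ℝ))) := by
    intro t
    have h1 := integral_image_eq_integral_abs_deriv_smul (measurableSet_Ioi (a := (0 : ℝ))) hder hinj
      (fun u => k (√(2 * u)) * cexp (-(I * (u * t : ℝ))))
    rw [himg] at h1
    have h2 : ∫ u : ℝ, f u * cexp (-(I * (u * t : ℝ))) =
        ∫ u in Ioi (0 : ℝ), k (√(2 * u)) * cexp (-(I * (u * t : ℝ))) := by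
      rw [← integral_indicator measurableSet_Ioi]
      congr 1
      funext u
      by_cases hu : u ∈ Ioi (0 : ℝ)
      · rw [hf, indicator_of_mem hu, indicator_of_mem hu]
      · rw [hf, indicator_of_notMem hu, indicator_of_notMem hu, zero_mul]
    rw [h2, h1]
    refine setIntegral_congr_fun measurableSet_Ioi fun s hs => ?_
    have hs0 : (0 : ℝ) < s := hs
    try simp only
    rw [abs_of_pos hs0, Complex.real_smul, show (2 * (s ^ 2 / 2) : ℝ) = s ^ 2 by ring,
      Real.sqrt_sq hs0.le, ← mul_assoc]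
    congr 2
    push_cast
    ring
  simp_rw [e1]
  rw [planch1 f (memLp_one_iff_integrable.1 (hmem 1)) (hmem 2)]
  congr 1
  have h3 := lintegral_image_eq_lintegral_abs_deriv_mul (measurableSet_Ioi (a := (0 : ℝ))) hder hinj
    (fun u => ‖k (√(2 * u))‖ₑ ^ 2)
  rw [himg] at h3
  have h4 : ∫⁻ u, ‖f u‖ₑ ^ 2 = ∫⁻ u in Ioi (0 : ℝ), ‖k (√(2 * u))‖ₑ ^ 2 := by
    rw [← lintegral_indicator measurableSet_Ioi]
    refine lintegral_congr fun u => ?_
    by_cases hu : u ∈ Ioi (0 : ℝ)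
    · rw [hf, indicator_of_mem hu, indicator_of_mem hu]
    · rw [hf, indicator_of_notMem hu, indicator_of_notMem hu]
      simp
  rw [h4, h3]
  refine setLIntegral_congr_fun measurableSet_Ioi fun s hs => ?_
  have hs0 : (0 : ℝ) < s := hs
  try simp only
  rw [abs_of_pos hs0, show (2 * (s ^ 2 / 2) : ℝ) = s ^ 2 by ring, Real.sqrt_sq hs0.le]

end Run7.h485.RR
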