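import Mathlib
import Pool.Agent.Run7.h485.RR.Four
set_option autoImplicit false

/-! # The estimate of Stein and Tomas for the paraboloid in `ℝ³`: `‖E f‖_4 ≤ C ‖f‖_2` -/

namespace Run7.h485.RR

open MeasureTheory Set Complex Filter Topology
open scoped ENNReal NNReal RealInnerProductSpace
open Pool.Agent.W771 Run7.h783.RV

variable {M : ℝ} {f : ℂ → ℂ}

/-- the product -/
noncomputable def kap (f : ℂ → ℂ) (v z : ℂ) : ℂ := f (z - (1 / 2 : ℝ) • v) * f (z + (1 / 2 : ℝ) • v)

theorem kap_meas (hf : Measurable f) : Measurable fun p : ℂ × ℂ => kap f p.1 p.2 := by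
  unfold kap
  exact (hf.comp (by fun_prop)).mul (hf.comp (by fun_prop))

theorem kap_ne (h : BB M 1 f) (v z : ℂ) (hk : kap f v z ≠ 0) : ‖z‖ ≤ 1 ∧ ‖v‖ ≤ 2 := by
  have h1 : ‖z - (1 / 2 : ℝ) • v‖ ≤ 1 := by
    by_contra hc
    apply hk
    unfold kap
    rw [h.supp _ (not_le.1 hc), zero_mul]
  have h2 : ‖z + (1 / 2 : ℝ) • v‖ ≤ 1 := by
    by_contra hc
    apply hk
    unfold kap
    rw [h.supp _ (not_le.1 hc), mul_zero]
  constructor
  · have h3 : ‖(2 : ℝ) • z‖ ≤ 2 := by
      have : (2 : ℝ) • z = (z - (1 / 2 : ℝ) • v) + (z + (1 / 2 : ℝ) • v) := by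
        rw [two_smul]
        abel
      rw [this]
      linarith [norm_add_le (z - (1 / 2 : ℝ) • v) (z + (1 / 2 : ℝ) • v)]
    rw [norm_smul] at h3
    norm_num at h3
    linarith
  · have : v = (z + (1 / 2 : ℝ) • v) - (z - (1 / 2 : ℝ) • v) := by
      have : (1 / 2 : ℝ) • v + (1 / 2 : ℝ) • v = v := by
        rw [← add_smul]
        norm_num
      rw [add_sub_sub_cancel]
      exact this.symm
    rw [this]
    linarith [norm_sub_le (z + (1 / 2 : ℝ) • v) (z - (1 / 2 : ℝ) • v)]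

theorem kap_norm (h : BB M 1 f) (v z : ℂ) : ‖kap f v z‖ ≤ M ^ 2 := by
  unfold kap
  rw [norm_mul, sq]
  exact mul_le_mul (h.bd _) (h.bd _) (norm_nonneg _) ((norm_nonneg _).trans (h.bd 0))

theorem kap_BB (h : BB M 1 f) (v : ℂ) : BB (M ^ 2) 1 (kap f v) := by
  refine ⟨(kap_meas h.meas).comp measurable_prodMk_left, kap_norm h v, ?_⟩
  intro z hz
  by_contra hc
  have := (kap_ne h v z hc).1
  linarith

/-- indicator of a ball -/
noncomputable def ib (R c : ℝ) (x : ℂ) : ℝ := (Metric.closedBall (0 : ℂ) R).indicator (fun _ => c) x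

theorem ib_int (R c : ℝ) : Integrable (ib R c) := by
  have h : MemLp (ib R c) 1 := by
    refine memLp_indicator_const 1 Metric.isClosed_closedBall.measurableSet c (Or.inr ?_)
    exact measure_closedBall_lt_top.ne
  exact memLp_one_iff_integrable.1 h

theorem ib_mem (R c : ℝ) (x : ℂ) (hx : ‖x‖ ≤ R) : ib R c x = c := by
  unfold ib
  rw [indicator_of_mem (by simpa using hx)]

theorem ib_nonneg (R c : ℝ) (hc : 0 ≤ c) (x : ℂ) : 0 ≤ ib R c x := by
  unfold ib
  exact indicator_nonneg (fun _ _ => hc) x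

theorem phase_id (t : ℝ) (ξ z v : ℂ) :
    eC t ξ (z - (1 / 2 : ℝ) • v) * eC t ξ (z + (1 / 2 : ℝ) • v) =
      cexp (((-(t * ‖v‖ ^ 2 / 2) : ℝ) : ℂ) * I) * eC (2 * t) ((2 : ℝ) • ξ) z := by
  unfold eC
  rw [← Complex.exp_add, ← Complex.exp_add, ← add_mul, ← add_mul, ← Complex.ofReal_add,
    ← Complex.ofReal_add]
  congr 3
  rw [norm_add_sq_real, norm_sub_sq_real, norm_smul, inner_add_right, inner_sub_right,
    real_inner_smul_left]
  norm_num
  ring

theorem sq_eq (h : BB M 1 f) (t : ℝ) (ξ : ℂ) :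
    (EC f t ξ) ^ 2 = ∫ v, cexp (((-(t * ‖v‖ ^ 2 / 2) : ℝ) : ℂ) * I) *
      EC (kap f v) (2 * t) ((2 : ℝ) • ξ) := by
  have hM0 : 0 ≤ M := (norm_nonneg _).trans (h.bd 0)
  set F : ℂ → ℂ → ℂ := fun x v => (f x * eC t ξ x) * (f (x + v) * eC t ξ (x + v)) with hF
  have hec : Continuous fun x => eC t ξ x := eC_cont.comp (by fun_prop : Continuous fun x : ℂ => (t, ξ, x))
  have hFm : Measurable (Function.uncurry F) := by
    have h1 : Measurable fun x => f x * eC t ξ x := h.meas.mul hec.measurable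
    exact (h1.comp measurable_fst).mul (h1.comp (measurable_fst.add measurable_snd))
  have hFi : Integrable (Function.uncurry F) (volume.prod volume) := by
    have h1 : Integrable (fun p : ℂ × ℂ => ib 1 (M ^ 2) p.1 * ib 2 1 p.2) (volume.prod volume) :=
      (ib_int 1 (M ^ 2)).mul_prod (ib_int 2 1)
    refine h1.mono' hFm.aestronglyMeasurable (Eventually.of_forall fun p => ?_)
    have hn : ‖Function.uncurry F p‖ = ‖f p.1‖ * ‖f (p.1 + p.2)‖ := by
      simp only [Function.uncurry, hF, norm_mul, eC_norm, mul_one]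
    rw [hn]
    by_cases h0 : f p.1 = 0
    · rw [h0, norm_zero, zero_mul]
      exact mul_nonneg (ib_nonneg _ _ (by positivity) _) (ib_nonneg _ _ zero_le_one _)
    by_cases h2 : f (p.1 + p.2) = 0
    · rw [h2, norm_zero, mul_zero]
      exact mul_nonneg (ib_nonneg _ _ (by positivity) _) (ib_nonneg _ _ zero_le_one _)
    have a1 : ‖p.1‖ ≤ 1 := by
      by_contra hc
      exact h0 (h.supp _ (not_le.1 hc))
    have a2 : ‖p.1 + p.2‖ ≤ 1 := by
      by_contra hc
      exact h2 (h.supp _ (not_le.1 hc))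
    have a3 : ‖p.2‖ ≤ 2 := by
      have : p.2 = (p.1 + p.2) - p.1 := by ring
      rw [this]
      linarith [norm_sub_le (p.1 + p.2) p.1]
    rw [ib_mem _ _ _ a1, ib_mem _ _ _ a3, mul_one, sq]
    exact mul_le_mul (h.bd _) (h.bd _) (norm_nonneg _) hM0
  have e1 : (EC f t ξ) ^ 2 = ∫ x, ∫ v, F x v := by
    rw [sq, EC_def, ← integral_mul_const]
    refine integral_congr_ae (Eventually.of_forall fun x => ?_)
    simp only [hF]
    rw [integral_const_mul, integral_add_left_eq_self (fun y => f y * eC t ξ y) x]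
  rw [e1, integral_integral_swap hFi]
  refine integral_congr_ae (Eventually.of_forall fun v => ?_)
  simp only
  rw [← integral_sub_right_eq_self (fun x => F x v) ((1 / 2 : ℝ) • v), EC_def, ← integral_const_mul]
  refine integral_congr_ae (Eventually.of_forall fun z => ?_)
  simp only [hF]
  have e2 : z - (1 / 2 : ℝ) • v + v = z + (1 / 2 : ℝ) • v := by
    have : v = (1 / 2 : ℝ) • v + (1 / 2 : ℝ) • v := by
      rw [← add_smul]
      norm_num
    nth_rewrite 2 [this]
    abel
  rw [e2]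
  unfold kap
  linear_combination (f (z - (1 / 2 : ℝ) • v) * f (z + (1 / 2 : ℝ) • v)) * phase_id t ξ z v

/-- the function of the centre -/
noncomputable def Psi (f : ℂ → ℂ) (t α : ℝ) (z : ℂ) : ℂ :=
  ∫ s in Ioi (0 : ℝ), (s : ℂ) * kap f (s • om α) z * cexp (((-(t * s ^ 2 / 2) : ℝ) : ℂ) * I)

theorem kapo_meas (hf : Measurable f) : Measurable fun w : (ℝ × ℂ) × ℝ => kap f (w.2 • om w.1.1) w.1.2 := by
  refine (kap_meas hf).comp (Measurable.prodMk ?_ ?_)
  · exact ((continuous_snd.smul (om_cont.comp (continuous_fst.comp continuous_fst)))).measurable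
  · exact measurable_snd.comp measurable_fst

theorem Psi_meas (hf : Measurable f) : Measurable fun w : ℝ × ℝ × ℂ => Psi f w.1 w.2.1 w.2.2 := by
  unfold Psi
  refine StronglyMeasurable.measurable ?_
  refine StronglyMeasurable.integral_prod_right (f := fun (w : ℝ × ℝ × ℂ) (s : ℝ) =>
    (s : ℂ) * kap f (s • om w.2.1) w.2.2 * cexp (((-(w.1 * s ^ 2 / 2) : ℝ) : ℂ) * I)) ?_
  refine Measurable.stronglyMeasurable ?_
  refine Measurable.mul (Measurable.mul (Complex.measurable_ofReal.comp measurable_snd) ?_)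
    (Continuous.measurable (by fun_prop))
  exact (kapo_meas hf).comp ((measurable_snd.comp measurable_fst).prodMk measurable_snd)

theorem s_le (h : BB M 1 f) (s α : ℝ) (z : ℂ) (hs : 0 < s) (hk : kap f (s • om α) z ≠ 0) :
    ‖z‖ ≤ 1 ∧ s ≤ 2 := by
  have := kap_ne h _ _ hk
  rw [norm_r_om _ _ hs.le] at this
  exact this

theorem Psi_norm (h : BB M 1 f) (t α : ℝ) (z : ℂ) : ‖Psi f t α z‖ ≤ 4 * M ^ 2 := by
  have hM0 : 0 ≤ M := (norm_nonneg _).trans (h.bd 0)
  unfold Psi
  have h1 : ∀ s ∈ Ioi (0 : ℝ), ‖(s : ℂ) * kap f (s • om α) z * cexp (((-(t * s ^ 2 / 2) : ℝ) : ℂ) * I)‖ ≤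
      (Ioc (0 : ℝ) 2).indicator (fun _ => 2 * M ^ 2) s := by
    intro s hs
    have hs0 : (0 : ℝ) < s := hs
    rw [norm_mul, Complex.norm_exp_ofReal_mul_I, mul_one, norm_mul, Complex.norm_real,
      Real.norm_of_nonneg hs0.le]
    by_cases hk : kap f (s • om α) z = 0
    · rw [hk, norm_zero, mul_zero]
      exact indicator_nonneg (fun _ _ => by positivity) s
    · have h2 := s_le h s α z hs0 hk
      rw [indicator_of_mem (show s ∈ Ioc (0 : ℝ) 2 from ⟨hs0, h2.2⟩)]
      exact mul_le_mul h2.2 (kap_norm h _ _) (norm_nonneg _) (by norm_num)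
  have h3 : Integrable ((Ioc (0 : ℝ) 2).indicator fun _ => 2 * M ^ 2) (volume.restrict (Ioi (0 : ℝ))) := by
    refine Integrable.mono_measure ?_ Measure.restrict_le_self
    rw [integrable_indicator_iff measurableSet_Ioc]
    exact integrableOn_const (by rw [Real.volume_Ioc]; exact ENNReal.ofReal_ne_top)
  refine (norm_integral_le_of_norm_le h3 ((ae_restrict_iff' measurableSet_Ioi).2
    (Eventually.of_forall h1))).trans (le_of_eq ?_)
  rw [setIntegral_indicator measurableSet_Ioc, setIntegral_const, inter_eq_right.2 Ioc_subset_Ioi_self,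
    Measure.real, Real.volume_Ioc, smul_eq_mul, ENNReal.toReal_ofReal (by norm_num)]
  ring

theorem Psi_BB (h : BB M 1 f) (t α : ℝ) : BB (4 * M ^ 2) 1 (Psi f t α) := by
  have hpm : Measurable (Psi f t α) := by
    have h1 : Measurable fun z : ℂ => (t, α, z) := by fun_prop
    have h2 := (Psi_meas h.meas).comp h1
    simp only [Function.comp_def] at h2
    exact h2
  refine ⟨hpm, Psi_norm h t α, ?_⟩
  intro z hz
  unfold Psi
  rw [← integral_zero ℝ ℂ (μ := volume.restrict (Ioi (0 : ℝ)))]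
  refine setIntegral_congr_fun measurableSet_Ioi fun s hs => ?_
  have hs0 : (0 : ℝ) < s := hs
  try simp only
  have : kap f (s • om α) z = 0 := by
    by_contra hc
    have := (s_le h s α z hs0 hc).1
    linarith
  rw [this, mul_zero, zero_mul]

theorem CC_vol : volume CC = ENNReal.ofReal (2 * Real.pi) := by
  unfold CC
  rw [Real.volume_Ioo]
  congr 1
  ring

theorem sq_pol (h : BB M 1 f) (t : ℝ) (ξ : ℂ) :
    (EC f t ξ) ^ 2 = ∫ α in CC, EC (Psi f t α) (2 * t) ((2 : ℝ) • ξ) := by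
  have hM0 : 0 ≤ M := (norm_nonneg _).trans (h.bd 0)
  set Q : ℂ → ℂ := fun v => cexp (((-(t * ‖v‖ ^ 2 / 2) : ℝ) : ℂ) * I) *
      EC (kap f v) (2 * t) ((2 : ℝ) • ξ) with hQ
  have hec : Continuous fun x => eC (2 * t) ((2 : ℝ) • ξ) x :=
    eC_cont.comp (by fun_prop : Continuous fun x : ℂ => (2 * t, (2 : ℝ) • ξ, x))
  have hQm : Measurable Q := by
    refine Measurable.mul (Continuous.measurable (by fun_prop)) ?_
    refine StronglyMeasurable.measurable ?_
    refine StronglyMeasurable.integral_prod_right (f := fun (v : ℂ) (z : ℂ) =>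
      kap f v z * eC (2 * t) ((2 : ℝ) • ξ) z) ?_
    exact ((kap_meas h.meas).mul (hec.measurable.comp measurable_snd)).stronglyMeasurable
  have hQb : ∀ v, ‖Q v‖ ≤ ib 2 (∫ z, ib 1 (M ^ 2) z) v := by
    intro v
    rw [hQ]
    simp only
    rw [norm_mul, Complex.norm_exp_ofReal_mul_I, one_mul]
    have h1 : ‖EC (kap f v) (2 * t) ((2 : ℝ) • ξ)‖ ≤ ∫ z, ib 1 (M ^ 2) z := by
      rw [EC_def]
      refine norm_integral_le_of_norm_le (ib_int 1 (M ^ 2)) (Eventually.of_forall fun z => ?_)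
      rw [norm_mul, eC_norm, mul_one]
      by_cases hk : kap f v z = 0
      · rw [hk, norm_zero]
        exact ib_nonneg _ _ (by positivity) _
      · rw [ib_mem _ _ _ (kap_ne h v z hk).1]
        exact kap_norm h v z
    by_cases hv : ‖v‖ ≤ 2
    · rw [ib_mem _ _ _ hv]
      exact h1
    · have : EC (kap f v) (2 * t) ((2 : ℝ) • ξ) = 0 := by
        rw [EC_def]
        have : ∀ z, kap f v z * eC (2 * t) ((2 : ℝ) • ξ) z = 0 := by
          intro z
          have : kap f v z = 0 := by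
            by_contra hc
            exact hv (kap_ne h v z hc).2
          rw [this, zero_mul]
        simp_rw [this]
        exact integral_zero _ _
      rw [this, norm_zero]
      exact ib_nonneg _ _ (integral_nonneg fun z => ib_nonneg _ _ (by positivity) z) _
  have hQi : Integrable Q := (ib_int 2 _).mono' hQm.aestronglyMeasurable (Eventually.of_forall hQb)
  rw [sq_eq h, polar_C Q hQm hQi]
  refine setIntegral_congr_fun CC_meas fun α _ => ?_
  try simp only
  set H : ℝ → ℂ → ℂ := fun s z => (s : ℂ) * kap f (s • om α) z *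
    cexp (((-(t * s ^ 2 / 2) : ℝ) : ℂ) * I) * eC (2 * t) ((2 : ℝ) • ξ) z with hH
  have hHm : Measurable (Function.uncurry H) := by
    refine Measurable.mul (Measurable.mul (Measurable.mul (Complex.measurable_ofReal.comp measurable_fst) ?_)
      (Continuous.measurable (by fun_prop))) (hec.measurable.comp measurable_snd)
    exact (kapo_meas h.meas).comp ((measurable_const.prodMk measurable_snd).prodMk measurable_fst)
  have hHi : Integrable (Function.uncurry H) ((volume.restrict (Ioi (0 : ℝ))).prod volume) := by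
    have h3 : Integrable ((Ioc (0 : ℝ) 2).indicator fun _ => 2 * M ^ 2) (volume.restrict (Ioi (0 : ℝ))) := by
      refine Integrable.mono_measure ?_ Measure.restrict_le_self
      rw [integrable_indicator_iff measurableSet_Ioc]
      exact integrableOn_const (by rw [Real.volume_Ioc]; exact ENNReal.ofReal_ne_top)
    have h1 := h3.mul_prod (ib_int 1 1)
    refine h1.mono' hHm.aestronglyMeasurable ?_
    have hae : ∀ᵐ p ∂((volume.restrict (Ioi (0 : ℝ))).prod (volume : Measure ℂ)), (0 : ℝ) < p.1 := by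
      have : ∀ᵐ s ∂(volume.restrict (Ioi (0 : ℝ))), (0 : ℝ) < s :=
        (ae_restrict_iff' measurableSet_Ioi).2 (Eventually.of_forall fun s hs => hs)
      exact Measure.quasiMeasurePreserving_fst.ae this
    filter_upwards [hae] with p hp
    have hn : ‖Function.uncurry H p‖ = p.1 * ‖kap f (p.1 • om α) p.2‖ := by
      simp only [Function.uncurry, hH, norm_mul, eC_norm, mul_one, Complex.norm_exp_ofReal_mul_I,
        Complex.norm_real, Real.norm_of_nonneg hp.le]
    rw [hn]
    by_cases hk : kap f (p.1 • om α) p.2 = 0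
    · rw [hk, norm_zero, mul_zero]
      exact mul_nonneg (indicator_nonneg (fun _ _ => by positivity) _) (ib_nonneg _ _ zero_le_one _)
    · have h2 := s_le h p.1 α p.2 hp hk
      rw [indicator_of_mem (show p.1 ∈ Ioc (0 : ℝ) 2 from ⟨hp, h2.2⟩), ib_mem _ _ _ h2.1, mul_one]
      exact mul_le_mul h2.2 (kap_norm h _ _) (norm_nonneg _) (by norm_num)
  have e1 : ∫ r in Ioi (0 : ℝ), (r : ℂ) * Q (r • om α) = ∫ r in Ioi (0 : ℝ), ∫ z, H r z := by
    refine setIntegral_congr_fun measurableSet_Ioi fun r hr => ?_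
    have hr0 : (0 : ℝ) < r := hr
    simp only [hQ, hH]
    rw [EC_def, norm_r_om _ _ hr0.le, ← mul_assoc, ← integral_const_mul]
    refine integral_congr_ae (Eventually.of_forall fun z => ?_)
    simp only
    ring
  rw [e1, integral_integral_swap hHi, EC_def]
  refine integral_congr_ae (Eventually.of_forall fun z => ?_)
  simp only [hH]
  rw [integral_mul_const]
  rfl

theorem ECP_meas (hf : Measurable f) : Measurable fun w : (ℝ × ℂ) × ℝ =>
    EC (Psi f w.1.1 w.2) (2 * w.1.1) ((2 : ℝ) • w.1.2) := by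
  refine StronglyMeasurable.measurable ?_
  refine StronglyMeasurable.integral_prod_right (f := fun (w : (ℝ × ℂ) × ℝ) (z : ℂ) =>
    Psi f w.1.1 w.2 z * eC (2 * w.1.1) ((2 : ℝ) • w.1.2) z) ?_
  refine Measurable.stronglyMeasurable ?_
  have h1 : Measurable fun p : ((ℝ × ℂ) × ℝ) × ℂ => (p.1.1.1, p.1.2, p.2) := by fun_prop
  have h2 := (Psi_meas hf).comp h1
  have h3 : Continuous fun p : ((ℝ × ℂ) × ℝ) × ℂ => (2 * p.1.1.1, (2 : ℝ) • p.1.1.2, p.2) := by fun_prop
  have h4 := (eC_cont.comp h3).measurable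
  simp only [Function.comp_def] at h2 h4
  exact h2.mul h4

/-- **Stein-Tomas** -/
theorem four (h : BB M 1 f) : ∫⁻ t, ∫⁻ ξ, ‖EC f t ξ‖ₑ ^ 4 ≤
    ENNReal.ofReal (4 * Real.pi ^ 4) * (∫⁻ x, ‖f x‖ₑ ^ 2) ^ 2 := by
  have hpi := Real.pi_pos
  have hm := ECP_meas h.meas
  set L : ℝ → ℂ → ℝ → ℝ≥0∞ := fun t ξ α => ‖EC (Psi f t α) (2 * t) ((2 : ℝ) • ξ)‖ₑ ^ 2 with hL
  have hLm : Measurable fun w : (ℝ × ℂ) × ℝ => L w.1.1 w.1.2 w.2 := hm.enorm.pow_const 2
  have h1 : ∀ t ξ, ‖EC f t ξ‖ₑ ^ 4 ≤ ENNReal.ofReal (2 * Real.pi) * ∫⁻ α in CC, L t ξ α := by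
    intro t ξ
    have h2 : ‖EC f t ξ‖ₑ ^ 4 = ‖(EC f t ξ) ^ 2‖ₑ ^ 2 := by
      rw [enorm_pow, ← pow_mul]
    rw [h2, sq_pol h]
    have hg : Measurable fun α => ‖EC (Psi f t α) (2 * t) ((2 : ℝ) • ξ)‖ₑ := by
      have h1 : Measurable fun α : ℝ => ((t, ξ), α) := by fun_prop
      have h2 := (hm.comp h1).enorm
      simp only [Function.comp_def] at h2
      exact h2
    have h3 := jens (volume.restrict CC) (fun _ => 1) _ aemeasurable_const hg.aemeasurable 2
      (by norm_num)
    simp only [one_mul, lintegral_one, Measure.restrict_apply_univ, ENNReal.rpow_two] at h3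
    rw [CC_vol, show (2 : ℝ) - 1 = 1 by norm_num, ENNReal.rpow_one] at h3
    refine le_trans ?_ h3
    exact pow_le_pow_left₀ zero_le (enorm_integral_le_lintegral_enorm _) 2
  have h4 : ∀ t α, ∫⁻ ξ, L t ξ α = ENNReal.ofReal (Real.pi ^ 2) * ∫⁻ z, ‖Psi f t α z‖ₑ ^ 2 := by
    intro t α
    have hB := Psi_BB h t α
    have hmE : Measurable fun ξ : ℂ => ‖EC (Psi f t α) (2 * t) ξ‖ₑ ^ 2 := by
      have h1 : Measurable fun ξ : ℂ => (2 * t, ξ) := by fun_prop
      have := (EC_meas (Psi f t α) hB.meas).comp h1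
      simp only [Function.comp_def] at this
      exact this.enorm.pow_const 2
    have h5 := lint_smul (volume : Measure ℂ) _ hmE 2 (by norm_num)
    rw [hL]
    simp only
    rw [h5, EC_l2 _ hB.meas hB.int (hB.memLp 2), Complex.finrank_real_complex, ← mul_assoc,
      ← ENNReal.ofReal_mul (by positivity)]
    congr 2
    rw [abs_of_pos (by positivity)]
    ring
  have h5 : ∀ α z, ∫⁻ t, ‖Psi f t α z‖ₑ ^ 2 = ENNReal.ofReal (2 * Real.pi) *
      ∫⁻ s in Ioi (0 : ℝ), ENNReal.ofReal s * ‖kap f (s • om α) z‖ₑ ^ 2 := by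
    intro α z
    have hmk : Measurable fun s : ℝ => (Ioi (0 : ℝ)).indicator (fun s => kap f (s • om α) z) s := by
      refine Measurable.indicator ?_ measurableSet_Ioi
      exact (kapo_meas h.meas).comp (by fun_prop : Measurable fun s : ℝ => ((α, z), s))
    have h6 := time_l2 (fun s => (Ioi (0 : ℝ)).indicator (fun s => kap f (s • om α) z) s) hmk (M ^ 2) 2
      (by norm_num) (by
        intro s
        by_cases hs : s ∈ Ioi (0 : ℝ)
        · rw [indicator_of_mem hs]
          exact kap_norm h _ _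
        · rw [indicator_of_notMem hs, norm_zero]
          positivity) (by
        intro s hs
        have hs0 : (0 : ℝ) < s := by linarith
        rw [indicator_of_mem (show s ∈ Ioi (0 : ℝ) from hs0)]
        by_contra hc
        have := (s_le h s α z hs0 hc).2
        linarith)
    have e1 : ∀ t, Psi f t α z = ∫ s in Ioi (0 : ℝ), (s : ℂ) *
        (Ioi (0 : ℝ)).indicator (fun s => kap f (s • om α) z) s *
          cexp (((-(t * s ^ 2 / 2) : ℝ) : ℂ) * I) := by
      intro t
      unfold Psi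
      refine setIntegral_congr_fun measurableSet_Ioi fun s hs => ?_
      try simp only
      rw [indicator_of_mem hs]
    simp_rw [e1]
    rw [h6]
    congr 1
    refine setLIntegral_congr_fun measurableSet_Ioi fun s hs => ?_
    try simp only
    rw [indicator_of_mem hs]
  have hkm : Measurable fun p : ℂ × ℂ => ‖kap f p.1 p.2‖ₑ ^ 2 := (kap_meas h.meas).enorm.pow_const 2
  have h7 : ∫⁻ α in CC, ∫⁻ z, ∫⁻ s in Ioi (0 : ℝ), ENNReal.ofReal s * ‖kap f (s • om α) z‖ₑ ^ 2 =
      (∫⁻ x, ‖f x‖ₑ ^ 2) ^ 2 := by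
    have hm3 : Measurable fun w : (ℝ × ℂ) × ℝ => ENNReal.ofReal w.2 * ‖kap f (w.2 • om w.1.1) w.1.2‖ₑ ^ 2 :=
      (measurable_snd.ennreal_ofReal).mul ((kapo_meas h.meas).enorm.pow_const 2)
    have hm4 : Measurable fun w : ℝ × ℂ => ∫⁻ s in Ioi (0 : ℝ), ENNReal.ofReal s *
        ‖kap f (s • om w.1) w.2‖ₑ ^ 2 := hm3.lintegral_prod_right'
    rw [lintegral_lintegral_swap hm4.aemeasurable]
    have e1 : ∀ z, ∫⁻ α in CC, ∫⁻ s in Ioi (0 : ℝ), ENNReal.ofReal s * ‖kap f (s • om α) z‖ₑ ^ 2 =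
        ∫⁻ v, ‖kap f v z‖ₑ ^ 2 := by
      intro z
      rw [polar_L (fun v => ‖kap f v z‖ₑ ^ 2) (hkm.comp (by fun_prop : Measurable fun v : ℂ => (v, z)))]
    simp_rw [e1]
    rw [lintegral_lintegral_swap (f := fun z v => ‖kap f v z‖ₑ ^ 2)
      (hkm.comp measurable_swap).aemeasurable]
    have hf2 : Measurable fun x => ‖f x‖ₑ ^ 2 := h.meas.enorm.pow_const 2
    have e2 : ∀ v, ∫⁻ z, ‖kap f v z‖ₑ ^ 2 = ∫⁻ z, ‖f z‖ₑ ^ 2 * ‖f (z + v)‖ₑ ^ 2 := by
      intro v
      rw [← lintegral_add_right_eq_self (fun z => ‖kap f v z‖ₑ ^ 2) ((1 / 2 : ℝ) • v)]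
      refine lintegral_congr fun z => ?_
      unfold kap
      have : z + (1 / 2 : ℝ) • v + (1 / 2 : ℝ) • v = z + v := by
        rw [add_assoc, ← add_smul]
        norm_num
      rw [add_sub_cancel_right, this, enorm_mul, mul_pow]
    simp_rw [e2]
    rw [lintegral_lintegral_swap]
    · have e3 : ∀ z, ∫⁻ v, ‖f z‖ₑ ^ 2 * ‖f (z + v)‖ₑ ^ 2 = ‖f z‖ₑ ^ 2 * ∫⁻ x, ‖f x‖ₑ ^ 2 := by
        intro z
        have h9 : Measurable fun v => ‖f (z + v)‖ₑ ^ 2 := hf2.comp (measurable_const_add z)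
        rw [lintegral_const_mul _ h9, lintegral_add_left_eq_self (fun x => ‖f x‖ₑ ^ 2) z]
      simp_rw [e3]
      rw [lintegral_mul_const _ hf2, sq]
    · exact ((hf2.comp measurable_snd).mul (hf2.comp (measurable_snd.add measurable_fst))).aemeasurable
  have hPm2 : Measurable fun w : ℝ × ℝ × ℂ => ‖Psi f w.1 w.2.1 w.2.2‖ₑ ^ 2 :=
    (Psi_meas h.meas).enorm.pow_const 2
  calc ∫⁻ t, ∫⁻ ξ, ‖EC f t ξ‖ₑ ^ 4
      ≤ ∫⁻ t, ∫⁻ ξ, ENNReal.ofReal (2 * Real.pi) * ∫⁻ α in CC, L t ξ α :=
        lintegral_mono fun t => lintegral_mono fun ξ => h1 t ξ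
    _ = ENNReal.ofReal (2 * Real.pi) * ∫⁻ t, ∫⁻ α in CC, ∫⁻ ξ, L t ξ α := by
        rw [← lintegral_const_mul' _ _ ENNReal.ofReal_ne_top]
        refine lintegral_congr fun t => ?_
        rw [lintegral_const_mul' _ _ ENNReal.ofReal_ne_top]
        congr 1
        rw [lintegral_lintegral_swap]
        have h1 : Measurable fun p : ℂ × ℝ => ((t, p.1), p.2) := by fun_prop
        have h2 := hLm.comp h1
        simp only [Function.comp_def] at h2
        exact h2.aemeasurable
    _ = ENNReal.ofReal (2 * Real.pi) * (ENNReal.ofReal (Real.pi ^ 2) *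
          ∫⁻ t, ∫⁻ α in CC, ∫⁻ z, ‖Psi f t α z‖ₑ ^ 2) := by
        simp_rw [h4]
        congr 1
        rw [← lintegral_const_mul' _ _ ENNReal.ofReal_ne_top]
        refine lintegral_congr fun t => ?_
        rw [lintegral_const_mul' _ _ ENNReal.ofReal_ne_top]
    _ = ENNReal.ofReal (2 * Real.pi) * (ENNReal.ofReal (Real.pi ^ 2) *
          ∫⁻ α in CC, ∫⁻ z, ∫⁻ t, ‖Psi f t α z‖ₑ ^ 2) := by
        congr 2
        rw [lintegral_lintegral_swap]
        · refine lintegral_congr fun α => ?_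
          rw [lintegral_lintegral_swap]
          have h1 : Measurable fun p : ℝ × ℂ => (p.1, α, p.2) := by fun_prop
          have h2 := hPm2.comp h1
          simp only [Function.comp_def] at h2
          exact h2.aemeasurable
        · have : Measurable fun p : ℝ × ℝ => ∫⁻ z, ‖Psi f p.1 p.2 z‖ₑ ^ 2 := by
            have h8 : Measurable fun w : (ℝ × ℝ) × ℂ => ‖Psi f w.1.1 w.1.2 w.2‖ₑ ^ 2 := by
              have h1 : Measurable fun w : (ℝ × ℝ) × ℂ => (w.1.1, w.1.2, w.2) := by fun_prop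
              have h2 := hPm2.comp h1
              simp only [Function.comp_def] at h2
              exact h2
            exact h8.lintegral_prod_right'
          exact this.aemeasurable
    _ = ENNReal.ofReal (2 * Real.pi) * (ENNReal.ofReal (Real.pi ^ 2) *
          (ENNReal.ofReal (2 * Real.pi) * (∫⁻ x, ‖f x‖ₑ ^ 2) ^ 2)) := by
        simp_rw [h5]
        congr 2
        rw [← h7, ← lintegral_const_mul' _ _ ENNReal.ofReal_ne_top]
        refine lintegral_congr fun α => ?_
        rw [lintegral_const_mul' _ _ ENNReal.ofReal_ne_top]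
    _ = _ := by
        rw [← mul_assoc, ← mul_assoc, ← ENNReal.ofReal_mul (by positivity),
          ← ENNReal.ofReal_mul (by positivity)]
        congr 2
        ring

end Run7.h485.RR
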