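import Mathlib
import Pool.Agent.Run7.h485.RR.Four2
set_option autoImplicit false

/-! # The local `L²` estimate -/

namespace Run7.h485.RR

open MeasureTheory Set Complex Filter Topology
open scoped ENNReal NNReal RealInnerProductSpace ComplexConjugate
open Pool.Agent.W771 Run7.h783.RV

variable {M : ℝ} {f : ℂ → ℂ}

/-- rotations -/
theorem rot_mp (c : ℂ) (hc : ‖c‖ = 1) : MeasurePreserving (fun x : ℂ => c * x) := by
  have hc' : c ∈ Submonoid.unitSphere ℂ := by
    rw [Submonoid.unitSphere, ← SetLike.mem_coe]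
    simp [hc]
  set d : Circle := ⟨c, hc'⟩ with hd
  have hmp : MeasurePreserving (rotation d) (volume : Measure ℂ) volume :=
    (rotation d).measurePreserving
  exact hmp

theorem rot_emb (c : ℂ) (hc : ‖c‖ = 1) : MeasurableEmbedding (fun x : ℂ => c * x) := by
  have hc' : c ∈ Submonoid.unitSphere ℂ := by
    rw [Submonoid.unitSphere, ← SetLike.mem_coe]
    simp [hc]
  set d : Circle := ⟨c, hc'⟩ with hd
  exact (rotation d).toHomeomorph.measurableEmbedding

theorem rot_L (c : ℂ) (hc : ‖c‖ = 1) (F : ℂ → ℝ≥0∞) : ∫⁻ x, F (c * x) = ∫⁻ x, F x :=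
  (rot_mp c hc).lintegral_comp_emb (rot_emb c hc) F

theorem rot_C (c : ℂ) (hc : ‖c‖ = 1) (F : ℂ → ℂ) : ∫ x, F (c * x) = ∫ x, F x :=
  (rot_mp c hc).integral_comp (rot_emb c hc) F

theorem inner_rot (c : ℂ) (hc : ‖c‖ = 1) (x y : ℂ) : ⟪c * x, c * y⟫ = ⟪x, y⟫ := by
  have hn : c.re * c.re + c.im * c.im = 1 := by
    have := Complex.normSq_eq_norm_sq c
    rw [hc, Complex.normSq_apply] at this
    linarith
  rw [Complex.inner, Complex.inner]
  simp only [map_mul, Complex.mul_re, Complex.mul_im, Complex.conj_re, Complex.conj_im]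
  linear_combination (x.re * y.re + x.im * y.im) * hn

theorem EC_rot (f : ℂ → ℂ) (c : ℂ) (hc : ‖c‖ = 1) (t : ℝ) (ξ : ℂ) :
    EC f t (c * ξ) = EC (fun z => f (c * z)) t ξ := by
  rw [EC_def, EC_def, ← rot_C c hc]
  refine integral_congr_ae (Eventually.of_forall fun z => ?_)
  simp only
  unfold eC
  rw [inner_rot c hc, norm_mul, hc, one_mul]

/-- Plancherel in time for functions of one variable -/
theorem GG_time2 (g : ℝ → ℂ) (hg : Measurable g) (M : ℝ) (hM : ∀ r, ‖g r‖ ≤ M)
    (hs : ∀ r, r ∉ Icc (1 / 4 : ℝ) 1 → g r = 0) (y : ℝ) :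
    ∫⁻ t, ‖GG g y t‖ₑ ^ 2 ≤ ENNReal.ofReal (4 * Real.pi) * ∫⁻ r, ‖g r‖ₑ ^ 2 := by
  have hpi := Real.pi_pos
  have hM0 : 0 ≤ M := (norm_nonneg _).trans (hM 0)
  set k : ℝ → ℂ := fun s => g s * cexp (((-(s * y) : ℝ) : ℂ) * I) / (s : ℂ) with hk
  have hkm : Measurable k := by
    refine Measurable.div (hg.mul ?_) Complex.measurable_ofReal
    exact Continuous.measurable (by fun_prop)
  have hkn : ∀ s, ‖k s‖ = ‖g s‖ / |s| := by
    intro s
    rw [hk]
    try simp only
    rw [norm_div, norm_mul, Complex.norm_exp_ofReal_mul_I, mul_one, Complex.norm_real,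
      Real.norm_eq_abs]
  have hkb : ∀ s, ‖k s‖ ≤ 4 * M := by
    intro s
    rw [hkn]
    by_cases h : s ∈ Icc (1 / 4 : ℝ) 1
    · rw [abs_of_pos (by linarith [h.1]), div_le_iff₀ (by linarith [h.1])]
      nlinarith [hM s, h.1, norm_nonneg (g s)]
    · rw [hs s h, norm_zero, zero_div]
      positivity
  have hks : ∀ s, 1 < s → k s = 0 := by
    intro s h
    rw [hk]
    try simp only
    rw [hs s (fun hc => by linarith [hc.2])]
    simp
  have h1 := time_l2 k hkm (4 * M) 1 zero_le_one hkb hks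
  have e1 : ∀ t, GG g y t = ∫ s in Ioi (0 : ℝ), (s : ℂ) * k s *
      cexp (((-((2 * t) * s ^ 2 / 2) : ℝ) : ℂ) * I) := by
    intro t
    unfold GG
    refine setIntegral_congr_fun measurableSet_Ioi fun s hs => ?_
    have hs0 : (0 : ℝ) < s := hs
    have hsc : (s : ℂ) ≠ 0 := by exact_mod_cast hs0.ne'
    rw [hk]
    try simp only
    rw [mul_div_cancel₀ _ hsc, mul_assoc, ← Complex.exp_add]
    congr 2
    push_cast
    ring
  set N : ℝ → ℝ≥0∞ := fun t => ‖∫ s in Ioi (0 : ℝ), (s : ℂ) * k s *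
      cexp (((-(t * s ^ 2 / 2) : ℝ) : ℂ) * I)‖ₑ ^ 2 with hN
  have hNm : Measurable N := by
    rw [hN]
    refine Measurable.pow_const (Measurable.enorm ?_) 2
    refine StronglyMeasurable.measurable ?_
    refine StronglyMeasurable.integral_prod_right (f := fun (t : ℝ) (s : ℝ) => (s : ℂ) * k s *
      cexp (((-(t * s ^ 2 / 2) : ℝ) : ℂ) * I)) ?_
    refine Measurable.stronglyMeasurable ?_
    refine Measurable.mul (Measurable.mul (Complex.measurable_ofReal.comp measurable_snd)
      (hkm.comp measurable_snd)) (Continuous.measurable (by fun_prop))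
  have h2 := lint_smul (volume : Measure ℝ) N hNm 2 (by norm_num)
  simp only [smul_eq_mul, Module.finrank_self, pow_one] at h2
  have e2 : ∫⁻ t, ‖GG g y t‖ₑ ^ 2 = ∫⁻ t, N (2 * t) := by
    refine lintegral_congr fun t => ?_
    rw [e1, hN]
  rw [e2, h2, hN, h1, ← mul_assoc, ← ENNReal.ofReal_mul (by positivity)]
  have e3 : |(2 : ℝ)⁻¹| * (2 * Real.pi) = Real.pi := by
    rw [abs_of_pos (by norm_num)]
    ring
  rw [e3]
  have h3 : ∫⁻ s in Ioi (0 : ℝ), ENNReal.ofReal s * ‖k s‖ₑ ^ 2 ≤ 4 * ∫⁻ r, ‖g r‖ₑ ^ 2 := by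
    rw [← lintegral_const_mul' _ _ (by norm_num)]
    refine (setLIntegral_mono' measurableSet_Ioi fun s hs0 => ?_).trans
      (setLIntegral_le_lintegral (Ioi (0 : ℝ)) fun r => 4 * ‖g r‖ₑ ^ 2)
    have hs1 : (0 : ℝ) < s := hs0
    by_cases h : s ∈ Icc (1 / 4 : ℝ) 1
    · rw [← ofReal_norm, ← ofReal_norm, hkn, abs_of_pos hs1, ← ENNReal.ofReal_pow (by positivity),
        ← ENNReal.ofReal_pow (norm_nonneg _), ← ENNReal.ofReal_mul hs1.le,
        show (4 : ℝ≥0∞) = ENNReal.ofReal 4 by norm_num, ← ENNReal.ofReal_mul (by norm_num)]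
      refine ENNReal.ofReal_le_ofReal ?_
      have : s * (‖g s‖ / s) ^ 2 = ‖g s‖ ^ 2 / s := by
        field_simp
      rw [this, div_le_iff₀ hs1]
      nlinarith [h.1, sq_nonneg ‖g s‖]
    · have : k s = 0 := by
        rw [← norm_eq_zero, hkn, hs s h, norm_zero, zero_div]
      rw [this]
      simp
  calc ENNReal.ofReal Real.pi * ∫⁻ s in Ioi (0 : ℝ), ENNReal.ofReal s * ‖k s‖ₑ ^ 2
      ≤ ENNReal.ofReal Real.pi * (4 * ∫⁻ r, ‖g r‖ₑ ^ 2) := by gcongr
    _ = _ := by
      rw [← mul_assoc, show (4 : ℝ≥0∞) = ENNReal.ofReal 4 by norm_num,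
        ← ENNReal.ofReal_mul (by positivity)]
      congr 2
      ring

theorem re_im_int (F : ℂ → ℂ) (hF : Integrable F) : ∫ x, F x = ∫ v : ℝ, ∫ u : ℝ, F (u + v * I) := by
  have h1 := Complex.volume_preserving_equiv_real_prod.symm.integral_comp
    Complex.measurableEquivRealProd.symm.measurableEmbedding F
  have h2 : Integrable (fun p : ℝ × ℝ => F (Complex.measurableEquivRealProd.symm p))
      (volume.prod volume) :=
    (Complex.volume_preserving_equiv_real_prod.symm.integrable_comp_emb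
      Complex.measurableEquivRealProd.symm.measurableEmbedding).2 hF
  rw [← h1, Measure.volume_eq_prod, integral_prod_symm _ h2]
  refine integral_congr_ae (Eventually.of_forall fun v => ?_)
  refine integral_congr_ae (Eventually.of_forall fun u => ?_)
  simp only
  congr 1
  apply Complex.ext <;> simp [Complex.measurableEquivRealProd]

theorem re_im_L (F : ℂ → ℝ≥0∞) (hF : Measurable F) :
    ∫⁻ x, F x = ∫⁻ u : ℝ, ∫⁻ v : ℝ, F (u + v * I) := by
  have h1 := Complex.volume_preserving_equiv_real_prod.symm.lintegral_comp_emb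
    Complex.measurableEquivRealProd.symm.measurableEmbedding F
  rw [← h1, Measure.volume_eq_prod, lintegral_prod]
  · refine lintegral_congr fun u => lintegral_congr fun v => ?_
    congr 1
    apply Complex.ext <;> simp [Complex.measurableEquivRealProd]
  · exact (hF.comp Complex.measurableEquivRealProd.symm.measurable).aemeasurable

/-- the slab estimate -/
theorem slab1 (h : BB M 1 f) (hs : ∀ x : ℂ, x.re < 1 / 4 → f x = 0) (y : ℝ) :
    ∫⁻ t, ∫⁻ η : ℝ, ‖EC f t (y + η * I)‖ₑ ^ 2 ≤ ENNReal.ofReal (8 * Real.pi ^ 2) * ∫⁻ x, ‖f x‖ₑ ^ 2 := by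
  have hpi := Real.pi_pos
  have hM0 : 0 ≤ M := (norm_nonneg _).trans (h.bd 0)
  have hf2 : Measurable fun p : ℝ × ℝ => f (p.2 + p.1 * I) := by
    refine h.meas.comp ?_
    fun_prop
  have hz : ∀ u v : ℝ, u ∉ Icc (1 / 4 : ℝ) 1 → f (u + v * I) = 0 := by
    intro u v hu
    by_cases h1 : u < 1 / 4
    · apply hs
      simpa using h1
    · apply h.supp
      have h2 : 1 < u := by
        by_contra hc
        exact hu ⟨not_lt.1 h1, not_lt.1 hc⟩
      have h3 := Complex.abs_re_le_norm (u + v * I)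
      simp at h3
      have := le_abs_self u
      linarith
  have hv : ∀ v : ℝ, v ∉ Icc (-1 : ℝ) 1 → ∀ u : ℝ, f (u + v * I) = 0 := by
    intro v hv u
    apply h.supp
    have h3 := Complex.abs_im_le_norm (u + v * I)
    simp at h3
    refine lt_of_lt_of_le ?_ h3
    by_contra hc
    rw [not_lt, abs_le] at hc
    exact hv hc
  set G : ℝ → ℝ → ℝ → ℂ := fun y t v => GG (fun u => f (u + v * I)) y t with hG
  have hGm : Measurable fun w : ℝ × ℝ => G y w.1 w.2 := by
    rw [hG]
    unfold GG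
    refine StronglyMeasurable.measurable ?_
    refine StronglyMeasurable.integral_prod_right (f := fun (w : ℝ × ℝ) (r : ℝ) =>
      f (r + w.2 * I) * cexp (((-(r * y + w.1 * r ^ 2) : ℝ) : ℂ) * I)) ?_
    refine Measurable.stronglyMeasurable ?_
    refine Measurable.mul ?_ (Continuous.measurable (by fun_prop))
    exact h.meas.comp (by fun_prop)
  have hGb : ∀ t v, ‖G y t v‖ ≤ (Icc (-1 : ℝ) 1).indicator (fun _ => M) v := by
    intro t v
    by_cases h1 : v ∈ Icc (-1 : ℝ) 1
    · rw [indicator_of_mem h1, hG]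
      try simp only
      unfold GG
      have h2 : Integrable ((Icc (1 / 4 : ℝ) 1).indicator fun _ => M) (volume.restrict (Ioi (0 : ℝ))) := by
        refine Integrable.mono_measure ?_ Measure.restrict_le_self
        rw [integrable_indicator_iff measurableSet_Icc]
        exact integrableOn_const (by rw [Real.volume_Icc]; exact ENNReal.ofReal_ne_top)
      refine (norm_integral_le_of_norm_le h2 (Eventually.of_forall fun u => ?_)).trans ?_
      · rw [norm_mul, Complex.norm_exp_ofReal_mul_I, mul_one]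
        by_cases hu : u ∈ Icc (1 / 4 : ℝ) 1
        · rw [indicator_of_mem hu]
          exact h.bd _
        · rw [indicator_of_notMem hu]
          have h7 := hz u v hu
          simp only [h7, norm_zero, le_refl]
      · have h4 : Icc (1 / 4 : ℝ) 1 ⊆ Ioi 0 := fun x hx => lt_of_lt_of_le (by norm_num) hx.1
        rw [setIntegral_indicator measurableSet_Icc, setIntegral_const, inter_eq_right.2 h4,
          Measure.real, Real.volume_Icc, smul_eq_mul, ENNReal.toReal_ofReal (by norm_num)]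
        nlinarith
    · rw [indicator_of_notMem h1, hG]
      try simp only
      unfold GG
      have : ∀ r : ℝ, f (r + v * I) * cexp (((-(r * y + t * r ^ 2) : ℝ) : ℂ) * I) = 0 := by
        intro r
        rw [hv v h1 r, zero_mul]
      simp_rw [this]
      rw [integral_zero, norm_zero]
  have h1 : ∀ t, ∫⁻ η : ℝ, ‖EC f t (y + η * I)‖ₑ ^ 2 = ENNReal.ofReal (2 * Real.pi) *
      ∫⁻ v, ‖G y t v‖ₑ ^ 2 := by
    intro t
    set k : ℝ → ℂ := fun v => G y t v * cexp (((-(t * v ^ 2) : ℝ) : ℂ) * I) with hk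
    have hkm : Measurable k := by
      refine Measurable.mul ?_ (Continuous.measurable (by fun_prop))
      have h5 : Measurable fun v : ℝ => (t, v) := by fun_prop
      have h6 := hGm.comp h5
      simp only [Function.comp_def] at h6
      exact h6
    have hkn : ∀ v, ‖k v‖ = ‖G y t v‖ := by
      intro v
      rw [hk]
      try simp only
      rw [norm_mul, Complex.norm_exp_ofReal_mul_I, mul_one]
    have hmem : ∀ p : ℝ≥0∞, MemLp k p := by
      intro p
      have h1 : MemLp ((Icc (-1 : ℝ) 1).indicator fun _ : ℝ => M) p := by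
        refine memLp_indicator_const p measurableSet_Icc M (Or.inr ?_)
        rw [Real.volume_Icc]
        exact ENNReal.ofReal_ne_top
      refine h1.of_le hkm.aestronglyMeasurable (Eventually.of_forall fun s => ?_)
      rw [hkn]
      exact (hGb t s).trans (le_abs_self _)
    have e1 : ∀ η : ℝ, EC f t (y + η * I) = ∫ v : ℝ, k v * cexp (-(I * (v * η : ℝ))) := by
      intro η
      have hi : Integrable fun x => f x * eC t (y + η * I) x := by
        have hec : Continuous fun x => eC t (y + η * I) x :=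
          eC_cont.comp (by fun_prop : Continuous fun x : ℂ => (t, (y + η * I : ℂ), x))
        refine h.int.norm.mono' (h.meas.mul hec.measurable).aestronglyMeasurable
          (Eventually.of_forall fun x => ?_)
        rw [norm_mul, eC_norm, mul_one]
      rw [EC_def, re_im_int _ hi]
      refine integral_congr_ae (Eventually.of_forall fun v => ?_)
      simp only [hk, hG]
      unfold GG
      rw [← integral_mul_const, ← integral_mul_const, ← integral_indicator measurableSet_Ioi]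
      refine integral_congr_ae (Eventually.of_forall fun u => ?_)
      try simp only
      by_cases hu : u ∈ Ioi (0 : ℝ)
      · rw [indicator_of_mem hu]
        unfold eC
        rw [mul_assoc, mul_assoc, ← Complex.exp_add, ← Complex.exp_add]
        congr 2
        have e5 : ‖(u : ℂ) + v * I‖ ^ 2 = u ^ 2 + v ^ 2 := by
          rw [← Complex.normSq_eq_norm_sq, Complex.normSq_apply]
          simp
          ring
        have e6 : ⟪(y : ℂ) + η * I, (u : ℂ) + v * I⟫ = y * u + η * v := by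
          rw [Complex.inner]
          simp
          ring
        rw [e5, e6]
        push_cast
        ring
      · rw [indicator_of_notMem hu, hz u v, zero_mul]
        intro hc
        exact hu (lt_of_lt_of_le (by norm_num) hc.1)
    simp_rw [e1]
    rw [planch1 k (memLp_one_iff_integrable.1 (hmem 1)) (hmem 2)]
    congr 1
    refine lintegral_congr fun v => ?_
    rw [← ofReal_norm, hkn, ofReal_norm]
  simp_rw [h1]
  rw [lintegral_const_mul' _ _ ENNReal.ofReal_ne_top]
  rw [lintegral_lintegral_swap (hGm.enorm.pow_const 2).aemeasurable]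
  have h2 : ∀ v, ∫⁻ t, ‖G y t v‖ₑ ^ 2 ≤ ENNReal.ofReal (4 * Real.pi) * ∫⁻ u : ℝ, ‖f (u + v * I)‖ₑ ^ 2 := by
    intro v
    exact GG_time2 (fun u => f (u + v * I)) (h.meas.comp (by fun_prop)) M (fun r => h.bd _)
      (fun r hr => hz r v hr) y
  calc ENNReal.ofReal (2 * Real.pi) * ∫⁻ v, ∫⁻ t, ‖G y t v‖ₑ ^ 2
      ≤ ENNReal.ofReal (2 * Real.pi) * ∫⁻ v : ℝ, ENNReal.ofReal (4 * Real.pi) * ∫⁻ u : ℝ, ‖f (u + v * I)‖ₑ ^ 2 := by
        gcongr with v
        exact h2 v
    _ = ENNReal.ofReal (2 * Real.pi) * (ENNReal.ofReal (4 * Real.pi) * ∫⁻ x, ‖f x‖ₑ ^ 2) := by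
        rw [lintegral_const_mul' _ _ ENNReal.ofReal_ne_top, re_im_L _ (h.meas.enorm.pow_const 2),
          lintegral_lintegral_swap]
        exact (hf2.enorm.pow_const 2).aemeasurable
    _ = _ := by
        rw [← mul_assoc, ← ENNReal.ofReal_mul (by positivity)]
        congr 2
        ring

theorem slab2 (h : BB M 1 f) (hs : ∀ x : ℂ, x.re < 1 / 4 → f x = 0) (P : ℝ) :
    ∫⁻ t, ∫⁻ ξ in Metric.closedBall (0 : ℂ) P, ‖EC f t ξ‖ₑ ^ 2 ≤
      ENNReal.ofReal (16 * Real.pi ^ 2 * P) * ∫⁻ x, ‖f x‖ₑ ^ 2 := by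
  have hpi := Real.pi_pos
  have hm := EC_meas f h.meas
  have hm1 : ∀ t, Measurable fun ξ : ℂ => ‖EC f t ξ‖ₑ ^ 2 := by
    intro t
    have h5 : Measurable fun ξ : ℂ => (t, ξ) := by fun_prop
    have h6 := hm.comp h5
    simp only [Function.comp_def] at h6
    exact h6.enorm.pow_const 2
  have hm2 : Measurable fun w : (ℝ × ℝ) × ℝ => ‖EC f w.1.1 (w.1.2 + w.2 * I)‖ₑ ^ 2 := by
    have h5 : Measurable fun w : (ℝ × ℝ) × ℝ => (w.1.1, (w.1.2 + w.2 * I : ℂ)) := by fun_prop
    have h6 := hm.comp h5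
    simp only [Function.comp_def] at h6
    exact h6.enorm.pow_const 2
  have hm3 : Measurable fun w : ℝ × ℝ => ∫⁻ η : ℝ, ‖EC f w.1 (w.2 + η * I)‖ₑ ^ 2 :=
    hm2.lintegral_prod_right'
  calc ∫⁻ t, ∫⁻ ξ in Metric.closedBall (0 : ℂ) P, ‖EC f t ξ‖ₑ ^ 2
      ≤ ∫⁻ t, ∫⁻ y in Icc (-P) P, ∫⁻ η : ℝ, ‖EC f t (y + η * I)‖ₑ ^ 2 := by
        refine lintegral_mono fun t => ?_
        rw [← lintegral_indicator Metric.isClosed_closedBall.measurableSet,
          re_im_L _ ((hm1 t).indicator Metric.isClosed_closedBall.measurableSet),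
          ← lintegral_indicator measurableSet_Icc]
        refine lintegral_mono fun y => ?_
        by_cases hy : y ∈ Icc (-P) P
        · rw [indicator_of_mem hy]
          exact lintegral_mono fun η => indicator_le_self _ _ _
        · rw [indicator_of_notMem hy]
          refine le_of_eq ?_
          rw [← lintegral_zero (μ := (volume : Measure ℝ))]
          refine lintegral_congr fun η => ?_
          rw [indicator_of_notMem]
          intro hc
          apply hy
          have h1 := Complex.abs_re_le_norm (y + η * I)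
          simp only [Metric.mem_closedBall, dist_zero_right] at hc
          simp at h1
          exact abs_le.1 (h1.trans hc)
    _ = ∫⁻ y in Icc (-P) P, ∫⁻ t, ∫⁻ η : ℝ, ‖EC f t (y + η * I)‖ₑ ^ 2 := by
        rw [lintegral_lintegral_swap hm3.aemeasurable]
    _ ≤ ∫⁻ _ in Icc (-P) P, ENNReal.ofReal (8 * Real.pi ^ 2) * ∫⁻ x, ‖f x‖ₑ ^ 2 :=
        lintegral_mono fun y => slab1 h hs y
    _ = (ENNReal.ofReal (8 * Real.pi ^ 2) * ∫⁻ x, ‖f x‖ₑ ^ 2) * ENNReal.ofReal (P - (-P)) := by
        rw [setLIntegral_const, Real.volume_Icc]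
    _ = _ := by
        rw [mul_right_comm, ← ENNReal.ofReal_mul (by positivity)]
        congr 2
        ring

/-- the rotations by multiples of a right angle -/
noncomputable def ck (k : ℕ) : ℂ := (-I) ^ k

theorem ck_norm (k : ℕ) : ‖ck k‖ = 1 := by
  unfold ck
  rw [norm_pow, norm_neg, Complex.norm_I, one_pow]

/-- the sectors -/
def SS (k : ℕ) : Set ℂ := {x | 1 / 4 ≤ (ck k * x).re ∧ ∀ j < k, (ck j * x).re < 1 / 4}

theorem SS_meas (k : ℕ) : MeasurableSet (SS k) := by
  have h1 : SS k = {x | 1 / 4 ≤ (ck k * x).re} ∩ ⋂ j ∈ Finset.range k, {x | (ck j * x).re < 1 / 4} := by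
    ext x
    simp only [SS, mem_setOf_eq, mem_inter_iff, mem_iInter, Finset.mem_range]
  rw [h1]
  have hc : ∀ j, Continuous fun x : ℂ => (ck j * x).re := fun j => by fun_prop
  refine MeasurableSet.inter (measurableSet_le measurable_const (hc k).measurable) ?_
  exact MeasurableSet.biInter (Finset.range k).countable_toSet fun j _ =>
    measurableSet_lt (hc j).measurable measurable_const

theorem SS_ex (x : ℂ) (hx : 1 / 2 ≤ ‖x‖) : ∃ k < 4, x ∈ SS k := by
  classical
  have hex : ∃ k, k < 4 ∧ 1 / 4 ≤ (ck k * x).re := by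
    by_contra hc
    push Not at hc
    have h0 := hc 0 (by norm_num)
    have h1 := hc 1 (by norm_num)
    have h2 := hc 2 (by norm_num)
    have h3 := hc 3 (by norm_num)
    unfold ck at h0 h1 h2 h3
    rw [show (-I : ℂ) ^ 2 = -1 by rw [neg_sq, Complex.I_sq]] at h2
    rw [show (-I : ℂ) ^ 3 = I by rw [pow_succ, neg_sq, Complex.I_sq]; ring] at h3
    simp at h0 h1 h2 h3
    have h4 : ‖x‖ ^ 2 = x.re ^ 2 + x.im ^ 2 := by
      rw [← Complex.normSq_eq_norm_sq, Complex.normSq_apply]; ring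
    nlinarith
  obtain ⟨h1, h2⟩ := Nat.find_spec hex
  refine ⟨Nat.find hex, h1, h2, ?_⟩
  intro j hj
  have h3 := Nat.find_min hex hj
  by_contra hc
  exact h3 ⟨hj.trans h1, not_lt.1 hc⟩

theorem SS_uniq (x : ℂ) (j k : ℕ) (hj : x ∈ SS j) (hk : x ∈ SS k) : j = k := by
  rcases lt_trichotomy j k with h | h | h
  · exact absurd hj.1 (not_le.2 (hk.2 j h))
  · exact h
  · exact absurd hk.1 (not_le.2 (hj.2 k h))

theorem SS_sum (hs : ∀ x : ℂ, ‖x‖ < 1 / 2 → f x = 0) (x : ℂ) :
    f x = ∑ k ∈ Finset.range 4, (SS k).indicator f x := by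
  by_cases hx : ‖x‖ < 1 / 2
  · rw [hs x hx]
    symm
    refine Finset.sum_eq_zero fun k _ => ?_
    by_cases h1 : x ∈ SS k
    · rw [indicator_of_mem h1, hs x hx]
    · rw [indicator_of_notMem h1]
  · obtain ⟨k, hk, hxk⟩ := SS_ex x (not_lt.1 hx)
    rw [Finset.sum_eq_single k]
    · rw [indicator_of_mem hxk]
    · intro j _ hj
      rw [indicator_of_notMem]
      intro hc
      exact hj (SS_uniq x j k hc hxk)
    · intro hc
      exact absurd (Finset.mem_range.2 hk) hc

theorem BB.ind (h : BB M 1 f) (S : Set ℂ) (hS : MeasurableSet S) : BB M 1 (S.indicator f) := by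
  refine ⟨h.meas.indicator hS, ?_, ?_⟩
  · intro x
    by_cases hx : x ∈ S
    · rw [indicator_of_mem hx]
      exact h.bd x
    · rw [indicator_of_notMem hx, norm_zero]
      exact (norm_nonneg _).trans (h.bd 0)
  · intro x hx
    by_cases hx' : x ∈ S
    · rw [indicator_of_mem hx', h.supp x hx]
    · rw [indicator_of_notMem hx']

theorem BB.rot (h : BB M 1 f) (c : ℂ) (hc : ‖c‖ = 1) : BB M 1 (fun z => f (c * z)) := by
  refine ⟨h.meas.comp (rot_mp c hc).measurable, fun x => h.bd _, ?_⟩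
  intro x hx
  apply h.supp
  rw [norm_mul, hc, one_mul]
  exact hx

theorem ball_rot (c : ℂ) (hc : ‖c‖ = 1) (P : ℝ) (F : ℂ → ℝ≥0∞) :
    ∫⁻ ξ in Metric.closedBall (0 : ℂ) P, F ξ = ∫⁻ ξ in Metric.closedBall (0 : ℂ) P, F (c * ξ) := by
  rw [← lintegral_indicator Metric.isClosed_closedBall.measurableSet,
    ← lintegral_indicator Metric.isClosed_closedBall.measurableSet, ← rot_L c hc]
  refine lintegral_congr fun ξ => ?_
  by_cases hx : ξ ∈ Metric.closedBall (0 : ℂ) P
  · rw [indicator_of_mem hx, indicator_of_mem]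
    simp only [Metric.mem_closedBall, dist_zero_right, norm_mul, hc, one_mul] at hx ⊢
    exact hx
  · rw [indicator_of_notMem hx, indicator_of_notMem]
    simp only [Metric.mem_closedBall, dist_zero_right, norm_mul, hc, one_mul] at hx ⊢
    exact hx

/-- **local `L²` estimate** -/
theorem slab (h : BB M 1 f) (hs : ∀ x : ℂ, ‖x‖ < 1 / 2 → f x = 0) (P : ℝ) :
    ∫⁻ t, ∫⁻ ξ in Metric.closedBall (0 : ℂ) P, ‖EC f t ξ‖ₑ ^ 2 ≤
      ENNReal.ofReal (256 * Real.pi ^ 2 * P) * ∫⁻ x, ‖f x‖ₑ ^ 2 := by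
  have hpi := Real.pi_pos
  set g : ℕ → ℂ → ℂ := fun k => (SS k).indicator f with hg
  have hgB : ∀ k, BB M 1 (g k) := fun k => h.ind _ (SS_meas k)
  have h1 : ∀ t ξ, EC f t ξ = ∑ k ∈ Finset.range 4, EC (g k) t ξ := by
    intro t ξ
    simp only [EC_def]
    have hec : Continuous fun x => eC t ξ x := eC_cont.comp (by fun_prop : Continuous fun x : ℂ => (t, ξ, x))
    rw [← integral_finset_sum]
    · refine integral_congr_ae (Eventually.of_forall fun x => ?_)
      simp only
      rw [SS_sum hs x, Finset.sum_mul]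
    · intro k _
      refine (hgB k).int.norm.mono' ((hgB k).meas.mul hec.measurable).aestronglyMeasurable
          (Eventually.of_forall fun x => ?_)
      rw [norm_mul, eC_norm, mul_one]
  have h2 : ∀ t ξ, ‖EC f t ξ‖ₑ ^ 2 ≤ 4 * ∑ k ∈ Finset.range 4, ‖EC (g k) t ξ‖ₑ ^ 2 := by
    intro t ξ
    rw [h1]
    have h3 := ENNReal.rpow_sum_le_const_mul_sum_rpow (Finset.range 4) (fun k => ‖EC (g k) t ξ‖ₑ)
      (by norm_num : (1 : ℝ) ≤ 2)
    simp only [Finset.card_range, ENNReal.rpow_two] at h3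
    rw [show (2 : ℝ) - 1 = 1 by norm_num, ENNReal.rpow_one] at h3
    refine le_trans ?_ h3
    exact pow_le_pow_left₀ zero_le (enorm_sum_le _ _) 2
  have hm : ∀ k, Measurable fun w : ℝ × ℂ => ‖EC (g k) w.1 w.2‖ₑ ^ 2 := fun k =>
    (EC_meas (g k) (hgB k).meas).enorm.pow_const 2
  have hm1 : ∀ k t, Measurable fun ξ : ℂ => ‖EC (g k) t ξ‖ₑ ^ 2 := by
    intro k t
    have h5 : Measurable fun ξ : ℂ => (t, ξ) := by fun_prop
    have h6 := (hm k).comp h5
    simp only [Function.comp_def] at h6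
    exact h6
  have h3 : ∀ k, ∫⁻ t, ∫⁻ ξ in Metric.closedBall (0 : ℂ) P, ‖EC (g k) t ξ‖ₑ ^ 2 ≤
      ENNReal.ofReal (16 * Real.pi ^ 2 * P) * ∫⁻ x, ‖f x‖ₑ ^ 2 := by
    intro k
    have hc : ‖(starRingEnd ℂ) (ck k)‖ = 1 := by
      rw [RCLike.norm_conj, ck_norm]
    have hcc : ck k * (starRingEnd ℂ) (ck k) = 1 := by
      rw [Complex.mul_conj, Complex.normSq_eq_norm_sq, ck_norm]
      norm_num
    have h4 := slab2 ((hgB k).rot _ hc) (by
      intro x hx
      try simp only
      rw [hg]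
      try simp only
      rw [indicator_of_notMem]
      intro hc2
      have := hc2.1
      rw [← mul_assoc, hcc, one_mul] at this
      linarith) P
    rw [rot_L _ hc (fun x => ‖g k x‖ₑ ^ 2)] at h4
    calc ∫⁻ t, ∫⁻ ξ in Metric.closedBall (0 : ℂ) P, ‖EC (g k) t ξ‖ₑ ^ 2
        = ∫⁻ t, ∫⁻ ξ in Metric.closedBall (0 : ℂ) P,
            ‖EC (fun z => g k ((starRingEnd ℂ) (ck k) * z)) t ξ‖ₑ ^ 2 := by
          refine lintegral_congr fun t => ?_
          rw [ball_rot _ hc]
          simp_rw [EC_rot (g k) _ hc]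
      _ ≤ _ := h4
      _ ≤ _ := by
          gcongr with x
          rw [hg]
          by_cases hx : x ∈ SS k
          · simp only [indicator_of_mem hx, le_refl]
          · simp only [indicator_of_notMem hx]
            simp
  calc ∫⁻ t, ∫⁻ ξ in Metric.closedBall (0 : ℂ) P, ‖EC f t ξ‖ₑ ^ 2
      ≤ ∫⁻ t, ∫⁻ ξ in Metric.closedBall (0 : ℂ) P, 4 * ∑ k ∈ Finset.range 4, ‖EC (g k) t ξ‖ₑ ^ 2 :=
        lintegral_mono fun t => lintegral_mono fun ξ => h2 t ξ
    _ = 4 * ∑ k ∈ Finset.range 4, ∫⁻ t, ∫⁻ ξ in Metric.closedBall (0 : ℂ) P, ‖EC (g k) t ξ‖ₑ ^ 2 := by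
        rw [← lintegral_finsetSum _ (fun k _ => (hm k).lintegral_prod_right'),
          ← lintegral_const_mul' _ _ (by norm_num)]
        refine lintegral_congr fun t => ?_
        rw [lintegral_const_mul' _ _ (by norm_num), lintegral_finsetSum _ (fun k _ => hm1 k t)]
    _ ≤ 4 * ∑ k ∈ Finset.range 4, ENNReal.ofReal (16 * Real.pi ^ 2 * P) * ∫⁻ x, ‖f x‖ₑ ^ 2 := by
        gcongr with k _
        exact h3 k
    _ = _ := by
        rw [Finset.sum_const, Finset.card_range, nsmul_eq_mul, ← mul_assoc, ← mul_assoc]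
        congr 1
        rw [show (4 : ℝ≥0∞) = ENNReal.ofReal 4 by norm_num]
        push_cast
        rw [show (4 : ℝ≥0∞) = ENNReal.ofReal 4 by norm_num, ← ENNReal.ofReal_mul (by norm_num),
          ← ENNReal.ofReal_mul (by norm_num)]
        congr 1
        ring

end Run7.h485.RR
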