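import Mathlib
import Pool.Agent.Run7.h485.RR.Slab
set_option autoImplicit false

/-! # Averages over arcs: integration by parts -/

namespace Run7.h485.RR

open MeasureTheory Set Complex Filter Topology
open scoped ENNReal NNReal RealInnerProductSpace ComplexConjugate
open Pool.Agent.W771 Run7.h783.RV

variable {M : ℝ} {f : ℂ → ℂ} {g : ℝ → ℂ}

theorem Nice.int (h : Nice g) : Integrable g := by
  have h1 : MemLp ((Icc (1 / 2 : ℝ) 1).indicator fun _ : ℝ => (1 : ℝ)) 1 := by
    refine memLp_indicator_const 1 measurableSet_Icc (1 : ℝ) (Or.inr ?_)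
    rw [Real.volume_Icc]
    exact ENNReal.ofReal_ne_top
  refine memLp_one_iff_integrable.1 (h1.of_le h.meas.aestronglyMeasurable (Eventually.of_forall fun r => ?_))
  by_cases hr : r ∈ Icc (1 / 2 : ℝ) 1
  · rw [indicator_of_mem hr, norm_one]
    exact h.bd r
  · rw [indicator_of_notMem hr, h.supp r hr, norm_zero, norm_zero]

theorem Nice.mulr (h : Nice g) : Nice (fun r => (r : ℂ) * g r) := by
  refine ⟨Complex.measurable_ofReal.mul h.meas, ?_, ?_⟩
  · intro r
    by_cases hr : r ∈ Icc (1 / 2 : ℝ) 1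
    · rw [norm_mul, Complex.norm_real, Real.norm_of_nonneg (by linarith [hr.1])]
      exact mul_le_one₀ hr.2 (norm_nonneg _) (h.bd r)
    · rw [h.supp r hr, mul_zero, norm_zero]
      exact zero_le_one
  · intro r hr
    rw [h.supp r hr, mul_zero]

/-- the scalar identity -/
theorem ibp0 (r ρ β δ : ℝ) (hδ : 0 ≤ δ) (hs : ∀ u ∈ Icc (0 : ℝ) δ, Real.sin (β + u) ≠ 0) :
    (I * r * ρ) * ∫ u in (0 : ℝ)..δ, cexp (((-(r * (ρ * Real.cos (β + u))) : ℝ) : ℂ) * I) =
      cexp (((-(r * (ρ * Real.cos (β + δ))) : ℝ) : ℂ) * I) / (Real.sin (β + δ) : ℂ) -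
      cexp (((-(r * (ρ * Real.cos β)) : ℝ) : ℂ) * I) / (Real.sin β : ℂ) +
      ∫ u in (0 : ℝ)..δ, cexp (((-(r * (ρ * Real.cos (β + u))) : ℝ) : ℂ) * I) *
        ((Real.cos (β + u) / Real.sin (β + u) ^ 2 : ℝ) : ℂ) := by
  set E : ℝ → ℂ := fun u => cexp (((-(r * (ρ * Real.cos (β + u))) : ℝ) : ℂ) * I) with hE
  have hEc : Continuous E := by
    rw [hE]
    fun_prop
  have hEd : ∀ u, HasDerivAt E (E u * ((I * r * ρ) * (Real.sin (β + u) : ℂ))) u := by
    intro u
    have h1 : HasDerivAt (fun u : ℝ => -(r * (ρ * Real.cos (β + u)))) (r * (ρ * Real.sin (β + u))) u := by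
      have h2 : HasDerivAt (fun u : ℝ => Real.cos (β + u)) (-Real.sin (β + u) * 1) u :=
        (Real.hasDerivAt_cos (β + u)).comp u ((hasDerivAt_id u).const_add β)
      have h3 := ((h2.const_mul ρ).const_mul r).neg
      refine h3.congr_deriv ?_
      ring
    have h4 := (h1.ofReal_comp.mul_const I).cexp
    refine h4.congr_deriv ?_
    rw [hE]
    simp only
    push_cast
    ring
  set S : ℝ → ℂ := fun u => (Real.sin (β + u) : ℂ) with hS
  have hSd : ∀ u, HasDerivAt S ((Real.cos (β + u) : ℂ)) u := by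
    intro u
    have h2 : HasDerivAt (fun u : ℝ => Real.sin (β + u)) (Real.cos (β + u) * 1) u :=
      (Real.hasDerivAt_sin (β + u)).comp u ((hasDerivAt_id u).const_add β)
    rw [mul_one] at h2
    exact h2.ofReal_comp
  have hSn : ∀ u ∈ Icc (0 : ℝ) δ, S u ≠ 0 := by
    intro u hu
    rw [hS]
    simp only
    exact_mod_cast hs u hu
  have hW : ∀ u ∈ uIcc (0 : ℝ) δ, HasDerivAt (fun u => E u / S u)
      ((I * r * ρ) * E u - E u * ((Real.cos (β + u) / Real.sin (β + u) ^ 2 : ℝ) : ℂ)) u := by
    intro u hu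
    rw [uIcc_of_le hδ] at hu
    have h5 := (hEd u).div (hSd u) (hSn u hu)
    refine h5.congr_deriv ?_
    have h6 := hSn u hu
    rw [hS] at h6 ⊢
    simp only at h6 ⊢
    rw [Complex.ofReal_div, Complex.ofReal_pow]
    field_simp
  have hint1 : IntervalIntegrable (fun u => (I * r * ρ) * E u) volume 0 δ :=
    (continuous_const.mul hEc).intervalIntegrable _ _
  have hint2 : IntervalIntegrable (fun u => E u * ((Real.cos (β + u) / Real.sin (β + u) ^ 2 : ℝ) : ℂ))
      volume 0 δ := by
    refine ContinuousOn.intervalIntegrable ?_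
    rw [uIcc_of_le hδ]
    refine hEc.continuousOn.mul ?_
    refine Complex.continuous_ofReal.comp_continuousOn ?_
    refine ContinuousOn.div (by fun_prop) (by fun_prop) ?_
    intro u hu
    exact pow_ne_zero 2 (hs u hu)
  have h7 := intervalIntegral.integral_eq_sub_of_hasDerivAt hW (hint1.sub hint2)
  rw [intervalIntegral.integral_sub hint1 hint2, intervalIntegral.integral_const_mul] at h7
  rw [hS] at h7
  simp only [add_zero] at h7
  rw [sub_eq_iff_eq_add] at h7
  rw [h7]
  rw [hE]
  simp only [add_zero]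

/-- the identity after integration over the radius -/
theorem ibp1 (h : Nice g) (t ρ β δ : ℝ) (hδ : 0 ≤ δ) (hs : ∀ u ∈ Icc (0 : ℝ) δ, Real.sin (β + u) ≠ 0) :
    (I * ρ) * ∫ u in (0 : ℝ)..δ, GG (fun r => (r : ℂ) * g r) (ρ * Real.cos (β + u)) t =
      GG g (ρ * Real.cos (β + δ)) t / (Real.sin (β + δ) : ℂ) -
      GG g (ρ * Real.cos β) t / (Real.sin β : ℂ) +
      ∫ u in (0 : ℝ)..δ, GG g (ρ * Real.cos (β + u)) t *
        ((Real.cos (β + u) / Real.sin (β + u) ^ 2 : ℝ) : ℂ) := by
  set T : ℝ → ℂ := fun r => cexp (((-(t * r ^ 2) : ℝ) : ℂ) * I) with hT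
  have hTc : Continuous T := by
    rw [hT]
    fun_prop
  have hTn : ∀ r, ‖T r‖ = 1 := fun r => Complex.norm_exp_ofReal_mul_I _
  set E : ℝ → ℝ → ℂ := fun r u => cexp (((-(r * (ρ * Real.cos (β + u))) : ℝ) : ℂ) * I) with hE
  have hEc : Continuous fun p : ℝ × ℝ => E p.1 p.2 := by
    rw [hE]
    fun_prop
  have hEn : ∀ r u, ‖E r u‖ = 1 := fun r u => Complex.norm_exp_ofReal_mul_I _
  have hGG : ∀ (k : ℝ → ℂ) (u : ℝ), GG k (ρ * Real.cos (β + u)) t =
      ∫ r in Ioi (0 : ℝ), k r * T r * E r u := by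
    intro k u
    unfold GG
    refine setIntegral_congr_fun measurableSet_Ioi fun r _ => ?_
    simp only [hT, hE]
    rw [mul_assoc, ← Complex.exp_add]
    congr 2
    push_cast
    ring
  have hGG0 : ∀ (k : ℝ → ℂ), GG k (ρ * Real.cos β) t = ∫ r in Ioi (0 : ℝ), k r * T r * E r 0 := by
    intro k
    have := hGG k 0
    rwa [add_zero] at this
  have hki : ∀ k : ℝ → ℂ, Nice k → ∀ u, Integrable (fun r => k r * T r * E r u)
      (volume.restrict (Ioi (0 : ℝ))) := by
    intro k hk u
    refine (hk.int.norm.mono' ?_ ?_).mono_measure Measure.restrict_le_self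
    · refine (hk.meas.mul hTc.measurable).mul ?_ |>.aestronglyMeasurable
      exact (hEc.comp (by fun_prop : Continuous fun r : ℝ => (r, u))).measurable
    · refine Eventually.of_forall fun r => ?_
      rw [norm_mul, norm_mul, hEn, hTn, mul_one, mul_one]
  -- Fubini
  have hswap : ∀ k : ℝ → ℂ, Nice k → ∀ w : ℝ → ℂ, ContinuousOn w (Icc 0 δ) →
      ∫ u in (0 : ℝ)..δ, (∫ r in Ioi (0 : ℝ), k r * T r * E r u) * w u =
      ∫ r in Ioi (0 : ℝ), k r * T r * ∫ u in (0 : ℝ)..δ, E r u * w u := by
    intro k hk w hw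
    have hwi : IntegrableOn w (Ioc 0 δ) := (hw.integrableOn_Icc).mono_set Ioc_subset_Icc_self
    have h1 : Integrable (Function.uncurry fun (u r : ℝ) => k r * T r * E r u * w u)
        ((volume.restrict (Ioc 0 δ)).prod (volume.restrict (Ioi (0 : ℝ)))) := by
      have h2 : Integrable (fun p : ℝ × ℝ => w p.1 * k p.2)
          ((volume.restrict (Ioc 0 δ)).prod (volume.restrict (Ioi (0 : ℝ)))) :=
        Integrable.mul_prod hwi hk.int.integrableOn
      refine h2.norm.mono' ?_ (Eventually.of_forall fun p => ?_)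
      · refine AEStronglyMeasurable.mul (AEStronglyMeasurable.mul (AEStronglyMeasurable.mul ?_ ?_) ?_) ?_
        · exact (hk.meas.comp measurable_snd).aestronglyMeasurable
        · exact (hTc.measurable.comp measurable_snd).aestronglyMeasurable
        · exact (hEc.comp continuous_swap).aestronglyMeasurable
        · exact hwi.aestronglyMeasurable.comp_fst
      · simp only [Function.uncurry]
        rw [norm_mul, norm_mul, norm_mul, norm_mul, hEn, hTn, mul_one, mul_one, mul_comm]
    rw [intervalIntegral.integral_of_le hδ]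
    have h3 : ∀ u, (∫ r in Ioi (0 : ℝ), k r * T r * E r u) * w u =
        ∫ r in Ioi (0 : ℝ), k r * T r * E r u * w u := fun u => (integral_mul_const _ _).symm
    simp_rw [h3]
    rw [integral_integral_swap h1]
    refine setIntegral_congr_fun measurableSet_Ioi fun r _ => ?_
    try simp only
    rw [intervalIntegral.integral_of_le hδ, ← integral_const_mul]
    refine integral_congr_ae (Eventually.of_forall fun u => ?_)
    simp only
    ring
  have hcs : ContinuousOn (fun u : ℝ => ((Real.cos (β + u) / Real.sin (β + u) ^ 2 : ℝ) : ℂ)) (Icc 0 δ) := by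
    refine Complex.continuous_ofReal.comp_continuousOn ?_
    refine ContinuousOn.div (by fun_prop) (by fun_prop) ?_
    intro u hu
    exact pow_ne_zero 2 (hs u hu)
  have hA := hswap (fun r => (r : ℂ) * g r) h.mulr (fun _ => 1) continuousOn_const
  simp only [mul_one] at hA
  have hB := hswap g h (fun u => ((Real.cos (β + u) / Real.sin (β + u) ^ 2 : ℝ) : ℂ)) hcs
  simp_rw [hGG, hGG0]
  rw [hA, hB, ← integral_const_mul, ← integral_div, ← integral_div]
  rw [← integral_sub ((hki g h δ).div_const _) ((hki g h 0).div_const _)]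
  have hI : Integrable (fun r => g r * T r * ∫ u in (0 : ℝ)..δ, E r u *
      ((Real.cos (β + u) / Real.sin (β + u) ^ 2 : ℝ) : ℂ)) (volume.restrict (Ioi (0 : ℝ))) := by
    have e0 : ∀ r, ∫ u in (0 : ℝ)..δ, E r u * ((Real.cos (β + u) / Real.sin (β + u) ^ 2 : ℝ) : ℂ) =
        (I * r * ρ) * (∫ u in (0 : ℝ)..δ, E r u) - E r δ / (Real.sin (β + δ) : ℂ) +
          E r 0 / (Real.sin β : ℂ) := by
      intro r
      have h1 := ibp0 r ρ β δ hδ hs
      simp only [hE, add_zero]
      linear_combination -h1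
    simp_rw [e0]
    have hc1 : Continuous fun r => ∫ u in (0 : ℝ)..δ, E r u := by
      refine intervalIntegral.continuous_parametric_intervalIntegral_of_continuous' ?_ _ _
      exact hEc
    have hc2 : ∀ u, Continuous fun r => E r u := fun u =>
      hEc.comp (by fun_prop : Continuous fun r : ℝ => (r, u))
    have hc3 : Continuous fun r : ℝ => (I * r * ρ) * (∫ u in (0 : ℝ)..δ, E r u) -
        E r δ / (Real.sin (β + δ) : ℂ) + E r 0 / (Real.sin β : ℂ) := by
      have := hc2 δ
      have := hc2 0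
      fun_prop
    obtain ⟨K, hK⟩ := (isCompact_Icc (a := (1 / 2 : ℝ)) (b := 1)).exists_bound_of_continuousOn hc3.continuousOn
    refine ((h.int.norm.mul_const K).mono' ((h.meas.mul hTc.measurable).mul hc3.measurable).aestronglyMeasurable
      (Eventually.of_forall fun r => ?_)).mono_measure Measure.restrict_le_self
    simp only [Pi.mul_apply]
    rw [norm_mul, norm_mul, hTn, mul_one]
    by_cases hr : r ∈ Icc (1 / 2 : ℝ) 1
    · exact mul_le_mul_of_nonneg_left (hK r hr) (norm_nonneg _)
    · rw [h.supp r hr, norm_zero, zero_mul, zero_mul]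
  have hsub : Integrable (fun r => g r * T r * E r δ / (Real.sin (β + δ) : ℂ) -
      g r * T r * E r 0 / (Real.sin β : ℂ)) (volume.restrict (Ioi (0 : ℝ))) :=
    ((hki g h δ).div_const _).sub ((hki g h 0).div_const _)
  rw [← integral_add hsub hI]
  refine setIntegral_congr_fun measurableSet_Ioi fun r _ => ?_
  have h1 := ibp0 r ρ β δ hδ hs
  simp only [hE, add_zero] at h1 ⊢
  linear_combination (g r * T r) * h1

end Run7.h485.RR
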