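import Mathlib
import Pool.Agent.Run7.h485.RR.Ibp
set_option autoImplicit false

/-! # Averages over arcs: pointwise bounds -/

namespace Run7.h485.RR

open MeasureTheory Set Complex Filter Topology
open scoped ENNReal NNReal RealInnerProductSpace ComplexConjugate
open Pool.Agent.W771 Run7.h783.RV

variable {M : ℝ} {f : ℂ → ℂ} {g : ℝ → ℂ}

theorem sin_half (β δ u : ℝ) (hu : u ∈ Icc (0 : ℝ) δ) (hf : 2 * δ ≤ |Real.sin β|) :
    |Real.sin β| / 2 ≤ |Real.sin (β + u)| := by
  have h1 : |Real.sin (β + u) - Real.sin β| ≤ |(β + u) - β| := by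
    have := Real.lipschitzWith_sin.dist_le_mul (β + u) β
    rw [Real.dist_eq, Real.dist_eq, NNReal.coe_one, one_mul] at this
    exact this
  rw [add_sub_cancel_left, abs_of_nonneg hu.1] at h1
  have h2 := abs_sub_abs_le_abs_sub (Real.sin β) (Real.sin (β + u))
  rw [abs_sub_comm] at h2
  linarith [hu.2]

theorem enorm_div_le (A : ℂ) (s c : ℝ) (hc : |s|⁻¹ ≤ c) : ‖A / (s : ℂ)‖ₑ ≤ ENNReal.ofReal c * ‖A‖ₑ := by
  rw [← ofReal_norm, ← ofReal_norm, ← ENNReal.ofReal_mul ((inv_nonneg.2 (abs_nonneg _)).trans hc),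
    norm_div, Complex.norm_real, Real.norm_eq_abs, div_eq_mul_inv, mul_comm]
  exact ENNReal.ofReal_le_ofReal (mul_le_mul_of_nonneg_right hc (norm_nonneg _))

theorem ibp2 (h : Nice g) (t ρ β δ : ℝ) (hρ : 0 < ρ) (hδ : 0 < δ) (hf : 2 * δ ≤ |Real.sin β|) :
    ENNReal.ofReal ρ * ‖∫ u in (0 : ℝ)..δ, GG (fun r => (r : ℂ) * g r) (ρ * Real.cos (β + u)) t‖ₑ ≤
      ENNReal.ofReal (2 / |Real.sin β|) * ‖GG g (ρ * Real.cos (β + δ)) t‖ₑ +
      ENNReal.ofReal (1 / |Real.sin β|) * ‖GG g (ρ * Real.cos β) t‖ₑ +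
      ENNReal.ofReal (4 / |Real.sin β| ^ 2) * ∫⁻ u in Ioc 0 δ, ‖GG g (ρ * Real.cos (β + u)) t‖ₑ := by
  set S := |Real.sin β| with hS
  have hS0 : 0 < S := by linarith
  have hs : ∀ u ∈ Icc (0 : ℝ) δ, Real.sin (β + u) ≠ 0 := by
    intro u hu h0
    have := sin_half β δ u hu hf
    rw [h0, abs_zero] at this
    linarith
  have h1 := ibp1 h t ρ β δ hδ.le hs
  have h2 : ENNReal.ofReal ρ * ‖∫ u in (0 : ℝ)..δ, GG (fun r => (r : ℂ) * g r) (ρ * Real.cos (β + u)) t‖ₑ =
      ‖(I * ρ) * ∫ u in (0 : ℝ)..δ, GG (fun r => (r : ℂ) * g r) (ρ * Real.cos (β + u)) t‖ₑ := by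
    rw [enorm_mul]
    congr 1
    rw [← ofReal_norm, norm_mul, Complex.norm_I, one_mul, Complex.norm_real, Real.norm_of_nonneg hρ.le]
  rw [h2, h1]
  refine (enorm_add_le _ _).trans (add_le_add ((enorm_sub_le).trans (add_le_add ?_ ?_)) ?_)
  · refine enorm_div_le _ _ _ ?_
    have h3 := sin_half β δ δ ⟨hδ.le, le_rfl⟩ hf
    rw [inv_le_comm₀ (by linarith) (by positivity), inv_div]
    exact h3
  · refine enorm_div_le _ _ _ ?_
    rw [one_div]
  · rw [intervalIntegral.integral_of_le hδ.le, ← lintegral_const_mul' _ _ ENNReal.ofReal_ne_top]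
    refine (enorm_integral_le_lintegral_enorm _).trans ?_
    refine setLIntegral_mono' measurableSet_Ioc fun u hu => ?_
    rw [enorm_mul, mul_comm]
    refine mul_le_mul' ?_ le_rfl
    rw [← ofReal_norm, Complex.norm_real, Real.norm_eq_abs]
    refine ENNReal.ofReal_le_ofReal ?_
    have h3 := sin_half β δ u ⟨hu.1.le, hu.2⟩ hf
    have h4 : 0 < |Real.sin (β + u)| := by linarith
    rw [abs_div, abs_of_nonneg (sq_nonneg (Real.sin (β + u))), ← sq_abs (Real.sin (β + u)),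
      div_le_div_iff₀ (by positivity) (by positivity)]
    have h5 : |Real.cos (β + u)| ≤ 1 := Real.abs_cos_le_one _
    have h6 : S ^ 2 ≤ 4 * |Real.sin (β + u)| ^ 2 := by
      have : S ≤ 2 * |Real.sin (β + u)| := by linarith
      calc S ^ 2 ≤ (2 * |Real.sin (β + u)|) ^ 2 := pow_le_pow_left₀ hS0.le this 2
        _ = _ := by ring
    calc |Real.cos (β + u)| * S ^ 2 ≤ 1 * S ^ 2 := mul_le_mul_of_nonneg_right h5 (by positivity)
      _ ≤ _ := by linarith

/-- the weight -/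
noncomputable def wt (b δ β : ℝ) : ℝ≥0∞ := (ENNReal.ofReal (2 * δ) / ENNReal.ofReal |Real.sin β|) ^ b

/-- near and far -/
theorem ibp3 (h : Nice g) (t ρ β δ b : ℝ) (hρ : 0 < ρ) (hδ : 0 < δ) (hρδ : 1 / 2 ≤ ρ * δ ^ 2) (hb0 : 0 < b)
    (hb : b ≤ 1) :
    ENNReal.ofReal (1 / δ) *
      ‖∫ u in (0 : ℝ)..δ, GG (fun r => (r : ℂ) * g r) (ρ * Real.cos (β + u)) t‖ₑ ≤
      wt b δ β * (2 * ‖GG g (ρ * Real.cos (β + δ)) t‖ₑ + ‖GG g (ρ * Real.cos β) t‖ₑ +
        2 * (ENNReal.ofReal (1 / δ) * ∫⁻ u in Ioc 0 δ, ‖GG g (ρ * Real.cos (β + u)) t‖ₑ) +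
        ENNReal.ofReal (1 / δ) * ∫⁻ u in Ioc 0 δ,
          ‖GG (fun r => (r : ℂ) * g r) (ρ * Real.cos (β + u)) t‖ₑ) := by
  set S := |Real.sin β| with hS
  set J := ‖∫ u in (0 : ℝ)..δ, GG (fun r => (r : ℂ) * g r) (ρ * Real.cos (β + u)) t‖ₑ with hJ
  set N := ∫⁻ u in Ioc 0 δ, ‖GG g (ρ * Real.cos (β + u)) t‖ₑ with hN
  set N1 := ∫⁻ u in Ioc 0 δ, ‖GG (fun r => (r : ℂ) * g r) (ρ * Real.cos (β + u)) t‖ₑ with hN1
  set A := ‖GG g (ρ * Real.cos (β + δ)) t‖ₑ with hA
  set B := ‖GG g (ρ * Real.cos β) t‖ₑ with hB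
  rcases lt_or_ge S (2 * δ) with hlt | hge
  · have h1 : 1 ≤ wt b δ β := by
      unfold wt
      refine ENNReal.one_le_rpow ?_ hb0
      by_cases hS0 : ENNReal.ofReal S = 0
      · rw [hS0, ENNReal.div_zero]
        · exact le_top
        · rw [Ne, ENNReal.ofReal_eq_zero, not_le]
          positivity
      · rw [ENNReal.le_div_iff_mul_le (Or.inl hS0) (Or.inl ENNReal.ofReal_ne_top), one_mul]
        exact ENNReal.ofReal_le_ofReal hlt.le
    have h2 : J ≤ N1 := by
      rw [hJ, hN1, intervalIntegral.integral_of_le hδ.le]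
      exact enorm_integral_le_lintegral_enorm _
    calc ENNReal.ofReal (1 / δ) * J ≤ ENNReal.ofReal (1 / δ) * N1 := by gcongr
      _ ≤ 2 * A + B + 2 * (ENNReal.ofReal (1 / δ) * N) + ENNReal.ofReal (1 / δ) * N1 := le_add_self
      _ ≤ _ := le_mul_of_one_le_left zero_le h1
  · have hS0 : 0 < S := by linarith
    have h1 := ibp2 h t ρ β δ hρ hδ hge
    rw [← hJ, ← hN, ← hA, ← hB] at h1
    have h2 : ENNReal.ofReal (2 * δ / S) ≤ wt b δ β := by
      unfold wt
      rw [ENNReal.ofReal_div_of_pos hS0]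
      nth_rewrite 1 [← ENNReal.rpow_one (ENNReal.ofReal (2 * δ) / ENNReal.ofReal S)]
      refine ENNReal.rpow_le_rpow_of_exponent_ge ?_ hb
      rw [← ENNReal.ofReal_div_of_pos hS0, ENNReal.ofReal_le_one, div_le_one hS0]
      exact hge
    have h3 : ENNReal.ofReal (1 / δ) * J ≤ ENNReal.ofReal (2 * δ) * (ENNReal.ofReal ρ * J) := by
      rw [← mul_assoc, ← ENNReal.ofReal_mul (by positivity)]
      refine mul_le_mul' (ENNReal.ofReal_le_ofReal ?_) le_rfl
      rw [div_le_iff₀ hδ]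
      nlinarith
    have e1 : ENNReal.ofReal (2 * δ) * ENNReal.ofReal (2 / S) = ENNReal.ofReal (2 * δ / S) * 2 := by
      rw [show (2 : ℝ≥0∞) = ENNReal.ofReal 2 by norm_num, ← ENNReal.ofReal_mul (by positivity),
        ← ENNReal.ofReal_mul (by positivity)]
      congr 1
      ring
    have e2 : ENNReal.ofReal (2 * δ) * ENNReal.ofReal (1 / S) = ENNReal.ofReal (2 * δ / S) := by
      rw [← ENNReal.ofReal_mul (by positivity)]
      congr 1
      ring
    have e3 : ENNReal.ofReal (2 * δ) * ENNReal.ofReal (4 / S ^ 2) ≤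
        ENNReal.ofReal (2 * δ / S) * (2 * ENNReal.ofReal (1 / δ)) := by
      rw [show (2 : ℝ≥0∞) = ENNReal.ofReal 2 by norm_num, ← ENNReal.ofReal_mul (by positivity),
        ← ENNReal.ofReal_mul (by positivity), ← ENNReal.ofReal_mul (by positivity)]
      refine ENNReal.ofReal_le_ofReal ?_
      rw [show 2 * δ * (4 / S ^ 2) = 8 * δ / S ^ 2 by ring,
        show 2 * δ / S * (2 * (1 / δ)) = 4 / S by field_simp; ring,
        div_le_div_iff₀ (by positivity) hS0]
      nlinarith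
    calc ENNReal.ofReal (1 / δ) * J ≤ ENNReal.ofReal (2 * δ) * (ENNReal.ofReal ρ * J) := h3
      _ ≤ ENNReal.ofReal (2 * δ) * (ENNReal.ofReal (2 / S) * A + ENNReal.ofReal (1 / S) * B +
            ENNReal.ofReal (4 / S ^ 2) * N) := by gcongr
      _ = ENNReal.ofReal (2 * δ) * ENNReal.ofReal (2 / S) * A +
            ENNReal.ofReal (2 * δ) * ENNReal.ofReal (1 / S) * B +
            ENNReal.ofReal (2 * δ) * ENNReal.ofReal (4 / S ^ 2) * N := by ring
      _ ≤ ENNReal.ofReal (2 * δ / S) * 2 * A + ENNReal.ofReal (2 * δ / S) * B +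
            ENNReal.ofReal (2 * δ / S) * (2 * ENNReal.ofReal (1 / δ)) * N := by
          rw [e1, e2]
          gcongr
      _ = ENNReal.ofReal (2 * δ / S) * (2 * A + B + 2 * (ENNReal.ofReal (1 / δ) * N)) := by ring
      _ ≤ wt b δ β * (2 * A + B + 2 * (ENNReal.ofReal (1 / δ) * N) + ENNReal.ofReal (1 / δ) * N1) :=
          mul_le_mul' h2 le_self_add

/-- the average over arcs -/
noncomputable def avg (δ : ℝ) (f : ℂ → ℂ) (x : ℂ) : ℂ := ((δ⁻¹ : ℝ) : ℂ) * ∫ u in (0 : ℝ)..δ, f (om u * x)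

theorem fo_meas (hf : Measurable f) : Measurable fun p : ℂ × ℝ => f (om p.2 * p.1) := by
  refine hf.comp ?_
  have := om_cont
  fun_prop

theorem avg_meas (hf : Measurable f) (δ : ℝ) (hδ : 0 ≤ δ) : Measurable (avg δ f) := by
  unfold avg
  simp_rw [intervalIntegral.integral_of_le hδ]
  refine Measurable.const_mul ?_ _
  refine StronglyMeasurable.measurable ?_
  exact StronglyMeasurable.integral_prod_right (f := fun (x : ℂ) (u : ℝ) => f (om u * x))
    (fo_meas hf).stronglyMeasurable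

theorem avg_BB (h : BB M 1 f) (δ : ℝ) (hδ : 0 < δ) : BB M 1 (avg δ f) := by
  refine ⟨avg_meas h.meas δ hδ.le, ?_, ?_⟩
  · intro x
    unfold avg
    have h1 := intervalIntegral.norm_integral_le_of_norm_le_const (a := 0) (b := δ) (C := M)
      (f := fun u => f (om u * x)) (fun u _ => h.bd _)
    rw [sub_zero, abs_of_pos hδ] at h1
    rw [norm_mul, Complex.norm_real, Real.norm_of_nonneg (by positivity)]
    calc δ⁻¹ * ‖∫ u in (0 : ℝ)..δ, f (om u * x)‖ ≤ δ⁻¹ * (M * δ) := by gcongr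
      _ = M := by field_simp
  · intro x hx
    unfold avg
    have : ∀ u, f (om u * x) = 0 := by
      intro u
      apply h.supp
      rw [norm_mul, om_norm, one_mul]
      exact hx
    simp_rw [this]
    simp

theorem avg_low (hs : ∀ x : ℂ, ‖x‖ < 1 / 2 → f x = 0) (δ : ℝ) (x : ℂ) (hx : ‖x‖ < 1 / 2) :
    avg δ f x = 0 := by
  unfold avg
  have : ∀ u, f (om u * x) = 0 := by
    intro u
    apply hs
    rw [norm_mul, om_norm, one_mul]
    exact hx
  simp_rw [this]
  simp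

theorem EC_avg (h : BB M 1 f) (δ : ℝ) (hδ : 0 < δ) (t : ℝ) (ξ : ℂ) :
    EC (avg δ f) t ξ = ((δ⁻¹ : ℝ) : ℂ) * ∫ u in (0 : ℝ)..δ, EC f t (om u * ξ) := by
  have hec : Continuous fun x => eC t ξ x := eC_cont.comp (by fun_prop : Continuous fun x : ℂ => (t, ξ, x))
  have hfin : IsFiniteMeasure (volume.restrict (Ioc (0 : ℝ) δ)) := by
    refine ⟨?_⟩
    rw [Measure.restrict_apply_univ, Real.volume_Ioc]
    exact ENNReal.ofReal_lt_top
  have h1 : Integrable (Function.uncurry fun (x : ℂ) (u : ℝ) => f (om u * x) * eC t ξ x)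
      ((volume : Measure ℂ).prod (volume.restrict (Ioc (0 : ℝ) δ))) := by
    have h2 : Integrable (fun p : ℂ × ℝ => ib 1 M p.1 * (1 : ℝ))
        ((volume : Measure ℂ).prod (volume.restrict (Ioc (0 : ℝ) δ))) :=
      Integrable.mul_prod (ib_int 1 M) (integrable_const (1 : ℝ))
    refine h2.mono' ((fo_meas h.meas).mul (hec.measurable.comp measurable_fst)).aestronglyMeasurable
      (Eventually.of_forall fun p => ?_)
    simp only [Function.uncurry]
    rw [norm_mul, eC_norm, mul_one, mul_one]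
    by_cases hp : ‖p.1‖ ≤ 1
    · rw [ib_mem _ _ _ hp]
      exact h.bd _
    · rw [h.supp, norm_zero]
      · exact ib_nonneg _ _ ((norm_nonneg _).trans (h.bd 0)) _
      · rw [norm_mul, om_norm, one_mul]
        exact not_le.1 hp
  rw [EC_def]
  unfold avg
  simp_rw [mul_assoc, intervalIntegral.integral_of_le hδ.le]
  rw [integral_const_mul]
  congr 1
  simp_rw [← integral_mul_const]
  rw [integral_integral_swap h1]
  refine setIntegral_congr_fun measurableSet_Ioc fun u _ => ?_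
  try simp only
  rw [EC_rot f (om u) (om_norm u), EC_def]

theorem inner_om2 (ρ r φ θ : ℝ) : ⟪ρ • om φ, r • om θ⟫ = r * (ρ * Real.cos (φ - θ)) := by
  rw [real_inner_smul_left, real_inner_smul_right, Complex.inner, Real.cos_sub]
  unfold om
  simp
  ring

theorem EC_pol (h : BB M 1 f) (t ρ φ : ℝ) :
    EC f t (ρ • om φ) = ∫ θ in CC, GG (fun r => (r : ℂ) * f (r • om θ)) (ρ * Real.cos (φ - θ)) t := by
  have hec : Continuous fun x => eC t (ρ • om φ) x :=
    eC_cont.comp (by fun_prop : Continuous fun x : ℂ => (t, ρ • om φ, x))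
  have hi : Integrable fun x => f x * eC t (ρ • om φ) x := by
    refine h.int.norm.mono' (h.meas.mul hec.measurable).aestronglyMeasurable
      (Eventually.of_forall fun x => ?_)
    rw [norm_mul, eC_norm, mul_one]
  have hmm : Measurable fun x => f x * eC t (ρ • om φ) x := h.meas.mul hec.measurable
  rw [EC_def, polar_C _ hmm hi]
  refine setIntegral_congr_fun CC_meas fun θ _ => ?_
  unfold GG
  refine setIntegral_congr_fun measurableSet_Ioi fun r hr => ?_
  have hr0 : (0 : ℝ) < r := hr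
  try simp only
  unfold eC
  rw [inner_om2, norm_r_om _ _ hr0.le, mul_assoc]

theorem GGo_meas (hf : Measurable f) : Measurable fun w : ℝ × ℝ × ℝ =>
    GG (fun r => f (r • om w.1)) w.2.1 w.2.2 := by
  unfold GG
  refine StronglyMeasurable.measurable ?_
  refine StronglyMeasurable.integral_prod_right (f := fun (w : ℝ × ℝ × ℝ) (r : ℝ) =>
    f (r • om w.1) * cexp (((-(r * w.2.1 + w.2.2 * r ^ 2) : ℝ) : ℂ) * I)) ?_
  refine Measurable.stronglyMeasurable ?_
  refine Measurable.mul (hf.comp ?_) (Continuous.measurable (by fun_prop))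
  exact (continuous_snd.smul (om_cont.comp (continuous_fst.comp continuous_fst))).measurable

theorem nf_meas (hf : Measurable f) : Measurable fun x : ℂ => (‖x‖ : ℂ) * f x :=
  (Complex.measurable_ofReal.comp measurable_norm).mul hf

theorem GGr_eq (f : ℂ → ℂ) (θ y t : ℝ) : GG (fun r => (r : ℂ) * f (r • om θ)) y t =
    GG (fun r => (fun x : ℂ => (‖x‖ : ℂ) * f x) (r • om θ)) y t := by
  unfold GG
  refine setIntegral_congr_fun measurableSet_Ioi fun r hr => ?_
  have hr0 : (0 : ℝ) < r := hr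
  try simp only
  rw [norm_r_om _ _ hr0.le]

theorem GGr_meas (hf : Measurable f) : Measurable fun w : ℝ × ℝ × ℝ =>
    GG (fun r => (r : ℂ) * f (r • om w.1)) w.2.1 w.2.2 := by
  simp_rw [GGr_eq]
  exact GGo_meas (nf_meas hf)

theorem nice (h : BB 1 1 f) (hs : ∀ x : ℂ, ‖x‖ < 1 / 2 → f x = 0) (θ : ℝ) : Nice (fun r => (Ioi (0 : ℝ)).indicator (fun r => f (r • om θ)) r) := by
  refine ⟨?_, ?_, ?_⟩
  · refine Measurable.indicator ?_ measurableSet_Ioi
    refine h.meas.comp ?_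
    fun_prop
  · intro r
    by_cases hr : r ∈ Ioi (0 : ℝ)
    · rw [indicator_of_mem hr]
      exact h.bd _
    · rw [indicator_of_notMem hr, norm_zero]
      exact zero_le_one
  · intro r hr
    by_cases hr0 : r ∈ Ioi (0 : ℝ)
    · rw [indicator_of_mem hr0]
      have hr1 : (0 : ℝ) < r := hr0
      by_cases hr2 : r < 1 / 2
      · apply hs
        rw [norm_r_om _ _ hr1.le]
        exact hr2
      · apply h.supp
        rw [norm_r_om _ _ hr1.le]
        by_contra hc
        exact hr ⟨not_lt.1 hr2, not_lt.1 hc⟩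
    · rw [indicator_of_notMem hr0]

theorem GG_ind (k : ℝ → ℂ) (y t : ℝ) : GG (fun r => (Ioi (0 : ℝ)).indicator k r) y t = GG k y t := by
  unfold GG
  refine setIntegral_congr_fun measurableSet_Ioi fun r hr => ?_
  try simp only
  rw [indicator_of_mem hr]

theorem GG_indr (k : ℝ → ℂ) (y t : ℝ) : GG (fun r => (r : ℂ) * (Ioi (0 : ℝ)).indicator k r) y t =
    GG (fun r => (r : ℂ) * k r) y t := by
  unfold GG
  refine setIntegral_congr_fun measurableSet_Ioi fun r hr => ?_
  try simp only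
  rw [indicator_of_mem hr]

end Run7.h485.RR
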