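import Mathlib
import Pool.Agent.Run7.h485.RR.Avg
set_option autoImplicit false

/-! # The error term -/

namespace Run7.h485.RR

open MeasureTheory Set Complex Filter Topology
open scoped ENNReal NNReal RealInnerProductSpace ComplexConjugate
open Pool.Agent.W771 Run7.h783.RV

variable {M : ℝ} {f : ℂ → ℂ}

/-- interpolation of the local `L²` and the global `L⁴` bound -/
theorem err_est (q : ℝ) (hq : 2 < q) (hq4 : q < 4) : ∃ C : ℝ≥0∞, C ≠ ∞ ∧
    ∀ (M : ℝ) (h : ℂ → ℂ), BB M 1 h → (∀ x : ℂ, ‖x‖ < 1 / 2 → h x = 0) → ∀ P : ℝ, 0 < P →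
    ∫⁻ t, ∫⁻ ξ in Metric.closedBall (0 : ℂ) P, ‖EC h t ξ‖ₑ ^ q ≤
      C * ENNReal.ofReal P ^ ((4 - q) / 2) * (∫⁻ x, ‖h x‖ₑ ^ 2) ^ (q / 2) := by
  have hpi := Real.pi_pos
  set a : ℝ := (4 - q) / (4 - 2) with ha
  set b : ℝ := (q - 2) / (4 - 2) with hb
  have ha0 : 0 ≤ a := div_nonneg (by linarith) (by norm_num)
  have hb0 : 0 ≤ b := div_nonneg (by linarith) (by norm_num)
  refine ⟨ENNReal.ofReal (256 * Real.pi ^ 2) ^ a * ENNReal.ofReal (4 * Real.pi ^ 4) ^ b,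
    ENNReal.mul_ne_top (ENNReal.rpow_ne_top_of_nonneg ha0 ENNReal.ofReal_ne_top)
    (ENNReal.rpow_ne_top_of_nonneg hb0 ENNReal.ofReal_ne_top), ?_⟩
  intro M h hB hs P hP
  set μ : Measure (ℝ × ℂ) := volume.prod (volume.restrict (Metric.closedBall (0 : ℂ) P)) with hμ
  set F : ℝ × ℂ → ℝ≥0∞ := fun w => ‖EC h w.1 w.2‖ₑ with hF
  have hFm : Measurable F := (EC_meas h hB.meas).enorm
  have hi := interp μ F hFm.aemeasurable q 4 hq hq4
  have e0 : ∫⁻ w, F w ^ q ∂μ = ∫⁻ t, ∫⁻ ξ in Metric.closedBall (0 : ℂ) P, ‖EC h t ξ‖ₑ ^ q := by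
    rw [hμ, lintegral_prod _ (hFm.pow_const q).aemeasurable]
  have e2 : ∫⁻ w, F w ^ 2 ∂μ = ∫⁻ t, ∫⁻ ξ in Metric.closedBall (0 : ℂ) P, ‖EC h t ξ‖ₑ ^ 2 := by
    rw [hμ, lintegral_prod _ (hFm.pow_const 2).aemeasurable]
  have e4 : ∫⁻ w, F w ^ (4 : ℝ) ∂μ ≤ ∫⁻ t, ∫⁻ ξ, ‖EC h t ξ‖ₑ ^ 4 := by
    rw [hμ, lintegral_prod _ (hFm.pow_const (4 : ℝ)).aemeasurable]
    refine lintegral_mono fun t => ?_
    refine (setLIntegral_le_lintegral _ _).trans (le_of_eq ?_)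
    refine lintegral_congr fun ξ => ?_
    simp only [hF]
    rw [show (4 : ℝ) = ((4 : ℕ) : ℝ) by norm_num, ENNReal.rpow_natCast]
  rw [← e0]
  refine hi.trans ?_
  rw [e2]
  set X := ∫⁻ x, ‖h x‖ₑ ^ 2 with hX
  have h2 := slab hB hs P
  have h4 := e4.trans (four hB)
  rw [← hX] at h2 h4
  refine (mul_le_mul' (ENNReal.rpow_le_rpow h2 ha0) (ENNReal.rpow_le_rpow h4 hb0)).trans (le_of_eq ?_)
  rw [ENNReal.mul_rpow_of_nonneg _ _ ha0, ENNReal.mul_rpow_of_nonneg _ _ hb0,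
    ENNReal.ofReal_mul (by positivity), ENNReal.mul_rpow_of_nonneg _ _ ha0]
  have e5 : X ^ a * (X ^ 2) ^ b = X ^ (q / 2) := by
    rw [← ENNReal.rpow_natCast, ← ENNReal.rpow_mul, ← ENNReal.rpow_add_of_nonneg _ _ ha0 (by positivity)]
    congr 1
    rw [ha, hb]
    push_cast
    ring
  have e6 : (4 - q) / 2 = a := by
    rw [ha]
    norm_num
  rw [e6, ← e5]
  ring

/-- modulus of continuity in the angle, on functions supported in the unit disc -/
def AM (s W : ℝ) (f : ℂ → ℂ) : Prop :=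
  ∀ u ∈ Ioc (0 : ℝ) 1, ∫⁻ x, ‖f (om u * x) - f x‖ₑ ≤ ENNReal.ofReal (W * u ^ s)

theorem diff_l1 (h : BB M 1 f) (s W δ : ℝ) (hs0 : 0 ≤ s) (hW : 0 ≤ W) (hA : AM s W f) (hδ : 0 < δ)
    (hδ1 : δ ≤ 1) : ∫⁻ x, ‖f x - avg δ f x‖ₑ ≤ ENNReal.ofReal (W * δ ^ s) := by
  have hfo := fo_meas h.meas
  have h1 : ∀ x, ‖f x - avg δ f x‖ₑ ≤ ENNReal.ofReal δ⁻¹ * ∫⁻ u in Ioc 0 δ, ‖f (om u * x) - f x‖ₑ := by
    intro x
    have hi : IntervalIntegrable (fun u => f (om u * x)) volume 0 δ := by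
      rw [intervalIntegrable_iff_integrableOn_Ioc_of_le hδ.le]
      refine Measure.integrableOn_of_bounded (M := M) (by rw [Real.volume_Ioc]; exact ENNReal.ofReal_ne_top) ?_ ?_
      · have h2 : Measurable fun u : ℝ => (x, u) := by fun_prop
        have h3 := hfo.comp h2
        simp only [Function.comp_def] at h3
        exact h3.aestronglyMeasurable
      · exact Eventually.of_forall fun u => h.bd _
    have e1 : f x - avg δ f x = -(((δ⁻¹ : ℝ) : ℂ) * ∫ u in (0 : ℝ)..δ, (f (om u * x) - f x)) := by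
      rw [intervalIntegral.integral_sub hi intervalIntegrable_const, intervalIntegral.integral_const, sub_zero]
      unfold avg
      rw [Complex.real_smul, mul_sub, ← mul_assoc, ← Complex.ofReal_mul, inv_mul_cancel₀ hδ.ne']
      push_cast
      ring
    rw [e1, enorm_neg, enorm_mul]
    refine mul_le_mul' (le_of_eq ?_) ?_
    · rw [← ofReal_norm, Complex.norm_real, Real.norm_of_nonneg (by positivity)]
    · rw [intervalIntegral.integral_of_le hδ.le]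
      exact enorm_integral_le_lintegral_enorm _
  have hm : Measurable fun p : ℂ × ℝ => ‖f (om p.2 * p.1) - f p.1‖ₑ :=
    (hfo.sub (h.meas.comp measurable_fst)).enorm
  calc ∫⁻ x, ‖f x - avg δ f x‖ₑ
      ≤ ∫⁻ x, ENNReal.ofReal δ⁻¹ * ∫⁻ u in Ioc 0 δ, ‖f (om u * x) - f x‖ₑ := lintegral_mono h1
    _ = ENNReal.ofReal δ⁻¹ * ∫⁻ u in Ioc 0 δ, ∫⁻ x, ‖f (om u * x) - f x‖ₑ := by
        rw [lintegral_const_mul' _ _ ENNReal.ofReal_ne_top, lintegral_lintegral_swap hm.aemeasurable]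
    _ ≤ ENNReal.ofReal δ⁻¹ * ∫⁻ _ in Ioc 0 δ, ENNReal.ofReal (W * δ ^ s) := by
        refine mul_le_mul' le_rfl ?_
        refine setLIntegral_mono' measurableSet_Ioc fun u hu => ?_
        refine (hA u ⟨hu.1, hu.2.trans hδ1⟩).trans ?_
        refine ENNReal.ofReal_le_ofReal ?_
        exact mul_le_mul_of_nonneg_left (Real.rpow_le_rpow hu.1.le hu.2 hs0) hW
    _ = _ := by
        rw [setLIntegral_const, Real.volume_Ioc, sub_zero, ← ENNReal.ofReal_mul (by positivity),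
          ← ENNReal.ofReal_mul (by positivity)]
        congr 1
        field_simp

theorem BB.sub {M N : ℝ} {f g : ℂ → ℂ} (hf : BB M 1 f) (hg : BB N 1 g) : BB (M + N) 1 (fun x => f x - g x) := by
  refine ⟨hf.meas.sub hg.meas, ?_, ?_⟩
  · intro x
    exact (norm_sub_le _ _).trans (add_le_add (hf.bd x) (hg.bd x))
  · intro x hx
    rw [hf.supp x hx, hg.supp x hx, sub_zero]

theorem diff_l2 (h : BB 1 1 f) (s W δ : ℝ) (hs0 : 0 ≤ s) (hW : 0 ≤ W) (hA : AM s W f) (hδ : 0 < δ)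
    (hδ1 : δ ≤ 1) : ∫⁻ x, ‖f x - avg δ f x‖ₑ ^ 2 ≤ ENNReal.ofReal (2 * W * δ ^ s) := by
  have h1 := (h.sub (avg_BB h δ hδ)).bd
  calc ∫⁻ x, ‖f x - avg δ f x‖ₑ ^ 2 ≤ ∫⁻ x, 2 * ‖f x - avg δ f x‖ₑ := by
        refine lintegral_mono fun x => ?_
        rw [sq]
        refine mul_le_mul' ?_ le_rfl
        rw [← ofReal_norm, show (2 : ℝ≥0∞) = ENNReal.ofReal 2 by norm_num]
        refine ENNReal.ofReal_le_ofReal ?_
        have := h1 x
        linarith
    _ = 2 * ∫⁻ x, ‖f x - avg δ f x‖ₑ := lintegral_const_mul' _ _ (by norm_num)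
    _ ≤ 2 * ENNReal.ofReal (W * δ ^ s) := by
        refine mul_le_mul' le_rfl (diff_l1 h s W δ hs0 hW hA hδ hδ1)
    _ = _ := by
        rw [show (2 : ℝ≥0∞) = ENNReal.ofReal 2 by norm_num, ← ENNReal.ofReal_mul (by norm_num)]
        congr 1
        ring

theorem EC_sub {M N : ℝ} {f g : ℂ → ℂ} (hf : BB M 1 f) (hg : BB N 1 g) (t : ℝ) (ξ : ℂ) :
    EC (fun x => f x - g x) t ξ = EC f t ξ - EC g t ξ := by
  have hec : Continuous fun x => eC t ξ x := eC_cont.comp (by fun_prop : Continuous fun x : ℂ => (t, ξ, x))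
  simp only [EC_def]
  rw [← integral_sub]
  · refine integral_congr_ae (Eventually.of_forall fun x => ?_)
    simp only
    ring
  · refine hf.int.norm.mono' (hf.meas.mul hec.measurable).aestronglyMeasurable
      (Eventually.of_forall fun x => ?_)
    rw [norm_mul, eC_norm, mul_one]
  · refine hg.int.norm.mono' (hg.meas.mul hec.measurable).aestronglyMeasurable
      (Eventually.of_forall fun x => ?_)
    rw [norm_mul, eC_norm, mul_one]

end Run7.h485.RR
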