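import Mathlib
import Pool.Agent.Run7.h485.RR.Pla
set_option autoImplicit false

/-! # The planar bound on lines through the origin and two trigonometric integrals -/

namespace Run7.h485.RR

open MeasureTheory Set Complex Filter Topology
open scoped ENNReal NNReal RealInnerProductSpace ComplexConjugate
open Pool.Agent.W771 Run7.h783.RV

theorem GG_line (q p : ℝ) (hq : 2 < q) (hqp : q < p) (hp : 4 < p) : ∃ C : ℝ≥0∞, C ≠ ∞ ∧ C ≠ 0 ∧
    ∀ g : ℝ → ℂ, Nice g → ∀ P : ℝ, 0 < P → ∀ c : ℝ,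
    ∫⁻ ρ in Ioo 0 P, ∫⁻ t, ‖GG g (ρ * c) t‖ₑ ^ q ≤
      C * ENNReal.ofReal P ^ ((p - q) / (p - 2)) * ENNReal.ofReal |c| ^ (-((q - 2) / (p - 2))) := by
  obtain ⟨C0, hC0⟩ := GG_lp p hp
  have hpi := Real.pi_pos
  have hp2 : 0 < p - 2 := by linarith
  set a : ℝ := (p - q) / (p - 2) with ha
  set κ : ℝ := (q - 2) / (p - 2) with hκ
  have ha0 : 0 < a := div_pos (by linarith) hp2
  have hκ0 : 0 < κ := div_pos (by linarith) hp2
  set C1 : ℝ≥0∞ := ENNReal.ofReal (2 * Real.pi) ^ a * ((C0 : ℝ≥0∞) + 1) ^ κ with hC1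
  have hC1t : C1 ≠ ∞ := ENNReal.mul_ne_top (ENNReal.rpow_ne_top_of_nonneg ha0.le ENNReal.ofReal_ne_top)
    (ENNReal.rpow_ne_top_of_nonneg hκ0.le (ENNReal.add_ne_top.2 ⟨ENNReal.coe_ne_top, ENNReal.one_ne_top⟩))
  have hC10 : C1 ≠ 0 := by
    refine mul_ne_zero ?_ ?_
    · have : ENNReal.ofReal (2 * Real.pi) ≠ 0 := by
        rw [Ne, ENNReal.ofReal_eq_zero, not_le]
        positivity
      exact (ENNReal.rpow_pos (pos_iff_ne_zero.2 this) ENNReal.ofReal_ne_top).ne'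
    · have : ((C0 : ℝ≥0∞) + 1) ≠ 0 := by simp
      exact (ENNReal.rpow_pos (pos_iff_ne_zero.2 this)
        (ENNReal.add_ne_top.2 ⟨ENNReal.coe_ne_top, ENNReal.one_ne_top⟩)).ne'
  refine ⟨C1, hC1t, hC10, ?_⟩
  intro g h P hP c
  by_cases hc : c = 0
  · rw [hc, abs_zero, ENNReal.ofReal_zero, ENNReal.zero_rpow_of_neg (by linarith), ENNReal.mul_top]
    · exact le_top
    · refine mul_ne_zero hC10 ?_
      have : ENNReal.ofReal P ≠ 0 := by
        rw [Ne, ENNReal.ofReal_eq_zero, not_le]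
        exact hP
      exact (ENNReal.rpow_pos (pos_iff_ne_zero.2 this) ENNReal.ofReal_ne_top).ne'
  have hc0 : 0 < |c| := abs_pos.2 hc
  set F : ℝ × ℝ → ℝ≥0∞ := fun w => ‖GG g (w.1 * c) w.2‖ₑ with hF
  have hm := GG_meas g h.meas
  have hFm : Measurable F := by
    have h1 : Measurable fun w : ℝ × ℝ => (w.1 * c, w.2) := by fun_prop
    have h2 := (hm.comp h1).enorm
    simp only [Function.comp_def] at h2
    exact h2
  set μ : Measure (ℝ × ℝ) := (volume.restrict (Ioo 0 P)).prod volume with hμ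
  have hi := interp μ F hFm.aemeasurable q p hq hqp
  have e0 : ∀ s : ℝ, ∫⁻ w, F w ^ s ∂μ = ∫⁻ ρ in Ioo 0 P, ∫⁻ t, ‖GG g (ρ * c) t‖ₑ ^ s := by
    intro s
    rw [hμ, lintegral_prod _ (hFm.pow_const s).aemeasurable]
  have e2 : ∫⁻ w, F w ^ 2 ∂μ = ∫⁻ ρ in Ioo 0 P, ∫⁻ t, ‖GG g (ρ * c) t‖ₑ ^ 2 := by
    rw [hμ, lintegral_prod _ (hFm.pow_const 2).aemeasurable]
  have h2 : ∫⁻ w, F w ^ 2 ∂μ ≤ ENNReal.ofReal (2 * Real.pi) * ENNReal.ofReal P := by
    rw [e2]
    calc _ ≤ ∫⁻ _ in Ioo 0 P, ENNReal.ofReal (2 * Real.pi) := by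
          refine lintegral_mono fun ρ => ?_
          exact GG_time h (ρ * c)
      _ = _ := by
          rw [setLIntegral_const, Real.volume_Ioo, sub_zero]
  have h3 : ∫⁻ w, F w ^ p ∂μ ≤ ENNReal.ofReal |c|⁻¹ * (C0 + 1) := by
    rw [e0, lintegral_lintegral_swap (hFm.pow_const p).aemeasurable]
    have hmt : ∀ t, Measurable fun y => ‖GG g y t‖ₑ ^ p := by
      intro t
      have h1 : Measurable fun y : ℝ => (y, t) := by fun_prop
      have h2 := ((hm.comp h1).enorm).pow_const p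
      simp only [Function.comp_def] at h2
      exact h2
    calc ∫⁻ t, ∫⁻ ρ in Ioo 0 P, ‖GG g (ρ * c) t‖ₑ ^ p
        ≤ ∫⁻ t, ENNReal.ofReal |c|⁻¹ * ∫⁻ y, ‖GG g y t‖ₑ ^ p := by
          refine lintegral_mono fun t => ?_
          refine (setLIntegral_le_lintegral _ _).trans (le_of_eq ?_)
          have h4 := lint_smul (volume : Measure ℝ) (fun y => ‖GG g y t‖ₑ ^ p) (hmt t) c hc
          simp only [smul_eq_mul, Module.finrank_self, pow_one, abs_inv] at h4
          rw [← h4]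
          refine lintegral_congr fun ρ => ?_
          rw [mul_comm]
      _ = ENNReal.ofReal |c|⁻¹ * ∫⁻ t, ∫⁻ y, ‖GG g y t‖ₑ ^ p := by
          rw [lintegral_const_mul' _ _ ENNReal.ofReal_ne_top]
      _ ≤ ENNReal.ofReal |c|⁻¹ * (C0 + 1) := by
          gcongr
          exact (hC0 g h).trans le_self_add
  rw [← e0]
  refine hi.trans ?_
  calc (∫⁻ w, F w ^ 2 ∂μ) ^ a * (∫⁻ w, F w ^ p ∂μ) ^ κ
      ≤ (ENNReal.ofReal (2 * Real.pi) * ENNReal.ofReal P) ^ a *
          (ENNReal.ofReal |c|⁻¹ * (C0 + 1)) ^ κ := by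
        gcongr
    _ = _ := by
        rw [ENNReal.mul_rpow_of_nonneg _ _ ha0.le, ENNReal.mul_rpow_of_nonneg _ _ hκ0.le,
          ENNReal.ofReal_inv_of_pos hc0, ENNReal.inv_rpow, ← ENNReal.rpow_neg, hC1]
        ring

/-- powers of the distance are integrable -/
theorem abs_pow_int (R b : ℝ) (hb : b < 1) :
    ∫⁻ y in Icc (-R) R, ENNReal.ofReal |y| ^ (-b) ≠ ∞ := by
  have h1 : IntegrableOn (fun x : ℝ => x ^ (-b)) (Ioc 0 R) := by
    rcases le_or_gt 0 R with hR | hR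
    · have := intervalIntegral.intervalIntegrable_rpow' (a := 0) (b := R) (r := -b) (by linarith)
      rwa [intervalIntegrable_iff_integrableOn_Ioc_of_le hR] at this
    · rw [Ioc_eq_empty (by linarith)]
      exact integrableOn_empty
  set G : ℝ → ℝ≥0∞ := (Ioc 0 R).indicator fun x => ENNReal.ofReal x ^ (-b) with hG
  have hGm : Measurable G := by
    refine Measurable.indicator ?_ measurableSet_Ioc
    fun_prop
  have hGt : ∫⁻ x, G x ≠ ∞ := by
    rw [hG, lintegral_indicator measurableSet_Ioc]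
    have h4 := h1.2
    unfold HasFiniteIntegral at h4
    refine ne_top_of_le_ne_top h4.ne ?_
    refine setLIntegral_mono' measurableSet_Ioc fun x hx => ?_
    have hx0 : 0 < x := hx.1
    rw [ENNReal.ofReal_rpow_of_pos hx0, Real.enorm_eq_ofReal (by positivity)]
  refine ne_top_of_le_ne_top (ENNReal.add_ne_top.2 ⟨hGt, hGt⟩) ?_
  have h6 : ∫⁻ x, G (-x) = ∫⁻ x, G x := lintegral_neg_eq_self G
  nth_rewrite 2 [← h6]
  rw [← lintegral_add_left hGm, ← lintegral_indicator measurableSet_Icc]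
  refine lintegral_mono_ae ?_
  have h5 : ∀ᵐ y : ℝ, y ≠ 0 := by
    rw [ae_iff]
    simp
  filter_upwards [h5] with y hy
  by_cases hyR : y ∈ Icc (-R) R
  · rw [indicator_of_mem hyR]
    rcases lt_or_gt_of_ne hy with h7 | h7
    · refine le_trans ?_ le_add_self
      rw [hG, indicator_of_mem (show -y ∈ Ioc 0 R from ⟨by linarith, by linarith [hyR.1]⟩),
        abs_of_neg h7]
    · refine le_trans ?_ le_self_add
      rw [hG, indicator_of_mem (show y ∈ Ioc 0 R from ⟨h7, hyR.2⟩), abs_of_pos h7]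
  · rw [indicator_of_notMem hyR]
    exact zero_le

theorem sin_near (x : ℝ) (hx : |x| ≤ 10) : ∃ k ∈ Finset.range 7,
    2 / Real.pi * |x - ((k : ℝ) - 3) * Real.pi| ≤ |Real.sin x| := by
  have hpi := Real.pi_pos
  have hpi3 := Real.pi_gt_three
  set m : ℤ := round (x / Real.pi) with hm
  have h1 : |x / Real.pi - m| ≤ 1 / 2 := abs_sub_round _
  have h2 : |x - m * Real.pi| ≤ Real.pi / 2 := by
    have : x - m * Real.pi = (x / Real.pi - m) * Real.pi := by
      field_simp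
    rw [this, abs_mul, abs_of_pos hpi]
    nlinarith
  have h3 := Real.mul_abs_le_abs_sin h2
  have h4 : |Real.sin (x - m * Real.pi)| = |Real.sin x| := by
    rw [Real.sin_sub_int_mul_pi, abs_mul, abs_zpow, abs_neg, abs_one, one_zpow, one_mul]
  rw [h4] at h3
  have h5 : |(m : ℝ)| < 4 := by
    have h6 : |x / Real.pi| < 7 / 2 := by
      rw [abs_div, abs_of_pos hpi, div_lt_iff₀ hpi]
      linarith
    have h7 : |(m : ℝ)| ≤ |x / Real.pi - m| + |x / Real.pi| := by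
      have := abs_sub_abs_le_abs_sub (m : ℝ) (x / Real.pi)
      rw [abs_sub_comm] at this
      linarith
    linarith
  rw [abs_lt] at h5
  have h8 : -4 < m := by exact_mod_cast h5.1
  have h9 : m < 4 := by exact_mod_cast h5.2
  refine ⟨(m + 3).toNat, ?_, ?_⟩
  · rw [Finset.mem_range]
    omega
  · have h10 : (((m + 3).toNat : ℕ) : ℝ) = (m : ℝ) + 3 := by
      have h11 : (((m + 3).toNat : ℕ) : ℤ) = m + 3 := Int.toNat_of_nonneg (by omega)
      have h12 : ((((m + 3).toNat : ℕ) : ℤ) : ℝ) = (((m + 3 : ℤ)) : ℝ) := by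
        rw [h11]
      rw [Int.cast_natCast] at h12
      rw [h12, Int.cast_add]
      norm_num
    rw [h10, add_sub_cancel_right]
    exact h3

theorem sin_int (b : ℝ) (hb0 : 0 ≤ b) (hb : b < 1) :
    ∫⁻ x in Icc (-10 : ℝ) 10, ENNReal.ofReal |Real.sin x| ^ (-b) ≠ ∞ := by
  have hpi := Real.pi_pos
  have hpi4 := Real.pi_lt_four
  set K := ∫⁻ y in Icc (-22 : ℝ) 22, ENNReal.ofReal |y| ^ (-b) with hK
  have hKt : K ≠ ∞ := by
    have := abs_pow_int 22 b hb
    exact this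
  have hc : ENNReal.ofReal (2 / Real.pi) ^ (-b) ≠ ∞ := by
    rw [ENNReal.rpow_neg]
    refine ENNReal.inv_ne_top.2 ?_
    have : ENNReal.ofReal (2 / Real.pi) ≠ 0 := by
      rw [Ne, ENNReal.ofReal_eq_zero, not_le]
      positivity
    exact (ENNReal.rpow_pos (pos_iff_ne_zero.2 this) ENNReal.ofReal_ne_top).ne'
  have h1 : ∀ x ∈ Icc (-10 : ℝ) 10, ENNReal.ofReal |Real.sin x| ^ (-b) ≤
      ∑ k ∈ Finset.range 7, ENNReal.ofReal (2 / Real.pi) ^ (-b) *
        ENNReal.ofReal |x - ((k : ℝ) - 3) * Real.pi| ^ (-b) := by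
    intro x hx
    obtain ⟨k, hk, hle⟩ := sin_near x (abs_le.2 hx)
    refine le_trans ?_ (Finset.single_le_sum (fun i _ => zero_le) hk)
    rw [ENNReal.rpow_neg, ENNReal.rpow_neg, ENNReal.rpow_neg, ← ENNReal.mul_inv, ENNReal.inv_le_inv,
      ← ENNReal.mul_rpow_of_nonneg _ _ hb0, ← ENNReal.ofReal_mul (by positivity)]
    · exact ENNReal.rpow_le_rpow (ENNReal.ofReal_le_ofReal hle) hb0
    · right
      exact ENNReal.rpow_ne_top_of_nonneg hb0 ENNReal.ofReal_ne_top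
    · left
      exact ENNReal.rpow_ne_top_of_nonneg hb0 ENNReal.ofReal_ne_top
  have hmk : ∀ k : ℕ, Measurable fun x : ℝ => ENNReal.ofReal |x - ((k : ℝ) - 3) * Real.pi| ^ (-b) := by
    intro k
    fun_prop
  have h2 : ∀ k ∈ Finset.range 7, ∫⁻ x in Icc (-10 : ℝ) 10,
      ENNReal.ofReal |x - ((k : ℝ) - 3) * Real.pi| ^ (-b) ≤ K := by
    intro k hk
    have hk7 : (k : ℝ) ≤ 6 := by
      have := Finset.mem_range.1 hk
      exact_mod_cast (by omega : k ≤ 6)
    have hk0 : (0 : ℝ) ≤ k := Nat.cast_nonneg k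
    rw [hK, ← lintegral_indicator measurableSet_Icc, ← lintegral_indicator measurableSet_Icc,
      ← lintegral_sub_right_eq_self ((Icc (-22 : ℝ) 22).indicator fun y => ENNReal.ofReal |y| ^ (-b))
        (((k : ℝ) - 3) * Real.pi)]
    refine lintegral_mono fun x => ?_
    by_cases hx : x ∈ Icc (-10 : ℝ) 10
    · rw [indicator_of_mem hx, indicator_of_mem]
      constructor <;> nlinarith [hx.1, hx.2]
    · rw [indicator_of_notMem hx]
      exact zero_le
  have h3 : ∫⁻ x in Icc (-10 : ℝ) 10, ENNReal.ofReal |Real.sin x| ^ (-b) ≤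
      ∑ k ∈ Finset.range 7, ENNReal.ofReal (2 / Real.pi) ^ (-b) * K := by
    refine (setLIntegral_mono' measurableSet_Icc h1).trans ?_
    rw [lintegral_finsetSum _ (fun k _ => (hmk k).const_mul _)]
    refine Finset.sum_le_sum fun k hk => ?_
    rw [lintegral_const_mul _ (hmk k)]
    gcongr
    exact h2 k hk
  refine ne_top_of_le_ne_top ?_ h3
  exact ENNReal.sum_ne_top.2 fun k _ => ENNReal.mul_ne_top hc hKt

/-- `∫ |sin (φ - θ)|^{-b} dθ` -/
theorem sin_int2 (b : ℝ) (φ : ℝ) (hφ : φ ∈ CC) :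
    ∫⁻ θ in CC, ENNReal.ofReal |Real.sin (φ - θ)| ^ (-b) ≤
      ∫⁻ x in Icc (-10 : ℝ) 10, ENNReal.ofReal |Real.sin x| ^ (-b) := by
  have hpi4 := Real.pi_lt_four
  rw [← lintegral_indicator CC_meas, ← lintegral_indicator measurableSet_Icc,
    ← lintegral_sub_left_eq_self ((Icc (-10 : ℝ) 10).indicator fun y => ENNReal.ofReal |Real.sin y| ^ (-b)) φ]
  refine lintegral_mono fun θ => ?_
  by_cases hθ : θ ∈ CC
  · rw [indicator_of_mem hθ, indicator_of_mem]
    unfold CC at hθ hφ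
    constructor <;> linarith [hθ.1, hθ.2, hφ.1, hφ.2]
  · rw [indicator_of_notMem hθ]
    exact zero_le

/-- `∫ |cos (φ - θ + u)|^{-b} dθ` -/
theorem cos_int2 (b : ℝ) (φ u : ℝ) (hφ : φ ∈ CC) (hu : u ∈ Icc (0 : ℝ) 1) :
    ∫⁻ θ in CC, ENNReal.ofReal |Real.cos (φ - θ + u)| ^ (-b) ≤
      ∫⁻ x in Icc (-10 : ℝ) 10, ENNReal.ofReal |Real.sin x| ^ (-b) := by
  have hpi4 := Real.pi_lt_d2
  have hpi0 := Real.pi_pos
  rw [← lintegral_indicator CC_meas, ← lintegral_indicator measurableSet_Icc,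
    ← lintegral_sub_left_eq_self ((Icc (-10 : ℝ) 10).indicator fun y => ENNReal.ofReal |Real.sin y| ^ (-b))
      (φ + u + Real.pi / 2)]
  refine lintegral_mono fun θ => ?_
  by_cases hθ : θ ∈ CC
  · rw [indicator_of_mem hθ, indicator_of_mem]
    · rw [show φ + u + Real.pi / 2 - θ = (φ - θ + u) + Real.pi / 2 by ring, Real.sin_add_pi_div_two]
    · unfold CC at hθ hφ
      constructor <;> linarith [hθ.1, hθ.2, hφ.1, hφ.2, hu.1, hu.2]
  · rw [indicator_of_notMem hθ]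
    exact zero_le

end Run7.h485.RR
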