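import Mathlib
import Pool.Agent.Run7.h485.RR.Avg
import Pool.Agent.Run7.h485.RR.Tri
set_option autoImplicit false

/-! # The main term -/

namespace Run7.h485.RR

open MeasureTheory Set Complex Filter Topology
open scoped ENNReal NNReal RealInnerProductSpace ComplexConjugate
open Pool.Agent.W771 Run7.h783.RV

variable {M : ℝ} {f : ℂ → ℂ} {g : ℝ → ℂ}

theorem wt_eq (b δ β : ℝ) (hb0 : 0 ≤ b) : wt b δ β = ENNReal.ofReal (2 * δ) ^ b *
    ENNReal.ofReal |Real.sin β| ^ (-b) := by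
  unfold wt
  rw [ENNReal.div_rpow_of_nonneg _ _ hb0, ENNReal.rpow_neg, div_eq_mul_inv]

theorem wt_meas (b δ : ℝ) : Measurable (wt b δ) := by
  unfold wt
  have : Measurable fun β : ℝ => ENNReal.ofReal |Real.sin β| := by fun_prop
  exact (this.const_div _).pow_const b

theorem trig_pt (b κ δ β u : ℝ) (hb0 : 0 ≤ b) (hκ0 : 0 ≤ κ) (hδ : 0 < δ) (hδ2 : δ ^ 2 ≤ 1 / 2)
    (hu : u ∈ Icc (0 : ℝ) δ) :
    wt b δ β * ENNReal.ofReal |Real.cos (β + u)| ^ (-κ) ≤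
      ENNReal.ofReal 4 ^ κ * wt b δ β +
      ENNReal.ofReal (8 * δ) ^ b * ENNReal.ofReal |Real.cos (β + u)| ^ (-κ) := by
  rcases le_or_gt (1 / 4) |Real.cos (β + u)| with h | h
  · refine le_trans ?_ le_self_add
    rw [mul_comm]
    refine mul_le_mul' ?_ le_rfl
    rw [ENNReal.rpow_neg, ← ENNReal.inv_rpow]
    refine ENNReal.rpow_le_rpow ?_ hκ0
    rw [← ENNReal.ofReal_inv_of_pos (by linarith)]
    refine ENNReal.ofReal_le_ofReal ?_
    rw [inv_le_comm₀ (by linarith) (by norm_num)]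
    linarith
  · refine le_trans ?_ le_add_self
    refine mul_le_mul' ?_ le_rfl
    unfold wt
    refine ENNReal.rpow_le_rpow ?_ hb0
    have h1 : |Real.sin (β + u) - Real.sin β| ≤ |(β + u) - β| := by
      have := Real.lipschitzWith_sin.dist_le_mul (β + u) β
      rw [Real.dist_eq, Real.dist_eq, NNReal.coe_one, one_mul] at this
      exact this
    rw [add_sub_cancel_left, abs_of_nonneg hu.1] at h1
    have h2 := abs_sub_abs_le_abs_sub (Real.sin (β + u)) (Real.sin β)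
    have h3 : (24 / 25 : ℝ) ≤ |Real.sin (β + u)| := by
      have h4 := Real.sin_sq_add_cos_sq (β + u)
      rw [← sq_abs (Real.sin (β + u)), ← sq_abs (Real.cos (β + u))] at h4
      nlinarith [abs_nonneg (Real.sin (β + u)), abs_nonneg (Real.cos (β + u))]
    have h5 : δ ≤ 71 / 100 := by nlinarith
    have h6 : 1 / 4 ≤ |Real.sin β| := by linarith [hu.2]
    rw [← ENNReal.ofReal_div_of_pos (by linarith)]
    refine ENNReal.ofReal_le_ofReal ?_
    rw [div_le_iff₀ (by linarith)]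
    nlinarith

theorem trig (b κ : ℝ) (hb0 : 0 ≤ b) (hb : b < 1) (hκ0 : 0 ≤ κ) (hκ : κ < 1) : ∃ C : ℝ≥0∞, C ≠ ∞ ∧
    ∀ δ : ℝ, 0 < δ → δ ^ 2 ≤ 1 / 2 → ∀ φ ∈ CC, ∀ u ∈ Icc (0 : ℝ) δ,
    ∫⁻ θ in CC, wt b δ (φ - θ) ≤ C * ENNReal.ofReal δ ^ b ∧
    ∫⁻ θ in CC, wt b δ (φ - θ) * ENNReal.ofReal |Real.cos (φ - θ + u)| ^ (-κ) ≤ C * ENNReal.ofReal δ ^ b := by
  set A := ∫⁻ x in Icc (-10 : ℝ) 10, ENNReal.ofReal |Real.sin x| ^ (-b) with hA
  set B := ∫⁻ x in Icc (-10 : ℝ) 10, ENNReal.ofReal |Real.sin x| ^ (-κ) with hB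
  have hAt : A ≠ ∞ := sin_int b hb0 hb
  have hBt : B ≠ ∞ := sin_int κ hκ0 hκ
  have h2b : ENNReal.ofReal 2 ^ b ≠ ∞ := ENNReal.rpow_ne_top_of_nonneg hb0 ENNReal.ofReal_ne_top
  have h8b : ENNReal.ofReal 8 ^ b ≠ ∞ := ENNReal.rpow_ne_top_of_nonneg hb0 ENNReal.ofReal_ne_top
  have h4k : ENNReal.ofReal 4 ^ κ ≠ ∞ := ENNReal.rpow_ne_top_of_nonneg hκ0 ENNReal.ofReal_ne_top
  refine ⟨ENNReal.ofReal 2 ^ b * A + (ENNReal.ofReal 4 ^ κ * (ENNReal.ofReal 2 ^ b * A) +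
    ENNReal.ofReal 8 ^ b * B), ?_, ?_⟩
  · refine ENNReal.add_ne_top.2 ⟨ENNReal.mul_ne_top h2b hAt, ENNReal.add_ne_top.2 ⟨?_, ?_⟩⟩
    · exact ENNReal.mul_ne_top h4k (ENNReal.mul_ne_top h2b hAt)
    · exact ENNReal.mul_ne_top h8b hBt
  intro δ hδ hδ2 φ hφ u hu
  have hδ1 : δ ≤ 1 := by nlinarith
  have h1 : ∫⁻ θ in CC, wt b δ (φ - θ) ≤ ENNReal.ofReal 2 ^ b * A * ENNReal.ofReal δ ^ b := by
    simp_rw [wt_eq b δ _ hb0]
    rw [lintegral_const_mul' _ _ (ENNReal.rpow_ne_top_of_nonneg hb0 ENNReal.ofReal_ne_top),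
      ENNReal.ofReal_mul (by norm_num), ENNReal.mul_rpow_of_nonneg _ _ hb0]
    calc _ ≤ ENNReal.ofReal 2 ^ b * ENNReal.ofReal δ ^ b * A := by
          gcongr
          exact sin_int2 b φ hφ
      _ = _ := by ring
  refine ⟨h1.trans ?_, ?_⟩
  · gcongr
    exact le_self_add
  have hm1 : Measurable fun θ => ENNReal.ofReal 4 ^ κ * wt b δ (φ - θ) :=
    ((wt_meas b δ).comp (measurable_const.sub measurable_id)).const_mul _
  calc ∫⁻ θ in CC, wt b δ (φ - θ) * ENNReal.ofReal |Real.cos (φ - θ + u)| ^ (-κ)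
      ≤ ∫⁻ θ in CC, (ENNReal.ofReal 4 ^ κ * wt b δ (φ - θ) +
        ENNReal.ofReal (8 * δ) ^ b * ENNReal.ofReal |Real.cos (φ - θ + u)| ^ (-κ)) := by
        refine lintegral_mono fun θ => ?_
        exact trig_pt b κ δ (φ - θ) u hb0 hκ0 hδ hδ2 hu
    _ = ENNReal.ofReal 4 ^ κ * (∫⁻ θ in CC, wt b δ (φ - θ)) +
        ENNReal.ofReal (8 * δ) ^ b * ∫⁻ θ in CC, ENNReal.ofReal |Real.cos (φ - θ + u)| ^ (-κ) := by
        rw [lintegral_add_left hm1, lintegral_const_mul' _ _ h4k,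
          lintegral_const_mul' _ _ (ENNReal.rpow_ne_top_of_nonneg hb0 ENNReal.ofReal_ne_top)]
    _ ≤ ENNReal.ofReal 4 ^ κ * (ENNReal.ofReal 2 ^ b * A * ENNReal.ofReal δ ^ b) +
        (ENNReal.ofReal 8 ^ b * ENNReal.ofReal δ ^ b) * B := by
        rw [ENNReal.ofReal_mul (by norm_num : (0 : ℝ) ≤ 8), ENNReal.mul_rpow_of_nonneg _ _ hb0]
        gcongr
        exact cos_int2 κ φ u hφ ⟨hu.1, hu.2.trans hδ1⟩
    _ = (ENNReal.ofReal 4 ^ κ * (ENNReal.ofReal 2 ^ b * A) + ENNReal.ofReal 8 ^ b * B) *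
          ENNReal.ofReal δ ^ b := by ring
    _ ≤ _ := mul_le_mul' le_add_self le_rfl

/-- the measure on the angles of the average -/
noncomputable def nu (δ : ℝ) : Measure ℝ :=
  (2 : ℝ≥0) • Measure.dirac δ + Measure.dirac 0 + (Real.toNNReal (3 / δ)) • volume.restrict (Ioc 0 δ)

instance nu_fin (δ : ℝ) : IsFiniteMeasure (nu δ) := by
  unfold nu
  have : IsFiniteMeasure (volume.restrict (Ioc (0 : ℝ) δ)) := by
    refine ⟨?_⟩
    rw [Measure.restrict_apply_univ, Real.volume_Ioc]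
    exact ENNReal.ofReal_lt_top
  infer_instance

theorem nu_lint (δ : ℝ) (F : ℝ → ℝ≥0∞) : ∫⁻ u, F u ∂(nu δ) =
    2 * F δ + F 0 + ENNReal.ofReal (3 / δ) * ∫⁻ u in Ioc 0 δ, F u := by
  unfold nu
  rw [lintegral_add_measure, lintegral_add_measure]
  simp only [Measure.nnreal_smul_coe_apply, lintegral_smul_measure, lintegral_dirac]
  simp only [ENNReal.smul_def, smul_eq_mul]
  rfl

theorem nu_mass (δ : ℝ) (hδ : 0 < δ) : ∫⁻ _, 1 ∂(nu δ) = 6 := by
  rw [nu_lint, setLIntegral_const, Real.volume_Ioc, sub_zero, mul_one, one_mul,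
    ← ENNReal.ofReal_mul (by positivity), div_mul_cancel₀ _ hδ.ne']
  norm_num

theorem nu_ae (δ : ℝ) (hδ : 0 < δ) : ∀ᵐ u ∂(nu δ), u ∈ Icc (0 : ℝ) δ := by
  unfold nu
  rw [ae_add_measure_iff, ae_add_measure_iff]
  refine ⟨⟨?_, ?_⟩, ?_⟩
  · refine Measure.ae_smul_measure ?_ (2 : ℝ≥0)
    rw [ae_dirac_eq]
    exact ⟨hδ.le, le_rfl⟩
  · rw [ae_dirac_eq]
    exact ⟨le_rfl, hδ.le⟩
  · refine Measure.ae_smul_measure ?_ (Real.toNNReal (3 / δ))
    refine (ae_restrict_iff' measurableSet_Ioc).2 (Eventually.of_forall fun u hu => ?_)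
    exact ⟨hu.1.le, hu.2⟩

/-- the integrand -/
noncomputable def ZZ (f : ℂ → ℂ) (φ θ u ρ t : ℝ) : ℝ≥0∞ :=
  ‖GG (fun r => f (r • om θ)) (ρ * Real.cos (φ - θ + u)) t‖ₑ +
    ‖GG (fun r => (r : ℂ) * f (r • om θ)) (ρ * Real.cos (φ - θ + u)) t‖ₑ

theorem ZZ_meas (hf : Measurable f) (φ : ℝ) : Measurable fun w : (ℝ × ℝ) × (ℝ × ℝ) =>
    ZZ f φ w.1.1 w.1.2 w.2.1 w.2.2 := by
  unfold ZZ
  have h1 : Measurable fun w : (ℝ × ℝ) × (ℝ × ℝ) =>
      (w.1.1, w.2.1 * Real.cos (φ - w.1.1 + w.1.2), w.2.2) := by fun_prop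
  have h2 := ((GGo_meas hf).comp h1).enorm
  have h3 := ((GGr_meas hf).comp h1).enorm
  simp only [Function.comp_def] at h2 h3
  exact h2.add h3

/-- the pointwise bound -/
theorem avg_pt (h : BB 1 1 f) (hs : ∀ x : ℂ, ‖x‖ < 1 / 2 → f x = 0) (t ρ φ δ b : ℝ) (hρ : 0 < ρ)
    (hδ : 0 < δ) (hρδ : 1 / 2 ≤ ρ * δ ^ 2) (hb0 : 0 < b) (hb : b ≤ 1) :
    ‖EC (avg δ f) t (ρ • om φ)‖ₑ ≤
      ∫⁻ θ in CC, wt b δ (φ - θ) * ∫⁻ u, ZZ f φ θ u ρ t ∂(nu δ) := by
  have hfin : IsFiniteMeasure (volume.restrict (Ioc (0 : ℝ) δ)) := by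
    refine ⟨?_⟩
    rw [Measure.restrict_apply_univ, Real.volume_Ioc]
    exact ENNReal.ofReal_lt_top
  have hfin2 : IsFiniteMeasure (volume.restrict CC) := by
    refine ⟨?_⟩
    rw [Measure.restrict_apply_univ, CC_vol]
    exact ENNReal.ofReal_lt_top
  set k : ℝ → ℝ → ℂ := fun u θ => GG (fun r => (r : ℂ) * f (r • om θ)) (ρ * Real.cos (φ - θ + u)) t with hk
  have hkm : Measurable (Function.uncurry k) := by
    have h1 : Measurable fun w : ℝ × ℝ => (w.2, ρ * Real.cos (φ - w.2 + w.1), t) := by fun_prop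
    have h2 := (GGr_meas h.meas).comp h1
    simp only [Function.comp_def] at h2
    exact h2
  have hkb : ∀ u θ, ‖k u θ‖ ≤ 1 := by
    intro u θ
    have hn := nice h hs θ
    rw [hk]
    simp only
    rw [← GG_indr]
    unfold GG
    have h2 : Integrable ((Icc (1 / 2 : ℝ) 1).indicator fun _ => (1 : ℝ)) (volume.restrict (Ioi (0 : ℝ))) := by
      refine Integrable.mono_measure ?_ Measure.restrict_le_self
      rw [integrable_indicator_iff measurableSet_Icc]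
      exact integrableOn_const (by rw [Real.volume_Icc]; exact ENNReal.ofReal_ne_top)
    refine (norm_integral_le_of_norm_le h2 (Eventually.of_forall fun r => ?_)).trans ?_
    · rw [norm_mul, Complex.norm_exp_ofReal_mul_I, mul_one]
      by_cases hr : r ∈ Icc (1 / 2 : ℝ) 1
      · rw [indicator_of_mem hr]
        exact hn.mulr.bd r
      · rw [indicator_of_notMem hr]
        have h7 : (r : ℂ) * (Ioi (0 : ℝ)).indicator (fun r => f (r • om θ)) r = 0 := hn.mulr.supp r hr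
        simp only [h7, norm_zero, le_refl]
    · have h4 : Icc (1 / 2 : ℝ) 1 ⊆ Ioi 0 := fun x hx => lt_of_lt_of_le (by norm_num) hx.1
      rw [setIntegral_indicator measurableSet_Icc, setIntegral_const, inter_eq_right.2 h4,
        Measure.real, Real.volume_Icc, smul_eq_mul, ENNReal.toReal_ofReal (by norm_num)]
      norm_num
  have hki : Integrable (Function.uncurry k) ((volume.restrict (Ioc 0 δ)).prod (volume.restrict CC)) :=
    Integrable.of_bound hkm.aestronglyMeasurable 1 (Eventually.of_forall fun p => hkb p.1 p.2)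
  have e1 : EC (avg δ f) t (ρ • om φ) = ∫ θ in CC, ((δ⁻¹ : ℝ) : ℂ) * ∫ u in (0 : ℝ)..δ, k u θ := by
    rw [EC_avg h δ hδ, integral_const_mul]
    congr 1
    simp_rw [intervalIntegral.integral_of_le hδ.le]
    rw [← integral_integral_swap hki]
    refine setIntegral_congr_fun measurableSet_Ioc fun u _ => ?_
    try simp only
    have e2 : om u * (ρ • om φ) = ρ • om (φ + u) := by
      rw [om_add, mul_smul_comm, mul_comm]
    rw [e2, EC_pol h]
    refine setIntegral_congr_fun CC_meas fun θ _ => ?_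
    simp only [hk]
    rw [show φ + u - θ = φ - θ + u by ring]
  rw [e1]
  refine (enorm_integral_le_lintegral_enorm _).trans ?_
  refine lintegral_mono fun θ => ?_
  have hn := nice h hs θ
  have h5 := ibp3 hn t ρ (φ - θ) δ b hρ hδ hρδ hb0 hb
  simp_rw [GG_ind, GG_indr] at h5
  rw [enorm_mul]
  have e3 : ‖((δ⁻¹ : ℝ) : ℂ)‖ₑ = ENNReal.ofReal (1 / δ) := by
    rw [← ofReal_norm, Complex.norm_real, Real.norm_of_nonneg (by positivity), one_div]
  rw [e3]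
  refine h5.trans ?_
  refine mul_le_mul' le_rfl ?_
  rw [nu_lint]
  unfold ZZ
  simp only [add_zero]
  have hm1 : Measurable fun u => ‖GG (fun r => f (r • om θ)) (ρ * Real.cos (φ - θ + u)) t‖ₑ := by
    have h1 : Measurable fun u : ℝ => (θ, ρ * Real.cos (φ - θ + u), t) := by fun_prop
    have h2 := ((GGo_meas h.meas).comp h1).enorm
    simp only [Function.comp_def] at h2
    exact h2
  rw [lintegral_add_left hm1]
  set A := ‖GG (fun r => f (r • om θ)) (ρ * Real.cos (φ - θ + δ)) t‖ₑ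
  set B := ‖GG (fun r => f (r • om θ)) (ρ * Real.cos (φ - θ)) t‖ₑ
  set A1 := ‖GG (fun r => (r : ℂ) * f (r • om θ)) (ρ * Real.cos (φ - θ + δ)) t‖ₑ
  set B1 := ‖GG (fun r => (r : ℂ) * f (r • om θ)) (ρ * Real.cos (φ - θ)) t‖ₑ
  set N := ∫⁻ u in Ioc 0 δ, ‖GG (fun r => f (r • om θ)) (ρ * Real.cos (φ - θ + u)) t‖ₑ
  set N1 := ∫⁻ u in Ioc 0 δ, ‖GG (fun r => (r : ℂ) * f (r • om θ)) (ρ * Real.cos (φ - θ + u)) t‖ₑ
  have e4 : ENNReal.ofReal (3 / δ) = 3 * ENNReal.ofReal (1 / δ) := by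
    rw [show (3 : ℝ≥0∞) = ENNReal.ofReal 3 by norm_num, ← ENNReal.ofReal_mul (by norm_num)]
    congr 1
    ring
  rw [e4]
  calc 2 * A + B + 2 * (ENNReal.ofReal (1 / δ) * N) + ENNReal.ofReal (1 / δ) * N1
      ≤ 2 * A + B + 2 * (ENNReal.ofReal (1 / δ) * N) + ENNReal.ofReal (1 / δ) * N1 +
        (2 * A1 + B1 + ENNReal.ofReal (1 / δ) * N + 2 * (ENNReal.ofReal (1 / δ) * N1)) := le_self_add
    _ = _ := by ring

end Run7.h485.RR
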