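import Mathlib
import Pool.Agent.Run7.h485.RR.Main
set_option autoImplicit false

/-! # The main term -/

namespace Run7.h485.RR

open MeasureTheory Set Complex Filter Topology
open scoped ENNReal NNReal RealInnerProductSpace ComplexConjugate
open Pool.Agent.W771 Run7.h783.RV

variable {M : ℝ} {f : ℂ → ℂ} {g : ℝ → ℂ}

/-- the annulus -/
def An (P : ℝ) : Set ℂ := {ξ : ℂ | P / 2 ≤ ‖ξ‖ ∧ ‖ξ‖ < P}

theorem An_meas (P : ℝ) : MeasurableSet (An P) :=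
  (measurableSet_le measurable_const measurable_norm).inter
    (measurableSet_lt measurable_norm measurable_const)

theorem An_pol (P : ℝ) (H : ℂ → ℝ≥0∞) (hH : Measurable H) :
    ∫⁻ ξ in An P, H ξ ≤ ENNReal.ofReal P * ∫⁻ φ in CC, ∫⁻ ρ in Ico (P / 2) P ∩ Ioi 0, H (ρ • om φ) := by
  rw [← lintegral_indicator (An_meas P), polar_L _ (hH.indicator (An_meas P)),
    ← lintegral_const_mul' _ _ ENNReal.ofReal_ne_top]
  refine lintegral_mono fun φ => ?_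
  rw [← lintegral_const_mul' _ _ ENNReal.ofReal_ne_top, ← Measure.restrict_restrict measurableSet_Ico,
    ← lintegral_indicator measurableSet_Ico]
  refine setLIntegral_mono' measurableSet_Ioi fun ρ hρ => ?_
  have hρ0 : (0 : ℝ) < ρ := hρ
  by_cases h : ρ ∈ Ico (P / 2) P
  · rw [indicator_of_mem h]
    refine mul_le_mul' (ENNReal.ofReal_le_ofReal h.2.le) (indicator_le_self _ _ _)
  · rw [indicator_of_notMem h, indicator_of_notMem, mul_zero]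
    intro hc
    have : P / 2 ≤ ‖ρ • om φ‖ ∧ ‖ρ • om φ‖ < P := hc
    rw [norm_r_om _ _ hρ0.le] at this
    exact h this

/-- the bound for the integrand -/
theorem ZZ_int (q p : ℝ) (hq : 2 < q) (hqp : q < p) (hp : 4 < p) : ∃ C : ℝ≥0∞, C ≠ ∞ ∧
    ∀ f : ℂ → ℂ, BB 1 1 f → (∀ x : ℂ, ‖x‖ < 1 / 2 → f x = 0) → ∀ P : ℝ, 0 < P → ∀ φ θ u : ℝ,
    ∫⁻ ρ in Ico (P / 2) P ∩ Ioi 0, ∫⁻ t, ZZ f φ θ u ρ t ^ q ≤
      C * ENNReal.ofReal P ^ ((p - q) / (p - 2)) *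
        ENNReal.ofReal |Real.cos (φ - θ + u)| ^ (-((q - 2) / (p - 2))) := by
  obtain ⟨C0, hC0t, hC00, hC0⟩ := GG_line q p hq hqp hp
  have hq0 : 0 < q := by linarith
  refine ⟨2 ^ (q - 1) * (C0 + C0), ENNReal.mul_ne_top (ENNReal.rpow_ne_top_of_nonneg (by linarith)
    (by norm_num)) (ENNReal.add_ne_top.2 ⟨hC0t, hC0t⟩), ?_⟩
  intro f h hs P hP φ θ u
  have hn := nice h hs θ
  set c := Real.cos (φ - θ + u) with hc
  have hsub : Ico (P / 2) P ∩ Ioi 0 ⊆ Ioo 0 P := fun x hx => ⟨hx.2, hx.1.2⟩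
  have hX := hC0 _ hn P hP c
  have hY := hC0 _ hn.mulr P hP c
  simp_rw [GG_ind] at hX
  simp_rw [GG_indr] at hY
  have hmX : Measurable fun w : ℝ × ℝ => ‖GG (fun r => f (r • om θ)) (w.1 * c) w.2‖ₑ ^ q := by
    have h1 : Measurable fun w : ℝ × ℝ => (θ, w.1 * c, w.2) := by fun_prop
    have h2 := (((GGo_meas h.meas).comp h1).enorm).pow_const q
    simp only [Function.comp_def] at h2
    exact h2
  have h2t : (2 : ℝ≥0∞) ^ (q - 1) ≠ ∞ := ENNReal.rpow_ne_top_of_nonneg (by linarith) (by norm_num)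
  have hmX1 : ∀ ρ, Measurable fun t => ‖GG (fun r => f (r • om θ)) (ρ * c) t‖ₑ ^ q := by
    intro ρ
    have h1 : Measurable fun t : ℝ => (ρ, t) := by fun_prop
    have h2 := hmX.comp h1
    simp only [Function.comp_def] at h2
    exact h2
  calc ∫⁻ ρ in Ico (P / 2) P ∩ Ioi 0, ∫⁻ t, ZZ f φ θ u ρ t ^ q
      ≤ ∫⁻ ρ in Ioo 0 P, ∫⁻ t, ZZ f φ θ u ρ t ^ q := lintegral_mono_set hsub
    _ ≤ ∫⁻ ρ in Ioo 0 P, ∫⁻ t, 2 ^ (q - 1) * (‖GG (fun r => f (r • om θ)) (ρ * c) t‖ₑ ^ q +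
          ‖GG (fun r => (r : ℂ) * f (r • om θ)) (ρ * c) t‖ₑ ^ q) := by
        refine lintegral_mono fun ρ => lintegral_mono fun t => ?_
        unfold ZZ
        exact ENNReal.rpow_add_le_mul_rpow_add_rpow _ _ (by linarith)
    _ = 2 ^ (q - 1) * ((∫⁻ ρ in Ioo 0 P, ∫⁻ t, ‖GG (fun r => f (r • om θ)) (ρ * c) t‖ₑ ^ q) +
          ∫⁻ ρ in Ioo 0 P, ∫⁻ t, ‖GG (fun r => (r : ℂ) * f (r • om θ)) (ρ * c) t‖ₑ ^ q) := by
        rw [← lintegral_add_left hmX.lintegral_prod_right', ← lintegral_const_mul' _ _ h2t]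
        refine lintegral_congr fun ρ => ?_
        rw [lintegral_const_mul' _ _ h2t, lintegral_add_left (hmX1 ρ)]
    _ ≤ 2 ^ (q - 1) * (C0 * ENNReal.ofReal P ^ ((p - q) / (p - 2)) * ENNReal.ofReal |c| ^ (-((q - 2) / (p - 2))) +
          C0 * ENNReal.ofReal P ^ ((p - q) / (p - 2)) * ENNReal.ofReal |c| ^ (-((q - 2) / (p - 2)))) := by
        gcongr
    _ = _ := by ring

/-- the measure on the pairs of angles -/
noncomputable def mu2 (δ : ℝ) : Measure (ℝ × ℝ) := (volume.restrict CC).prod (nu δ)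

instance (δ : ℝ) : SFinite (mu2 δ) := by unfold mu2; infer_instance

/-- the measure on the rays -/
noncomputable def mu3 (P : ℝ) : Measure (ℝ × ℝ) := (volume.restrict (Ico (P / 2) P ∩ Ioi 0)).prod volume

instance (P : ℝ) : SFinite (mu3 P) := by unfold mu3; infer_instance

theorem W_meas (b δ φ : ℝ) : Measurable fun w : ℝ × ℝ => wt b δ (φ - w.1) :=
  (wt_meas b δ).comp (by fun_prop)

theorem Z2_meas (hf : Measurable f) (φ ρ t : ℝ) : Measurable fun w : ℝ × ℝ => ZZ f φ w.1 w.2 ρ t := by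
  have h1 : Measurable fun w : ℝ × ℝ => (w, (ρ, t)) := by fun_prop
  have h2 := (ZZ_meas hf φ).comp h1
  simp only [Function.comp_def] at h2
  exact h2

theorem Z3_meas (hf : Measurable f) (φ θ u : ℝ) : Measurable fun w : ℝ × ℝ => ZZ f φ θ u w.1 w.2 := by
  have h1 : Measurable fun w : ℝ × ℝ => ((θ, u), w) := by fun_prop
  have h2 := (ZZ_meas hf φ).comp h1
  simp only [Function.comp_def] at h2
  exact h2

theorem mu2_mass (b δ φ : ℝ) (hδ : 0 < δ) : ∫⁻ w, wt b δ (φ - w.1) ∂(mu2 δ) =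
    6 * ∫⁻ θ in CC, wt b δ (φ - θ) := by
  unfold mu2
  rw [lintegral_prod _ (W_meas b δ φ).aemeasurable, ← lintegral_const_mul' _ _ (by norm_num)]
  refine lintegral_congr fun θ => ?_
  have := nu_mass δ hδ
  rw [lintegral_one] at this
  simp only
  rw [lintegral_const, this, mul_comm]

theorem ray_pt (q b : ℝ) (hq : 2 < q) (hb0 : 0 < b) (hb : b < 1) (h : BB 1 1 f)
    (hs : ∀ x : ℂ, ‖x‖ < 1 / 2 → f x = 0) (P δ : ℝ) (hδ : 0 < δ)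
    (hPδ : 1 ≤ P * δ ^ 2) (φ : ℝ) (w : ℝ × ℝ) (hw : w.1 ∈ Ico (P / 2) P ∩ Ioi 0) :
    ‖EC (avg δ f) w.2 (w.1 • om φ)‖ₑ ^ q ≤
      (6 * ∫⁻ θ in CC, wt b δ (φ - θ)) ^ (q - 1) *
        ∫⁻ v, wt b δ (φ - v.1) * ZZ f φ v.1 v.2 w.1 w.2 ^ q ∂(mu2 δ) := by
  have hρ0 : 0 < w.1 := hw.2
  have h1 := avg_pt h hs w.2 w.1 φ δ b hρ0 hδ (by nlinarith [hw.1.1, sq_nonneg δ]) hb0 hb.le
  have hmm : Measurable fun v : ℝ × ℝ => wt b δ (φ - v.1) * ZZ f φ v.1 v.2 w.1 w.2 :=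
    (W_meas b δ φ).mul (Z2_meas h.meas φ w.1 w.2)
  have e1 : ∫⁻ θ in CC, wt b δ (φ - θ) * ∫⁻ u, ZZ f φ θ u w.1 w.2 ∂(nu δ) =
      ∫⁻ v, wt b δ (φ - v.1) * ZZ f φ v.1 v.2 w.1 w.2 ∂(mu2 δ) := by
    unfold mu2
    rw [lintegral_prod _ hmm.aemeasurable]
    refine lintegral_congr fun θ => ?_
    simp only
    rw [lintegral_const_mul]
    have h1 : Measurable fun u : ℝ => (θ, u) := by fun_prop
    have h2 := (Z2_meas h.meas φ w.1 w.2).comp h1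
    simp only [Function.comp_def] at h2
    exact h2
  rw [e1] at h1
  refine (ENNReal.rpow_le_rpow h1 (by linarith)).trans ?_
  rw [← mu2_mass b δ φ hδ]
  exact jens (mu2 δ) (fun v => wt b δ (φ - v.1)) (fun v => ZZ f φ v.1 v.2 w.1 w.2)
    (W_meas b δ φ).aemeasurable (Z2_meas h.meas φ w.1 w.2).aemeasurable q (by linarith)

theorem swapW (hf : Measurable f) (q b P δ φ : ℝ) :
    ∫⁻ w, ∫⁻ v, wt b δ (φ - v.1) * ZZ f φ v.1 v.2 w.1 w.2 ^ q ∂(mu2 δ) ∂(mu3 P) =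
    ∫⁻ v, wt b δ (φ - v.1) * ∫⁻ w, ZZ f φ v.1 v.2 w.1 w.2 ^ q ∂(mu3 P) ∂(mu2 δ) := by
  have hWZ : Measurable fun w : (ℝ × ℝ) × (ℝ × ℝ) => wt b δ (φ - w.2.1) * ZZ f φ w.2.1 w.2.2 w.1.1 w.1.2 ^ q := by
    have h1 : Measurable fun w : (ℝ × ℝ) × (ℝ × ℝ) => wt b δ (φ - w.2.1) :=
      (W_meas b δ φ).comp measurable_snd
    have h2 := ((ZZ_meas hf φ).comp (measurable_swap : Measurable (Prod.swap : (ℝ × ℝ) × (ℝ × ℝ) → _))).pow_const q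
    simp only [Function.comp_def, Prod.fst_swap, Prod.snd_swap] at h2
    exact h1.mul h2
  rw [lintegral_lintegral_swap hWZ.aemeasurable]
  refine lintegral_congr fun v => ?_
  exact lintegral_const_mul _ ((Z3_meas hf φ v.1 v.2).pow_const q)

theorem cos_mu2 (b κ δ φ : ℝ) (hδ : 0 < δ) (K : ℝ≥0∞)
    (hK : ∀ u ∈ Icc (0 : ℝ) δ, ∫⁻ θ in CC, wt b δ (φ - θ) * ENNReal.ofReal |Real.cos (φ - θ + u)| ^ (-κ) ≤ K) :
    ∫⁻ v, wt b δ (φ - v.1) * ENNReal.ofReal |Real.cos (φ - v.1 + v.2)| ^ (-κ) ∂(mu2 δ) ≤ 6 * K := by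
  have hcm : Measurable fun v : ℝ × ℝ => ENNReal.ofReal |Real.cos (φ - v.1 + v.2)| ^ (-κ) := by fun_prop
  have hmm : Measurable fun v : ℝ × ℝ => wt b δ (φ - v.1) * ENNReal.ofReal |Real.cos (φ - v.1 + v.2)| ^ (-κ) :=
    (W_meas b δ φ).mul hcm
  unfold mu2
  rw [lintegral_prod_symm _ hmm.aemeasurable]
  have h6 : ∫⁻ _, K ∂(nu δ) = 6 * K := by
    have := nu_mass δ hδ
    rw [lintegral_one] at this
    rw [lintegral_const, this, mul_comm]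
  rw [← h6]
  refine lintegral_mono_ae ?_
  filter_upwards [nu_ae δ hδ] with u hu
  exact hK u hu

/-- the estimate on a ray -/
theorem ray_est (q p b : ℝ) (hq : 2 < q) (hqp : q < p) (hp : 4 < p) (hq4 : q ≤ 4) (hb0 : 0 < b) (hb : b < 1) :
    ∃ C : ℝ≥0∞, C ≠ ∞ ∧
    ∀ f : ℂ → ℂ, BB 1 1 f → (∀ x : ℂ, ‖x‖ < 1 / 2 → f x = 0) → ∀ P δ : ℝ, 0 < P → 0 < δ → δ ^ 2 ≤ 1 / 2 →
      1 ≤ P * δ ^ 2 → ∀ φ ∈ CC,
    ∫⁻ ρ in Ico (P / 2) P ∩ Ioi 0, ∫⁻ t, ‖EC (avg δ f) t (ρ • om φ)‖ₑ ^ q ≤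
      C * ENNReal.ofReal δ ^ (b * q) * ENNReal.ofReal P ^ ((p - q) / (p - 2)) := by
  obtain ⟨C0, hC0t, hC0⟩ := ZZ_int q p hq hqp hp
  have hq0 : 0 < q := by linarith
  have hp2 : 0 < p - 2 := by linarith
  have ha0 : 0 < (p - q) / (p - 2) := div_pos (by linarith) hp2
  have hκ0 : 0 < (q - 2) / (p - 2) := div_pos (by linarith) hp2
  have hκ1 : (q - 2) / (p - 2) < 1 := by
    rw [div_lt_one hp2]
    linarith
  obtain ⟨C1, hC1t, hC1⟩ := trig b ((q - 2) / (p - 2)) hb0.le hb hκ0.le hκ1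
  refine ⟨(6 * C1) ^ (q - 1) * (C0 * (6 * C1)), ?_, ?_⟩
  · have h6 : 6 * C1 ≠ ∞ := ENNReal.mul_ne_top (by norm_num) hC1t
    exact ENNReal.mul_ne_top (ENNReal.rpow_ne_top_of_nonneg (by linarith) h6) (ENNReal.mul_ne_top hC0t h6)
  intro f h hs P δ hP hδ hδ2 hPδ φ hφ
  have hEm : Measurable fun w : ℝ × ℝ => ‖EC (avg δ f) w.2 (w.1 • om φ)‖ₑ ^ q := by
    have h1 : Measurable fun w : ℝ × ℝ => (w.2, w.1 • om φ) := by fun_prop
    have h2 := (((EC_meas _ (avg_BB h δ hδ).meas).comp h1).enorm).pow_const q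
    simp only [Function.comp_def] at h2
    exact h2
  have hδb : ENNReal.ofReal δ ^ b ≠ ∞ := ENNReal.rpow_ne_top_of_nonneg hb0.le ENNReal.ofReal_ne_top
  have hΩ : 6 * ∫⁻ θ in CC, wt b δ (φ - θ) ≤ 6 * C1 * ENNReal.ofReal δ ^ b := by
    rw [mul_assoc]
    exact mul_le_mul' le_rfl (hC1 δ hδ hδ2 φ hφ 0 ⟨le_rfl, hδ.le⟩).1
  have hKt : (6 * C1 * ENNReal.ofReal δ ^ b) ^ (q - 1) ≠ ∞ :=
    ENNReal.rpow_ne_top_of_nonneg (by linarith) (ENNReal.mul_ne_top (ENNReal.mul_ne_top (by norm_num) hC1t) hδb)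
  have hPt : C0 * ENNReal.ofReal P ^ ((p - q) / (p - 2)) ≠ ∞ := ENNReal.mul_ne_top hC0t
    (ENNReal.rpow_ne_top_of_nonneg ha0.le ENNReal.ofReal_ne_top)
  have s1 : ∫⁻ ρ in Ico (P / 2) P ∩ Ioi 0, ∫⁻ t, ‖EC (avg δ f) t (ρ • om φ)‖ₑ ^ q =
      ∫⁻ w, ‖EC (avg δ f) w.2 (w.1 • om φ)‖ₑ ^ q ∂(mu3 P) := by
    unfold mu3
    rw [lintegral_prod _ hEm.aemeasurable]
  have s2 : ∫⁻ w, ‖EC (avg δ f) w.2 (w.1 • om φ)‖ₑ ^ q ∂(mu3 P) ≤
      ∫⁻ w, (6 * C1 * ENNReal.ofReal δ ^ b) ^ (q - 1) *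
          ∫⁻ v, wt b δ (φ - v.1) * ZZ f φ v.1 v.2 w.1 w.2 ^ q ∂(mu2 δ) ∂(mu3 P) := by
    refine lintegral_mono_ae ?_
    have : ∀ᵐ w ∂(mu3 P), w.1 ∈ Ico (P / 2) P ∩ Ioi 0 := by
      unfold mu3
      have h1 : ∀ᵐ ρ ∂(volume.restrict (Ico (P / 2) P ∩ Ioi 0)), ρ ∈ Ico (P / 2) P ∩ Ioi 0 :=
        ae_restrict_mem (measurableSet_Ico.inter measurableSet_Ioi)
      exact Measure.quasiMeasurePreserving_fst.ae h1
    filter_upwards [this] with w hw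
    refine (ray_pt q b hq hb0 hb h hs P δ hδ hPδ φ w hw).trans ?_
    exact mul_le_mul' (ENNReal.rpow_le_rpow hΩ (by linarith)) le_rfl
  have s3 : ∀ v : ℝ × ℝ, ∫⁻ w, ZZ f φ v.1 v.2 w.1 w.2 ^ q ∂(mu3 P) ≤
      C0 * ENNReal.ofReal P ^ ((p - q) / (p - 2)) *
        ENNReal.ofReal |Real.cos (φ - v.1 + v.2)| ^ (-((q - 2) / (p - 2))) := by
    intro v
    unfold mu3
    rw [lintegral_prod _ ((Z3_meas h.meas φ v.1 v.2).pow_const q).aemeasurable]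
    exact hC0 f h hs P hP φ v.1 v.2
  have s4 : ∫⁻ v, wt b δ (φ - v.1) * ∫⁻ w, ZZ f φ v.1 v.2 w.1 w.2 ^ q ∂(mu3 P) ∂(mu2 δ) ≤
      C0 * ENNReal.ofReal P ^ ((p - q) / (p - 2)) * (6 * (C1 * ENNReal.ofReal δ ^ b)) := by
    calc ∫⁻ v, wt b δ (φ - v.1) * ∫⁻ w, ZZ f φ v.1 v.2 w.1 w.2 ^ q ∂(mu3 P) ∂(mu2 δ)
        ≤ ∫⁻ v, C0 * ENNReal.ofReal P ^ ((p - q) / (p - 2)) *
            (wt b δ (φ - v.1) * ENNReal.ofReal |Real.cos (φ - v.1 + v.2)| ^ (-((q - 2) / (p - 2)))) ∂(mu2 δ) := by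
          refine lintegral_mono fun v => ?_
          refine (mul_le_mul' le_rfl (s3 v)).trans (le_of_eq ?_)
          ring
      _ = C0 * ENNReal.ofReal P ^ ((p - q) / (p - 2)) *
            ∫⁻ v, wt b δ (φ - v.1) * ENNReal.ofReal |Real.cos (φ - v.1 + v.2)| ^ (-((q - 2) / (p - 2))) ∂(mu2 δ) :=
          lintegral_const_mul' _ _ hPt
      _ ≤ _ := by
          refine mul_le_mul' le_rfl ?_
          exact cos_mu2 b _ δ φ hδ _ (fun u hu => (hC1 δ hδ hδ2 φ hφ u hu).2)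
  have e2 : ENNReal.ofReal δ ^ (b * q) = (ENNReal.ofReal δ ^ b) ^ (q - 1) * ENNReal.ofReal δ ^ b := by
    have h1 : (ENNReal.ofReal δ ^ b) ^ (q - 1) * (ENNReal.ofReal δ ^ b) ^ (1 : ℝ) =
        ENNReal.ofReal δ ^ (b * q) := by
      rw [← ENNReal.rpow_add_of_nonneg _ _ (by linarith) zero_le_one, sub_add_cancel,
        ← ENNReal.rpow_mul]
    rw [ENNReal.rpow_one] at h1
    exact h1.symm
  rw [s1]
  refine s2.trans ?_
  rw [lintegral_const_mul' _ _ hKt, swapW h.meas]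
  refine (mul_le_mul' le_rfl s4).trans (le_of_eq ?_)
  rw [e2, ENNReal.mul_rpow_of_nonneg _ _ (by linarith)]
  ring

/-- **the main term** -/
theorem main_est (q : ℝ) (hq : 3 < q) (hq4 : q < 4) : ∃ C : ℝ≥0∞, C ≠ ∞ ∧
    ∀ f : ℂ → ℂ, BB 1 1 f → (∀ x : ℂ, ‖x‖ < 1 / 2 → f x = 0) → ∀ P : ℝ, 2 ≤ P →
    ∫⁻ t, ∫⁻ ξ in An P, ‖EC (avg (√P)⁻¹ f) t ξ‖ₑ ^ q ≤ C * ENNReal.ofReal (P ^ (-((q - 3) / 2))) := by
  set η : ℝ := (q - 3) / 5 with hη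
  have hη0 : 0 < η := by rw [hη]; linarith
  have hη1 : η < 1 / 5 := by rw [hη]; linarith
  obtain ⟨C, hCt, hC⟩ := ray_est q (4 + η) (1 - η) (by linarith) (by linarith) (by linarith) hq4.le
    (by linarith) (by linarith)
  have hpi := Real.pi_pos
  refine ⟨ENNReal.ofReal (2 * Real.pi) * C, ENNReal.mul_ne_top ENNReal.ofReal_ne_top hCt, ?_⟩
  intro f h hs P hP
  have hP0 : 0 < P := by linarith
  set δ : ℝ := (√P)⁻¹ with hδ
  have hsq : 0 < √P := Real.sqrt_pos.2 hP0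
  have hδ0 : 0 < δ := inv_pos.2 hsq
  have hδsq : δ ^ 2 = P⁻¹ := by
    rw [hδ, inv_pow, Real.sq_sqrt hP0.le]
  have hδ2 : δ ^ 2 ≤ 1 / 2 := by
    rw [hδsq, inv_le_comm₀ hP0 (by norm_num)]
    linarith
  have hPδ : 1 ≤ P * δ ^ 2 := by
    rw [hδsq, mul_inv_cancel₀ hP0.ne']
  have hm : Measurable fun w : ℝ × ℂ => ‖EC (avg δ f) w.1 w.2‖ₑ ^ q :=
    (EC_meas _ (avg_BB h δ hδ0).meas).enorm.pow_const q
  have hm' : Measurable fun ξ : ℂ => ∫⁻ t, ‖EC (avg δ f) t ξ‖ₑ ^ q := by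
    exact (hm.comp measurable_swap).lintegral_prod_right'
  rw [lintegral_lintegral_swap (f := fun t ξ => ‖EC (avg δ f) t ξ‖ₑ ^ q) hm.aemeasurable]
  have hpow : ENNReal.ofReal P * ENNReal.ofReal δ ^ ((1 - η) * q) *
      ENNReal.ofReal P ^ ((4 + η - q) / (4 + η - 2)) ≤ ENNReal.ofReal (P ^ (-((q - 3) / 2))) := by
    have e1 : δ = P ^ (-(1 / 2) : ℝ) := by
      rw [hδ, Real.sqrt_eq_rpow, ← Real.rpow_neg hP0.le]
    have e3 : 0 ≤ (4 + η - q) / (4 + η - 2) := div_nonneg (by linarith) (by linarith)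
    rw [ENNReal.ofReal_rpow_of_nonneg hδ0.le (by nlinarith), ENNReal.ofReal_rpow_of_nonneg hP0.le e3,
      ← ENNReal.ofReal_mul hP0.le, ← ENNReal.ofReal_mul (by positivity)]
    refine ENNReal.ofReal_le_ofReal ?_
    rw [e1, ← Real.rpow_mul hP0.le]
    nth_rewrite 1 [← Real.rpow_one P]
    rw [← Real.rpow_add hP0, ← Real.rpow_add hP0]
    refine Real.rpow_le_rpow_of_exponent_le (by linarith) ?_
    have h4 : (4 + η - q) / (4 + η - 2) ≤ (4 + η - q) / 2 := by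
      refine div_le_div_of_nonneg_left (by linarith) (by norm_num) (by linarith)
    have h5 : η * q ≤ η * 4 := by nlinarith
    rw [hη] at h4 h5 ⊢
    linarith
  calc ∫⁻ ξ in An P, ∫⁻ t, ‖EC (avg δ f) t ξ‖ₑ ^ q
      ≤ ENNReal.ofReal P * ∫⁻ φ in CC, ∫⁻ ρ in Ico (P / 2) P ∩ Ioi 0,
          ∫⁻ t, ‖EC (avg δ f) t (ρ • om φ)‖ₑ ^ q := An_pol P _ hm'
    _ ≤ ENNReal.ofReal P * ∫⁻ _ in CC, C * ENNReal.ofReal δ ^ ((1 - η) * q) *
          ENNReal.ofReal P ^ ((4 + η - q) / (4 + η - 2)) := by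
        refine mul_le_mul' le_rfl ?_
        refine setLIntegral_mono' CC_meas fun φ hφ => ?_
        exact hC f h hs P δ hP0 hδ0 hδ2 hPδ φ hφ
    _ = ENNReal.ofReal (2 * Real.pi) * C * (ENNReal.ofReal P * ENNReal.ofReal δ ^ ((1 - η) * q) *
          ENNReal.ofReal P ^ ((4 + η - q) / (4 + η - 2))) := by
        rw [setLIntegral_const, CC_vol]
        ring
    _ ≤ _ := mul_le_mul' le_rfl hpow

end Run7.h485.RR
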