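import Mathlib
import Pool.Agent.Run7.h485.RR.Main2
import Pool.Agent.Run7.h485.RR.Err
set_option autoImplicit false

/-! # The estimate for functions supported in an annulus -/

namespace Run7.h485.RR

open MeasureTheory Set Complex Filter Topology
open scoped ENNReal NNReal RealInnerProductSpace ComplexConjugate
open Pool.Agent.W771 Run7.h783.RV

variable {M : ℝ} {f : ℂ → ℂ}

theorem l2_le (h : BB 1 1 f) : ∫⁻ x, ‖f x‖ₑ ^ 2 ≤ volume (Metric.closedBall (0 : ℂ) 1) := by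
  rw [← lintegral_indicator_one Metric.isClosed_closedBall.measurableSet]
  refine lintegral_mono fun x => ?_
  by_cases hx : x ∈ Metric.closedBall (0 : ℂ) 1
  · rw [indicator_of_mem hx, Pi.one_apply]
    refine pow_le_one' ?_ 2
    rw [← ofReal_norm, ENNReal.ofReal_le_one]
    exact h.bd x
  · rw [h.supp x (by simpa using hx)]
    simp

theorem cover (F : ℂ → ℝ≥0∞) : ∫⁻ ξ, F ξ ≤ (∫⁻ ξ in Metric.closedBall (0 : ℂ) 1, F ξ) +
    ∑' k : ℕ, ∫⁻ ξ in An (2 ^ (k + 1)), F ξ := by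
  have h1 : (univ : Set ℂ) ⊆ Metric.closedBall (0 : ℂ) 1 ∪ ⋃ k : ℕ, An (2 ^ (k + 1)) := by
    intro ξ _
    by_cases hx : ‖ξ‖ ≤ 1
    · left
      simpa using hx
    · right
      rw [mem_iUnion]
      have h2 : 1 ≤ ‖ξ‖ := (not_le.1 hx).le
      obtain ⟨k, hk1, hk2⟩ := exists_nat_pow_near h2 (by norm_num : (1 : ℝ) < 2)
      refine ⟨k, ?_, hk2⟩
      rw [pow_succ]
      linarith
  calc ∫⁻ ξ, F ξ = ∫⁻ ξ in univ, F ξ := by rw [Measure.restrict_univ]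
    _ ≤ ∫⁻ ξ in Metric.closedBall (0 : ℂ) 1 ∪ ⋃ k : ℕ, An (2 ^ (k + 1)), F ξ := lintegral_mono_set h1
    _ ≤ (∫⁻ ξ in Metric.closedBall (0 : ℂ) 1, F ξ) + ∫⁻ ξ in ⋃ k : ℕ, An (2 ^ (k + 1)), F ξ :=
        lintegral_union_le _ _ _
    _ ≤ _ := by
        gcongr
        exact lintegral_iUnion_le _ _

theorem piece_est (s q : ℝ) (hs0 : 0 < s) (hq : 3 < q) (hq4 : q < 4) (hqs : 8 < q * (2 + s)) :
    ∃ C : ℝ≥0∞, C ≠ ∞ ∧ ∃ r : ℝ, 0 < r ∧ r < 1 ∧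
    ∀ f : ℂ → ℂ, BB 1 1 f → (∀ x : ℂ, ‖x‖ < 1 / 2 → f x = 0) → ∀ W : ℝ, 0 ≤ W → AM s W f → ∀ k : ℕ,
    ∫⁻ t, ∫⁻ ξ in An (2 ^ (k + 1)), ‖EC f t ξ‖ₑ ^ q ≤
      C * ENNReal.ofReal ((1 + W) ^ (q / 2)) * ENNReal.ofReal (r ^ k) := by
  obtain ⟨C1, hC1t, hC1⟩ := main_est q hq hq4
  obtain ⟨C2, hC2t, hC2⟩ := err_est q (by linarith) hq4
  have hq0 : 0 < q := by linarith
  set ε : ℝ := min ((q - 3) / 2) (q * (2 + s) / 4 - 2) with hε
  have hε0 : 0 < ε := by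
    rw [hε, lt_min_iff]
    constructor <;> linarith
  have hε1 : ε ≤ (q - 3) / 2 := min_le_left _ _
  have hε2 : ε ≤ q * (2 + s) / 4 - 2 := min_le_right _ _
  set r : ℝ := 2 ^ (-ε) with hr
  have hr0 : 0 < r := by positivity
  have hr1 : r < 1 := Real.rpow_lt_one_of_one_lt_of_neg (by norm_num) (by linarith)
  have h2q : (2 : ℝ≥0∞) ^ (q - 1) ≠ ∞ := ENNReal.rpow_ne_top_of_nonneg (by linarith) (by norm_num)
  refine ⟨2 ^ (q - 1) * (C1 + C2 * ENNReal.ofReal (2 ^ (q / 2))), ENNReal.mul_ne_top h2q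
    (ENNReal.add_ne_top.2 ⟨hC1t, ENNReal.mul_ne_top hC2t ENNReal.ofReal_ne_top⟩), r, hr0, hr1, ?_⟩
  intro f h hs W hW hA k
  set P : ℝ := 2 ^ (k + 1) with hP
  have hP2 : 2 ≤ P := by
    rw [hP]
    calc (2 : ℝ) = 2 ^ 1 := (pow_one _).symm
      _ ≤ 2 ^ (k + 1) := pow_le_pow_right₀ (by norm_num) (by omega)
  have hP0 : 0 < P := by linarith
  have hP1 : 1 ≤ P := by linarith
  set δ : ℝ := (√P)⁻¹ with hδ
  have hsq : 0 < √P := Real.sqrt_pos.2 hP0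
  have hδ0 : 0 < δ := inv_pos.2 hsq
  have hδ1 : δ ≤ 1 := by
    rw [hδ]
    refine inv_le_one_of_one_le₀ ?_
    rw [Real.one_le_sqrt]
    exact hP1
  have hδP : δ = P ^ (-(1 / 2) : ℝ) := by
    rw [hδ, Real.sqrt_eq_rpow, ← Real.rpow_neg hP0.le]
  have hPk : P ^ (-ε) ≤ r ^ k := by
    have e1 : r ^ k = (2 : ℝ) ^ (-(ε * k)) := by
      rw [hr, ← Real.rpow_natCast, ← Real.rpow_mul (by norm_num)]
      congr 1
      ring
    have e2 : P ^ (-ε) = (2 : ℝ) ^ (-(ε * (k + 1))) := by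
      rw [hP, ← Real.rpow_natCast, ← Real.rpow_mul (by norm_num)]
      congr 1
      push_cast
      ring
    rw [e1, e2]
    refine Real.rpow_le_rpow_of_exponent_le (by norm_num) ?_
    nlinarith
  have hW1 : 1 ≤ (1 + W) ^ (q / 2) := Real.one_le_rpow (by linarith) (by linarith)
  have hBa := avg_BB h δ hδ0
  have hBs := h.sub hBa
  have hm1 : Measurable fun w : ℝ × ℂ => ‖EC (avg δ f) w.1 w.2‖ₑ ^ q := (EC_meas _ hBa.meas).enorm.pow_const q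
  have hm2 : ∀ t, Measurable fun ξ : ℂ => ‖EC (avg δ f) t ξ‖ₑ ^ q := by
    intro t
    have h1 : Measurable fun ξ : ℂ => (t, ξ) := by fun_prop
    have h2 := hm1.comp h1
    simp only [Function.comp_def] at h2
    exact h2
  have h1 : ∀ t ξ, ‖EC f t ξ‖ₑ ^ q ≤ 2 ^ (q - 1) * (‖EC (avg δ f) t ξ‖ₑ ^ q +
      ‖EC (fun x => f x - avg δ f x) t ξ‖ₑ ^ q) := by
    intro t ξ
    have e1 : EC f t ξ = EC (avg δ f) t ξ + EC (fun x => f x - avg δ f x) t ξ := by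
      rw [EC_sub h hBa]
      ring
    rw [e1]
    exact (ENNReal.rpow_le_rpow (enorm_add_le _ _) hq0.le).trans
      (ENNReal.rpow_add_le_mul_rpow_add_rpow _ _ (by linarith))
  have hsub : An P ⊆ Metric.closedBall (0 : ℂ) P := by
    intro ξ hξ
    simpa using hξ.2.le
  have hmain := hC1 f h hs P hP2
  have herr := hC2 _ _ hBs (by
    intro x hx
    try simp only
    rw [hs x hx, avg_low hs δ x hx, sub_zero]) P hP0
  have hd2 := diff_l2 h s W δ hs0.le hW hA hδ0 hδ1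
  have hm : ∫⁻ t, ∫⁻ ξ in An P, ‖EC (avg δ f) t ξ‖ₑ ^ q ≤
      C1 * (ENNReal.ofReal ((1 + W) ^ (q / 2)) * ENNReal.ofReal (r ^ k)) := by
    refine hmain.trans (mul_le_mul' le_rfl ?_)
    rw [← ENNReal.ofReal_mul (by positivity)]
    refine ENNReal.ofReal_le_ofReal ?_
    calc P ^ (-((q - 3) / 2)) ≤ P ^ (-ε) := Real.rpow_le_rpow_of_exponent_le hP1 (by linarith)
      _ ≤ 1 * r ^ k := by rw [one_mul]; exact hPk
      _ ≤ _ := mul_le_mul_of_nonneg_right hW1 (by positivity)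
  have he : ∫⁻ t, ∫⁻ ξ in An P, ‖EC (fun x => f x - avg δ f x) t ξ‖ₑ ^ q ≤
      C2 * ENNReal.ofReal (2 ^ (q / 2)) * (ENNReal.ofReal ((1 + W) ^ (q / 2)) * ENNReal.ofReal (r ^ k)) := by
    calc ∫⁻ t, ∫⁻ ξ in An P, ‖EC (fun x => f x - avg δ f x) t ξ‖ₑ ^ q
        ≤ ∫⁻ t, ∫⁻ ξ in Metric.closedBall (0 : ℂ) P, ‖EC (fun x => f x - avg δ f x) t ξ‖ₑ ^ q :=
          lintegral_mono fun t => lintegral_mono_set hsub
      _ ≤ C2 * ENNReal.ofReal P ^ ((4 - q) / 2) * (ENNReal.ofReal (2 * W * δ ^ s)) ^ (q / 2) := by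
          refine herr.trans (mul_le_mul' le_rfl (ENNReal.rpow_le_rpow hd2 (by linarith)))
      _ = C2 * ENNReal.ofReal (P ^ ((4 - q) / 2) * (2 * W * δ ^ s) ^ (q / 2)) := by
          rw [ENNReal.ofReal_rpow_of_nonneg hP0.le (by linarith),
            ENNReal.ofReal_rpow_of_nonneg (by positivity) (by linarith),
            ENNReal.ofReal_mul (by positivity), mul_assoc]
      _ ≤ C2 * ENNReal.ofReal (2 ^ (q / 2) * ((1 + W) ^ (q / 2) * r ^ k)) := by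
          refine mul_le_mul' le_rfl (ENNReal.ofReal_le_ofReal ?_)
          have e1 : (2 * W * δ ^ s) ^ (q / 2) = 2 ^ (q / 2) * W ^ (q / 2) * P ^ (-(s * q / 4)) := by
            rw [Real.mul_rpow (by positivity) (by positivity), Real.mul_rpow (by norm_num) hW, hδP,
              ← Real.rpow_mul hP0.le, ← Real.rpow_mul hP0.le]
            congr 2
            ring
          rw [e1]
          have e2 : P ^ ((4 - q) / 2) * (2 ^ (q / 2) * W ^ (q / 2) * P ^ (-(s * q / 4))) =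
              2 ^ (q / 2) * (W ^ (q / 2) * P ^ ((4 - q) / 2 + -(s * q / 4))) := by
            rw [Real.rpow_add hP0]
            ring
          rw [e2]
          refine mul_le_mul_of_nonneg_left ?_ (by positivity)
          refine mul_le_mul ?_ ?_ (by positivity) (by positivity)
          · exact Real.rpow_le_rpow hW (by linarith) (by linarith)
          · refine le_trans (Real.rpow_le_rpow_of_exponent_le hP1 ?_) hPk
            nlinarith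
      _ = _ := by
          rw [ENNReal.ofReal_mul (by positivity), ENNReal.ofReal_mul (by positivity)]
          ring
  calc ∫⁻ t, ∫⁻ ξ in An P, ‖EC f t ξ‖ₑ ^ q
      ≤ ∫⁻ t, ∫⁻ ξ in An P, 2 ^ (q - 1) * (‖EC (avg δ f) t ξ‖ₑ ^ q +
          ‖EC (fun x => f x - avg δ f x) t ξ‖ₑ ^ q) := lintegral_mono fun t => lintegral_mono fun ξ => h1 t ξ
    _ = 2 ^ (q - 1) * ((∫⁻ t, ∫⁻ ξ in An P, ‖EC (avg δ f) t ξ‖ₑ ^ q) +
          ∫⁻ t, ∫⁻ ξ in An P, ‖EC (fun x => f x - avg δ f x) t ξ‖ₑ ^ q) := by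
        rw [← lintegral_add_left hm1.lintegral_prod_right', ← lintegral_const_mul' _ _ h2q]
        refine lintegral_congr fun t => ?_
        rw [lintegral_const_mul' _ _ h2q, lintegral_add_left (hm2 t)]
    _ ≤ 2 ^ (q - 1) * (C1 * (ENNReal.ofReal ((1 + W) ^ (q / 2)) * ENNReal.ofReal (r ^ k)) +
          C2 * ENNReal.ofReal (2 ^ (q / 2)) * (ENNReal.ofReal ((1 + W) ^ (q / 2)) * ENNReal.ofReal (r ^ k))) := by
        gcongr
    _ = _ := by ring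

/-- **the annulus** -/
theorem ann (s q : ℝ) (hs0 : 0 < s) (hq : 3 < q) (hq4 : q < 4) (hqs : 8 < q * (2 + s)) :
    ∃ C : ℝ≥0∞, C ≠ ∞ ∧
    ∀ f : ℂ → ℂ, BB 1 1 f → (∀ x : ℂ, ‖x‖ < 1 / 2 → f x = 0) → ∀ W : ℝ, 0 ≤ W → AM s W f →
    ∫⁻ t, ∫⁻ ξ, ‖EC f t ξ‖ₑ ^ q ≤ C * ENNReal.ofReal ((1 + W) ^ (q / 2)) := by
  obtain ⟨C1, hC1t, r, hr0, hr1, hC1⟩ := piece_est s q hs0 hq hq4 hqs
  obtain ⟨C2, hC2t, hC2⟩ := err_est q (by linarith) hq4
  have hV : volume (Metric.closedBall (0 : ℂ) 1) ≠ ∞ := measure_closedBall_lt_top.ne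
  have hg : ∑' k : ℕ, ENNReal.ofReal (r ^ k) ≠ ∞ := by
    have : ∀ k : ℕ, ENNReal.ofReal (r ^ k) = ENNReal.ofReal r ^ k := fun k => ENNReal.ofReal_pow hr0.le k
    simp_rw [this]
    rw [ENNReal.tsum_geometric]
    refine ENNReal.inv_ne_top.2 ?_
    rw [Ne, tsub_eq_zero_iff_le, not_le]
    rw [← ENNReal.ofReal_one]
    exact (ENNReal.ofReal_lt_ofReal_iff (by norm_num)).2 hr1
  refine ⟨C2 * volume (Metric.closedBall (0 : ℂ) 1) ^ (q / 2) + C1 * ∑' k : ℕ, ENNReal.ofReal (r ^ k), ?_, ?_⟩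
  · exact ENNReal.add_ne_top.2 ⟨ENNReal.mul_ne_top hC2t (ENNReal.rpow_ne_top_of_nonneg (by linarith) hV),
      ENNReal.mul_ne_top hC1t hg⟩
  intro f h hs W hW hA
  have hW1 : 1 ≤ ENNReal.ofReal ((1 + W) ^ (q / 2)) := by
    rw [← ENNReal.ofReal_one]
    exact ENNReal.ofReal_le_ofReal (Real.one_le_rpow (by linarith) (by linarith))
  have hm : Measurable fun w : ℝ × ℂ => ‖EC f w.1 w.2‖ₑ ^ q := (EC_meas _ h.meas).enorm.pow_const q
  have hmr : ∀ S : Set ℂ, Measurable fun t : ℝ => ∫⁻ ξ in S, ‖EC f t ξ‖ₑ ^ q := fun S =>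
    hm.lintegral_prod_right'
  calc ∫⁻ t, ∫⁻ ξ, ‖EC f t ξ‖ₑ ^ q
      ≤ ∫⁻ t, ((∫⁻ ξ in Metric.closedBall (0 : ℂ) 1, ‖EC f t ξ‖ₑ ^ q) +
          ∑' k : ℕ, ∫⁻ ξ in An (2 ^ (k + 1)), ‖EC f t ξ‖ₑ ^ q) := lintegral_mono fun t => cover _
    _ = (∫⁻ t, ∫⁻ ξ in Metric.closedBall (0 : ℂ) 1, ‖EC f t ξ‖ₑ ^ q) +
          ∑' k : ℕ, ∫⁻ t, ∫⁻ ξ in An (2 ^ (k + 1)), ‖EC f t ξ‖ₑ ^ q := by
        rw [lintegral_add_left (hmr _), lintegral_tsum (fun k => (hmr _).aemeasurable)]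
    _ ≤ C2 * volume (Metric.closedBall (0 : ℂ) 1) ^ (q / 2) +
          ∑' k : ℕ, C1 * ENNReal.ofReal ((1 + W) ^ (q / 2)) * ENNReal.ofReal (r ^ k) := by
        refine add_le_add ?_ (ENNReal.tsum_le_tsum fun k => hC1 f h hs W hW hA k)
        have h1 := hC2 1 f h hs 1 one_pos
        rw [ENNReal.ofReal_one, ENNReal.one_rpow, mul_one] at h1
        refine h1.trans ?_
        gcongr
        exact l2_le h
    _ = C2 * volume (Metric.closedBall (0 : ℂ) 1) ^ (q / 2) +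
          C1 * (∑' k : ℕ, ENNReal.ofReal (r ^ k)) * ENNReal.ofReal ((1 + W) ^ (q / 2)) := by
        rw [ENNReal.tsum_mul_left]
        ring
    _ ≤ C2 * volume (Metric.closedBall (0 : ℂ) 1) ^ (q / 2) * ENNReal.ofReal ((1 + W) ^ (q / 2)) +
          C1 * (∑' k : ℕ, ENNReal.ofReal (r ^ k)) * ENNReal.ofReal ((1 + W) ^ (q / 2)) := by
        refine add_le_add ?_ le_rfl
        exact le_mul_of_one_le_right zero_le hW1
    _ = _ := by ring

end Run7.h485.RR
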