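import Mathlib
import Pool.Agent.Run7.h485.RR.Ann
set_option autoImplicit false

/-! # Dyadic decomposition of the radius -/

namespace Run7.h485.RR

open MeasureTheory Set Complex Filter Topology
open scoped ENNReal NNReal RealInnerProductSpace ComplexConjugate
open Pool.Agent.W771 Run7.h783.RV

variable {M : ℝ} {f : ℂ → ℂ}

/-- modulus of continuity along circles -/
def CM (s V : ℝ) (f : ℂ → ℂ) : Prop :=
  ∀ ρ ∈ Ioc (0 : ℝ) 1, ∀ u ∈ Ioc (0 : ℝ) 1,
    ∫⁻ x in Metric.closedBall (0 : ℂ) ρ, ‖f (om u * x) - f x‖ₑ ≤ ENNReal.ofReal (V * (ρ * u) ^ s)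

/-- the dyadic annuli -/
def DD (j : ℕ) : Set ℂ := {x : ℂ | (1 / 2 : ℝ) ^ (j + 1) < ‖x‖ ∧ ‖x‖ ≤ (1 / 2 : ℝ) ^ j}

theorem DD_meas (j : ℕ) : MeasurableSet (DD j) :=
  (measurableSet_lt measurable_const measurable_norm).inter
    (measurableSet_le measurable_norm measurable_const)

theorem DD_disj : Pairwise (Function.onFun Disjoint DD) := by
  have key : ∀ i j : ℕ, i < j → Disjoint (DD i) (DD j) := by
    intro i j hij
    rw [Set.disjoint_left]
    rintro x ⟨h1, _⟩ ⟨_, h2⟩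
    have h3 : (1 / 2 : ℝ) ^ j ≤ (1 / 2 : ℝ) ^ (i + 1) :=
      pow_le_pow_of_le_one (by norm_num) (by norm_num) (by omega)
    linarith
  intro i j hij
  rcases lt_or_gt_of_ne hij with h | h
  · exact key i j h
  · exact (key j i h).symm

theorem DD_cover (x : ℂ) (hx : x ≠ 0) (hx1 : ‖x‖ ≤ 1) : x ∈ ⋃ j, DD j := by
  have hx0 : 0 < ‖x‖ := norm_pos_iff.2 hx
  obtain ⟨n, hn1, hn2⟩ := exists_nat_pow_near_of_lt_one hx0 hx1 (by norm_num : (0 : ℝ) < 1 / 2)
    (by norm_num : (1 / 2 : ℝ) < 1)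
  rw [mem_iUnion]
  exact ⟨n, hn1, hn2⟩

theorem EC_dd (h : BB M 1 f) (t : ℝ) (ξ : ℂ) : ‖EC f t ξ‖ₑ ≤ ∑' j : ℕ, ‖EC ((DD j).indicator f) t ξ‖ₑ := by
  have hec : Continuous fun x => eC t ξ x := eC_cont.comp (by fun_prop : Continuous fun x : ℂ => (t, ξ, x))
  have hi : Integrable fun x => f x * eC t ξ x := by
    refine h.int.norm.mono' (h.meas.mul hec.measurable).aestronglyMeasurable
      (Eventually.of_forall fun x => ?_)
    rw [norm_mul, eC_norm, mul_one]
  have h1 : EC f t ξ = ∫ x in ⋃ j, DD j, f x * eC t ξ x := by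
    rw [EC_def]
    symm
    apply setIntegral_eq_integral_of_ae_compl_eq_zero
    have h0 : ∀ᵐ x : ℂ, x ≠ 0 := by
      rw [ae_iff]
      simp
    filter_upwards [h0] with x hx hx2
    rw [h.supp, zero_mul]
    by_contra hc
    exact hx2 (DD_cover x hx (not_lt.1 hc))
  have h2 : ∫ x in ⋃ j, DD j, f x * eC t ξ x = ∑' j : ℕ, ∫ x in DD j, f x * eC t ξ x :=
    integral_iUnion DD_meas DD_disj hi.integrableOn
  rw [h1, h2]
  refine (enorm_tsum_le_tsum_enorm).trans (le_of_eq ?_)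
  refine tsum_congr fun j => ?_
  rw [EC_def, ← integral_indicator (DD_meas j)]
  congr 1
  refine integral_congr_ae (Eventually.of_forall fun x => ?_)
  try simp only
  by_cases hx : x ∈ DD j
  · rw [indicator_of_mem hx, indicator_of_mem hx]
  · rw [indicator_of_notMem hx, indicator_of_notMem hx, zero_mul]

/-- **the disc** -/
theorem disc (s q : ℝ) (hs0 : 0 < s) (hs2 : s ≤ 2) (hq : 3 < q) (hq4 : q < 4) (hqs : 8 < q * (2 + s)) :
    ∃ C : ℝ≥0∞, C ≠ ∞ ∧
    ∀ f : ℂ → ℂ, BB 1 1 f → ∀ V : ℝ, 0 ≤ V → CM s V f →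
    ∫⁻ t, ∫⁻ ξ, ‖EC f t ξ‖ₑ ^ q ≤ C * ENNReal.ofReal ((1 + V) ^ (q / 2)) := by
  obtain ⟨C1, hC1t, hC1⟩ := ann s q hs0 hq hq4 hqs
  have hq0 : 0 < q := by linarith
  set ρ : ℝ := (1 / 2) ^ (q * (2 + s) / 2 - 4) with hρ
  have hρ0 : 0 < ρ := by positivity
  have hρ1 : ρ < 1 := Real.rpow_lt_one (by norm_num) (by norm_num) (by linarith)
  obtain ⟨C2, hC2t, hC2⟩ := geo_sum q (by linarith) ρ hρ0 hρ1
  refine ⟨C2 * C1, ENNReal.mul_ne_top hC2t hC1t, ?_⟩
  intro f h V hV hM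
  have hB : ∀ j, BB 1 1 ((DD j).indicator f) := fun j => h.ind _ (DD_meas j)
  have hEm : ∀ j, Measurable fun w : ℝ × ℂ => ‖EC ((DD j).indicator f) w.1 w.2‖ₑ := fun j =>
    (EC_meas _ (hB j).meas).enorm
  have hpiece : ∀ j, ∫⁻ w : ℝ × ℂ, ‖EC ((DD j).indicator f) w.1 w.2‖ₑ ^ q ∂(volume.prod volume) ≤
      C1 * ENNReal.ofReal ((1 + V) ^ (q / 2)) * ENNReal.ofReal (ρ ^ j) := by
    intro j
    set R : ℝ := (1 / 2 : ℝ) ^ j with hR
    have hR0 : 0 < R := by positivity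
    have hR1 : R ≤ 1 := pow_le_one₀ (by norm_num) (by norm_num)
    rw [lintegral_prod _ ((hEm j).pow_const q).aemeasurable]
    rw [EC_dil_lint _ (hB j).meas R hR0 q hq0]
    set F : ℂ → ℂ := fun z => (DD j).indicator f (R • z) with hF
    have hFB : BB 1 1 F := by
      refine ⟨(hB j).meas.comp (measurable_const_smul R), fun x => (hB j).bd _, ?_⟩
      intro x hx
      rw [hF]
      simp only
      rw [indicator_of_notMem]
      intro hc
      have h2 := hc.2
      rw [norm_smul, Real.norm_of_nonneg hR0.le] at h2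
      nlinarith
    have hFs : ∀ x : ℂ, ‖x‖ < 1 / 2 → F x = 0 := by
      intro x hx
      rw [hF]
      simp only
      rw [indicator_of_notMem]
      intro hc
      have h2 := hc.1
      rw [norm_smul, Real.norm_of_nonneg hR0.le, pow_succ] at h2
      nlinarith
    have hAM : AM s (V * R ^ (s - 2)) F := by
      intro u hu
      have hmD : Measurable fun x : ℂ => ‖(DD j).indicator f (om u * x) - (DD j).indicator f x‖ₑ :=
        (((hB j).meas.comp (rot_mp (om u) (om_norm u)).measurable).sub (hB j).meas).enorm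
      have h3 := lint_smul (volume : Measure ℂ) _ hmD R hR0.ne'
      have e1 : ∀ x, F (om u * x) - F x = (DD j).indicator f (om u * (R • x)) - (DD j).indicator f (R • x) := by
        intro x
        simp only [hF]
        rw [mul_smul_comm]
      simp_rw [e1]
      rw [h3, Complex.finrank_real_complex, abs_of_pos (by positivity)]
      have hmemD : ∀ x : ℂ, om u * x ∈ DD j ↔ x ∈ DD j := by
        intro x
        have : ‖om u * x‖ = ‖x‖ := by rw [norm_mul, om_norm, one_mul]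
        unfold DD
        simp only [mem_ofPred_eq, this]
      have h4 : ∫⁻ x, ‖(DD j).indicator f (om u * x) - (DD j).indicator f x‖ₑ ≤
          ∫⁻ x in Metric.closedBall (0 : ℂ) R, ‖f (om u * x) - f x‖ₑ := by
        rw [← lintegral_indicator Metric.isClosed_closedBall.measurableSet]
        refine lintegral_mono fun x => ?_
        by_cases hx : x ∈ DD j
        · rw [indicator_of_mem hx, indicator_of_mem ((hmemD x).2 hx), indicator_of_mem]
          rw [Metric.mem_closedBall, dist_zero_right]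
          exact hx.2
        · rw [indicator_of_notMem hx, indicator_of_notMem (fun hc => hx ((hmemD x).1 hc)), sub_zero,
            enorm_zero]
          exact zero_le
      calc ENNReal.ofReal (R ^ 2)⁻¹ * ∫⁻ x, ‖(DD j).indicator f (om u * x) - (DD j).indicator f x‖ₑ
          ≤ ENNReal.ofReal (R ^ 2)⁻¹ * ENNReal.ofReal (V * (R * u) ^ s) :=
            mul_le_mul' le_rfl (h4.trans (hM R ⟨hR0, hR1⟩ u hu))
        _ = _ := by
            rw [← ENNReal.ofReal_mul (by positivity)]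
            congr 1
            rw [Real.mul_rpow hR0.le hu.1.le, Real.rpow_sub hR0, Real.rpow_two]
            field_simp
    have h5 := hC1 F hFB hFs (V * R ^ (s - 2)) (by positivity) hAM
    refine (mul_le_mul' le_rfl h5).trans ?_
    rw [mul_left_comm, mul_assoc, ← ENNReal.ofReal_mul (by positivity), ← ENNReal.ofReal_mul (by positivity)]
    refine mul_le_mul' le_rfl (ENNReal.ofReal_le_ofReal ?_)
    have h6 : 1 ≤ R ^ (s - 2) := by
      refine Real.one_le_rpow_of_pos_of_le_one_of_nonpos hR0 hR1 (by linarith)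
    have h7 : 1 + V * R ^ (s - 2) ≤ (1 + V) * R ^ (s - 2) := by nlinarith
    calc R ^ (2 * q - 4) * (1 + V * R ^ (s - 2)) ^ (q / 2)
        ≤ R ^ (2 * q - 4) * ((1 + V) * R ^ (s - 2)) ^ (q / 2) := by
          refine mul_le_mul_of_nonneg_left ?_ (by positivity)
          exact Real.rpow_le_rpow (by positivity) h7 (by linarith)
      _ = (1 + V) ^ (q / 2) * ρ ^ j := by
          rw [Real.mul_rpow (by positivity) (by positivity), ← Real.rpow_mul hR0.le, mul_left_comm,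
            ← Real.rpow_add hR0]
          congr 1
          rw [hR, hρ, ← Real.rpow_natCast, ← Real.rpow_natCast, ← Real.rpow_mul (by norm_num),
            ← Real.rpow_mul (by norm_num)]
          congr 1
          ring
  have h8 := hC2 (volume.prod volume) (fun j (w : ℝ × ℂ) => ‖EC ((DD j).indicator f) w.1 w.2‖ₑ) _ hEm hpiece
  calc ∫⁻ t, ∫⁻ ξ, ‖EC f t ξ‖ₑ ^ q = ∫⁻ w : ℝ × ℂ, ‖EC f w.1 w.2‖ₑ ^ q ∂(volume.prod volume) := by
        rw [lintegral_prod _ ((EC_meas f h.meas).enorm.pow_const q).aemeasurable]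
    _ ≤ ∫⁻ w : ℝ × ℂ, (∑' j, ‖EC ((DD j).indicator f) w.1 w.2‖ₑ) ^ q ∂(volume.prod volume) :=
        lintegral_mono fun w => ENNReal.rpow_le_rpow (EC_dd h w.1 w.2) hq0.le
    _ ≤ _ := h8
    _ = _ := by ring

/-- all exponents above the critical one -/
theorem disc_all (s q : ℝ) (hs0 : 0 < s) (hs2 : s ≤ 2) (hq : 3 < q) (hqs : 8 < q * (2 + s)) :
    ∃ C : ℝ≥0∞, C ≠ ∞ ∧
    ∀ f : ℂ → ℂ, BB 1 1 f → ∀ V : ℝ, 0 ≤ V → CM s V f →
    ∫⁻ t, ∫⁻ ξ, ‖EC f t ξ‖ₑ ^ q ≤ C * ENNReal.ofReal ((1 + V) ^ (q / 2)) := by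
  rcases lt_or_ge q 4 with h4 | h4
  · exact disc s q hs0 hs2 hq h4 hqs
  set m : ℝ := max 3 (8 / (2 + s)) with hm
  have hm4 : m < 4 := by
    rw [hm, max_lt_iff, div_lt_iff₀ (by linarith)]
    constructor <;> linarith
  have hm3 : 3 ≤ m := le_max_left _ _
  have hm8 : 8 / (2 + s) ≤ m := le_max_right _ _
  have hm8' : 8 ≤ m * (2 + s) := by
    rwa [div_le_iff₀ (by linarith)] at hm8
  set q' : ℝ := (m + 4) / 2 with hq'
  have hq'm : m < q' := by linarith
  obtain ⟨C, hCt, hC⟩ := disc s q' hs0 hs2 (by linarith) (by linarith) (by nlinarith)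
  set K := volume (Metric.closedBall (0 : ℂ) 1) with hK
  have hKt : K ≠ ∞ := measure_closedBall_lt_top.ne
  have hqq : 0 ≤ q - q' := by linarith
  have hKqt : K ^ (q - q') ≠ ∞ := ENNReal.rpow_ne_top_of_nonneg hqq hKt
  refine ⟨K ^ (q - q') * C, ENNReal.mul_ne_top hKqt hCt, ?_⟩
  intro f h V hV hM
  have hsup : ∀ t ξ, ‖EC f t ξ‖ₑ ≤ K := by
    intro t ξ
    refine (EC_sup f t ξ).trans ?_
    rw [hK, ← lintegral_indicator_one Metric.isClosed_closedBall.measurableSet]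
    refine lintegral_mono fun x => ?_
    by_cases hx : x ∈ Metric.closedBall (0 : ℂ) 1
    · rw [indicator_of_mem hx, Pi.one_apply, ← ofReal_norm, ENNReal.ofReal_le_one]
      exact h.bd x
    · rw [h.supp x (by simpa using hx)]
      simp
  have h1 := hC f h V hV hM
  calc ∫⁻ t, ∫⁻ ξ, ‖EC f t ξ‖ₑ ^ q ≤ ∫⁻ t, ∫⁻ ξ, K ^ (q - q') * ‖EC f t ξ‖ₑ ^ q' := by
        refine lintegral_mono fun t => lintegral_mono fun ξ => ?_
        calc ‖EC f t ξ‖ₑ ^ q = ‖EC f t ξ‖ₑ ^ (q - q') * ‖EC f t ξ‖ₑ ^ q' := by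
              rw [← ENNReal.rpow_add_of_nonneg _ _ hqq (by linarith), sub_add_cancel]
          _ ≤ _ := mul_le_mul' (ENNReal.rpow_le_rpow (hsup t ξ) hqq) le_rfl
    _ = K ^ (q - q') * ∫⁻ t, ∫⁻ ξ, ‖EC f t ξ‖ₑ ^ q' := by
        simp_rw [lintegral_const_mul' _ _ hKqt]
    _ ≤ K ^ (q - q') * (C * ENNReal.ofReal ((1 + V) ^ (q' / 2))) := mul_le_mul' le_rfl h1
    _ ≤ K ^ (q - q') * (C * ENNReal.ofReal ((1 + V) ^ (q / 2))) := by
        refine mul_le_mul' le_rfl (mul_le_mul' le_rfl (ENNReal.ofReal_le_ofReal ?_))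
        exact Real.rpow_le_rpow_of_exponent_le (by linarith) (by linarith)
    _ = _ := by ring

/-- **functions on a disc about any point** -/
theorem anycentre (s q R : ℝ) (hs0 : 0 < s) (hs2 : s ≤ 2) (hq : 3 < q) (hqs : 8 < q * (2 + s)) (hR : 1 ≤ R) :
    ∃ C : ℝ≥0∞, C ≠ ∞ ∧
    ∀ f : ℂ → ℂ, Measurable f → (∀ x, ‖f x‖ ≤ 1) → ∀ a : ℂ, (∀ z, R < ‖z‖ → f (a + z) = 0) →
    ∀ V : ℝ, 0 ≤ V → (∀ ρ : ℝ, 0 < ρ → ∀ u ∈ Ioc (0 : ℝ) 1,
      ∫⁻ z in Metric.closedBall (0 : ℂ) ρ, ‖f (a + om u * z) - f (a + z)‖ₑ ≤ ENNReal.ofReal (V * (ρ * u) ^ s)) →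
    ∫⁻ t, ∫⁻ ξ, ‖EC f t ξ‖ₑ ^ q ≤ C * ENNReal.ofReal ((1 + V) ^ (q / 2)) := by
  obtain ⟨C, hCt, hC⟩ := disc_all s q hs0 hs2 hq hqs
  have hR0 : 0 < R := by linarith
  have hq0 : 0 < q := by linarith
  refine ⟨ENNReal.ofReal (R ^ (2 * q - 4)) * C, ENNReal.mul_ne_top ENNReal.ofReal_ne_top hCt, ?_⟩
  intro f hf hb a hsupp V hV hM
  have hga : Measurable fun z => f (a + z) := hf.comp (measurable_const.add measurable_id)
  simp_rw [EC_trans_lint f a]
  rw [EC_dil_lint _ hga R hR0 q hq0, mul_assoc]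
  refine mul_le_mul' le_rfl ?_
  refine hC _ ⟨hga.comp (measurable_const_smul R), fun x => hb _, ?_⟩ V hV ?_
  · intro x hx
    apply hsupp
    rw [norm_smul, Real.norm_of_nonneg hR0.le]
    nlinarith
  · intro ρ hρ u hu
    have hmG : Measurable fun x : ℂ => (Metric.closedBall (0 : ℂ) (R * ρ)).indicator
        (fun x => ‖f (a + om u * x) - f (a + x)‖ₑ) x := by
      refine Measurable.indicator ?_ Metric.isClosed_closedBall.measurableSet
      exact ((hga.comp (rot_mp (om u) (om_norm u)).measurable).sub hga).enorm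
    have h3 := lint_smul (volume : Measure ℂ) _ hmG R hR0.ne'
    have e1 : ∫⁻ x in Metric.closedBall (0 : ℂ) ρ, ‖f (a + R • (om u * x)) - f (a + R • x)‖ₑ =
        ∫⁻ x, (Metric.closedBall (0 : ℂ) (R * ρ)).indicator
          (fun x => ‖f (a + om u * x) - f (a + x)‖ₑ) (R • x) := by
      rw [← lintegral_indicator Metric.isClosed_closedBall.measurableSet]
      refine lintegral_congr fun x => ?_
      have hiff : R • x ∈ Metric.closedBall (0 : ℂ) (R * ρ) ↔ x ∈ Metric.closedBall (0 : ℂ) ρ := by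
        simp only [Metric.mem_closedBall, dist_zero_right, norm_smul, Real.norm_of_nonneg hR0.le]
        exact mul_le_mul_iff_right₀ hR0
      by_cases hx : x ∈ Metric.closedBall (0 : ℂ) ρ
      · rw [indicator_of_mem hx, indicator_of_mem (hiff.2 hx), mul_smul_comm]
      · rw [indicator_of_notMem hx, indicator_of_notMem (fun hc => hx (hiff.1 hc))]
    simp only [Function.comp_def]
    rw [e1, h3, lintegral_indicator Metric.isClosed_closedBall.measurableSet, Complex.finrank_real_complex,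
      abs_of_pos (by positivity)]
    refine (mul_le_mul' le_rfl (hM (R * ρ) (by have := hρ.1; positivity) u hu)).trans ?_
    rw [← ENNReal.ofReal_mul (by positivity)]
    refine ENNReal.ofReal_le_ofReal ?_
    have hρ0 := hρ.1
    have hu0 := hu.1
    rw [mul_assoc R, Real.mul_rpow hR0.le (by positivity)]
    have h9 : (R ^ 2)⁻¹ * R ^ s ≤ 1 := by
      rw [← Real.rpow_two, ← Real.rpow_neg hR0.le, ← Real.rpow_add hR0]
      exact Real.rpow_le_one_of_one_le_of_nonpos hR (by linarith)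
    calc (R ^ 2)⁻¹ * (V * (R ^ s * (ρ * u) ^ s)) = ((R ^ 2)⁻¹ * R ^ s) * (V * (ρ * u) ^ s) := by ring
      _ ≤ 1 * (V * (ρ * u) ^ s) := mul_le_mul_of_nonneg_right h9 (by positivity)
      _ = _ := one_mul _

end Run7.h485.RR
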