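import Mathlib
import Pool.Agent.Run7.h485.RR.Asm
set_option autoImplicit false

/-! # Mixed norms in space and time -/

namespace Run7.h485.RR

open MeasureTheory Set Complex Filter Topology
open scoped ENNReal NNReal RealInnerProductSpace ComplexConjugate
open Pool.Agent.W771 Run7.h783.RV

variable {M : ℝ} {f : ℂ → ℂ}

/-- the exponent on `ℝ³` that corresponds to `q` on `ℝ^(n+1)` -/
noncomputable def q3 (n : ℕ) (q : ℝ) : ℝ := 2 + (q - 2) * n / 2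

theorem mixR (n : ℕ) (hn : 2 ≤ n) (q s R : ℝ) (hs0 : 0 < s) (hs2 : s ≤ 2) (hq : 3 < q3 n q)
    (hqs : 8 < q3 n q * (2 + s)) (hR : 1 ≤ R) :
    ∃ C : ℝ≥0∞, C ≠ ∞ ∧
    ∀ f : ℂ → ℂ, Measurable f → (∀ x, ‖f x‖ ≤ 1) → ∀ a : ℂ, (∀ z, R < ‖z‖ → f (a + z) = 0) →
    ∀ V : ℝ, 0 ≤ V → (∀ ρ : ℝ, 0 < ρ → ∀ u ∈ Ioc (0 : ℝ) 1,
      ∫⁻ z in Metric.closedBall (0 : ℂ) ρ, ‖f (a + om u * z) - f (a + z)‖ₑ ≤ ENNReal.ofReal (V * (ρ * u) ^ s)) →
    ∫⁻ t, (∫⁻ ξ, ‖EC f t ξ‖ₑ ^ q) ^ ((n : ℝ) / 2) ≤ C * ENNReal.ofReal ((1 + V) ^ (q3 n q / 2)) := by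
  obtain ⟨C, hCt, hC⟩ := anycentre s (q3 n q) R hs0 hs2 hq hqs hR
  have hn0 : (2 : ℝ) ≤ n := by exact_mod_cast hn
  rcases hn0.eq_or_lt with hn2 | hn2
  · -- the case `n = 2`
    refine ⟨C, hCt, ?_⟩
    intro f hf hb a hsupp V hV hM
    have h1 := hC f hf hb a hsupp V hV hM
    have e1 : q3 n q = q := by
      unfold q3
      rw [← hn2]
      ring
    rw [e1] at h1
    rw [← hn2, e1]
    simp only [div_self (two_ne_zero' ℝ), ENNReal.rpow_one]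
    exact h1
  have hq2 : 2 < q := by
    unfold q3 at hq
    by_contra hc
    push Not at hc
    nlinarith
  have hqq : q < q3 n q := by
    unfold q3
    nlinarith
  have hq3 : 2 < q3 n q := by linarith
  set K : ℝ≥0∞ := ENNReal.ofReal (4 * Real.pi ^ 2) * volume (Metric.closedBall (0 : ℂ) R) with hK
  have hKt : K ≠ ∞ := ENNReal.mul_ne_top ENNReal.ofReal_ne_top measure_closedBall_lt_top.ne
  set a0 : ℝ := (q3 n q - q) / (q3 n q - 2) with ha0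
  set b0 : ℝ := (q - 2) / (q3 n q - 2) with hb0
  have ha0n : 0 ≤ a0 := div_nonneg (by linarith) (by linarith)
  have hb0e : b0 * ((n : ℝ) / 2) = 1 := by
    rw [hb0]
    unfold q3
    have : q - 2 ≠ 0 := by linarith
    have hn1 : (n : ℝ) ≠ 0 := by linarith
    field_simp
    ring
  refine ⟨K ^ (a0 * ((n : ℝ) / 2)) * C, ENNReal.mul_ne_top
    (ENNReal.rpow_ne_top_of_nonneg (by positivity) hKt) hCt, ?_⟩
  intro f hf hb a hsupp V hV hM
  have h1 := hC f hf hb a hsupp V hV hM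
  have hga : Measurable fun z => f (a + z) := hf.comp (measurable_const.add measurable_id)
  have hmem : ∀ p : ℝ≥0∞, MemLp (fun z => f (a + z)) p := fun p =>
    bdd_int _ hga 1 R (fun x => hb _) hsupp p
  have hl2 : ∀ t, ∫⁻ ξ, ‖EC f t ξ‖ₑ ^ 2 ≤ K := by
    intro t
    have e1 := EC_trans_lint f a t 2
    simp only [ENNReal.rpow_two] at e1
    rw [e1, EC_l2 _ hga (memLp_one_iff_integrable.1 (hmem 1)) (hmem 2), hK]
    refine mul_le_mul' le_rfl ?_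
    rw [← lintegral_indicator_one Metric.isClosed_closedBall.measurableSet]
    refine lintegral_mono fun x => ?_
    by_cases hx : x ∈ Metric.closedBall (0 : ℂ) R
    · rw [indicator_of_mem hx, Pi.one_apply]
      refine pow_le_one' ?_ 2
      rw [← ofReal_norm, ENNReal.ofReal_le_one]
      exact hb _
    · rw [hsupp x (by simpa using hx)]
      simp
  have hfix : ∀ t, (∫⁻ ξ, ‖EC f t ξ‖ₑ ^ q) ^ ((n : ℝ) / 2) ≤
      K ^ (a0 * ((n : ℝ) / 2)) * ∫⁻ ξ, ‖EC f t ξ‖ₑ ^ q3 n q := by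
    intro t
    have hm : Measurable fun ξ : ℂ => ‖EC f t ξ‖ₑ := by
      have h2 : Measurable fun ξ : ℂ => (t, ξ) := by fun_prop
      have h3 := ((EC_meas f hf).comp h2).enorm
      simp only [Function.comp_def] at h3
      exact h3
    have h2 := interp volume (fun ξ : ℂ => ‖EC f t ξ‖ₑ) hm.aemeasurable q (q3 n q) hq2 hqq
    rw [← ha0, ← hb0] at h2
    refine (ENNReal.rpow_le_rpow h2 (by positivity)).trans ?_
    rw [ENNReal.mul_rpow_of_nonneg _ _ (by positivity), ← ENNReal.rpow_mul, ← ENNReal.rpow_mul, hb0e,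
      ENNReal.rpow_one]
    exact mul_le_mul' (ENNReal.rpow_le_rpow (hl2 t) (by positivity)) le_rfl
  calc ∫⁻ t, (∫⁻ ξ, ‖EC f t ξ‖ₑ ^ q) ^ ((n : ℝ) / 2)
      ≤ ∫⁻ t, K ^ (a0 * ((n : ℝ) / 2)) * ∫⁻ ξ, ‖EC f t ξ‖ₑ ^ q3 n q := lintegral_mono hfix
    _ = K ^ (a0 * ((n : ℝ) / 2)) * ∫⁻ t, ∫⁻ ξ, ‖EC f t ξ‖ₑ ^ q3 n q :=
        lintegral_const_mul' _ _ (ENNReal.rpow_ne_top_of_nonneg (by positivity) hKt)
    _ ≤ K ^ (a0 * ((n : ℝ) / 2)) * (C * ENNReal.ofReal ((1 + V) ^ (q3 n q / 2))) := mul_le_mul' le_rfl h1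
    _ = _ := by ring

end Run7.h485.RR
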