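import Mathlib
import Pool.Agent.Run7.h485.RR.Mix
import Pool.Agent.Run7.h485.RR.Blk
set_option autoImplicit false
set_option linter.unusedSectionVars false

/-! # Atoms: functions that are regular along the circles about a point -/

namespace Run7.h485.RR

open MeasureTheory Set Complex Filter Topology
open scoped ENNReal NNReal RealInnerProductSpace
open Pool.Agent.TH277.CS (s2 sup sup_meas)
open Pool.Agent.TH277.HT (ch ch_norm ch_cont ch_add ch_sum EE EE_meas Sch Adm E1 E1_meas E1t_meas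
  EE_mult lint_pi mix)
open Pool.Agent.TH277.CB (Q2 pq pq_norm pq_cont pq_exp E2 E2_meas E2t_meas Phi Phi_mp lint_pi2 EE_blk
  sch_time)
open Run7.h783.RV

/-- the rotation by the angle `h` about the point `a` -/
noncomputable def rotP (a : ℝ × ℝ) (h : ℝ) (x : ℝ × ℝ) : ℝ × ℝ :=
  (a.1 + (Real.cos h * (x.1 - a.1) - Real.sin h * (x.2 - a.2)),
    a.2 + (Real.sin h * (x.1 - a.1) + Real.cos h * (x.2 - a.2)))

/-- the modulus of continuity along the circles about `a` -/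
def CircMod (s V : ℝ) (a : ℝ × ℝ) (G : ℝ × ℝ → ℂ) : Prop :=
  ∀ ρ : ℝ, 0 < ρ → ∀ h ∈ Ioc (0 : ℝ) 1,
    ∫⁻ x in {x : ℝ × ℝ | (x.1 - a.1) ^ 2 + (x.2 - a.2) ^ 2 ≤ ρ ^ 2}, ‖G (rotP a h x) - G x‖ₑ ≤
      ENNReal.ofReal (V * (ρ * h) ^ s)

/-- the atoms -/
def CAtom (s A V : ℝ) (g : ℝ × ℝ → ℂ) : Prop :=
  (∀ x, ‖g x‖ ≤ 1) ∧ (∀ x ∉ Icc (-1, -1) (1, 1), g x = 0) ∧
  ∃ (a η : ℝ × ℝ) (β : ℝ), a ∈ Icc (-A, -A) (A, A) ∧ CircMod s V a (md η β g)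

theorem cc_rot (a : ℝ × ℝ) (u : ℝ) (z : ℂ) :
    cc ((⟨a.1, a.2⟩ : ℂ) + om u * z) = rotP a u (cc ((⟨a.1, a.2⟩ : ℂ) + z)) := by
  unfold cc rotP om
  ext
  · simp [Complex.mul_re]
  · simp [Complex.mul_im]
    ring

theorem disc_meas (a : ℝ × ℝ) (ρ : ℝ) :
    MeasurableSet {x : ℝ × ℝ | (x.1 - a.1) ^ 2 + (x.2 - a.2) ^ 2 ≤ ρ ^ 2} :=
  measurableSet_le (by fun_prop) measurable_const

theorem rotP_cont (a : ℝ × ℝ) (h : ℝ) : Continuous (rotP a h) := by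
  unfold rotP
  fun_prop

/-- transfer to the complex plane -/
theorem circ_transfer (G : ℝ × ℝ → ℂ) (a : ℝ × ℝ) (ρ u : ℝ) (hρ : 0 < ρ) :
    ∫⁻ z in Metric.closedBall (0 : ℂ) ρ,
      ‖G (cc ((⟨a.1, a.2⟩ : ℂ) + om u * z)) - G (cc ((⟨a.1, a.2⟩ : ℂ) + z))‖ₑ =
    ∫⁻ x in {x : ℝ × ℝ | (x.1 - a.1) ^ 2 + (x.2 - a.2) ^ 2 ≤ ρ ^ 2}, ‖G (rotP a u x) - G x‖ₑ := by
  rw [← lintegral_indicator Metric.isClosed_closedBall.measurableSet,
    ← lintegral_indicator (disc_meas a ρ)]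
  have key : ∀ f : ℝ × ℝ → ℝ≥0∞, ∫⁻ x, f x = ∫⁻ z : ℂ, f (cc ((⟨a.1, a.2⟩ : ℂ) + z)) := by
    intro f
    rw [← cc_mp.lintegral_comp_emb cc_emb,
      ← lintegral_add_left_eq_self (μ := (volume : Measure ℂ)) (fun z => f (cc z)) (⟨a.1, a.2⟩ : ℂ)]
  rw [key]
  refine lintegral_congr fun z => ?_
  have hiff : cc ((⟨a.1, a.2⟩ : ℂ) + z) ∈ {x : ℝ × ℝ | (x.1 - a.1) ^ 2 + (x.2 - a.2) ^ 2 ≤ ρ ^ 2} ↔
      z ∈ Metric.closedBall (0 : ℂ) ρ := by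
    simp only [mem_ofPred_eq, Metric.mem_closedBall, dist_zero_right, cc, Complex.add_re,
      Complex.add_im, add_sub_cancel_left]
    have : z.re ^ 2 + z.im ^ 2 = ‖z‖ ^ 2 := by
      rw [← Complex.normSq_eq_norm_sq, Complex.normSq_apply]; ring
    rw [this]
    exact pow_le_pow_iff_left₀ (norm_nonneg _) hρ.le (by norm_num)
  by_cases hz : z ∈ Metric.closedBall (0 : ℂ) ρ
  · rw [indicator_of_mem hz, indicator_of_mem (hiff.2 hz), cc_rot]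
  · rw [indicator_of_notMem hz, indicator_of_notMem (fun hc => hz (hiff.1 hc))]

theorem catom_mix (n : ℕ) (hn : 2 ≤ n) (q s A : ℝ) (hs0 : 0 < s) (hs2 : s ≤ 2) (hq : 3 < q3 n q)
    (hqs : 8 < q3 n q * (2 + s)) (hA : 1 ≤ A) :
    ∃ C : ℝ≥0∞, C ≠ ∞ ∧ ∀ V : ℝ, 0 ≤ V → ∀ g : ℝ × ℝ → ℂ, Measurable g → CAtom s A V g →
    ∫⁻ t : ℝ, (∫⁻ y : ℝ × ℝ, ‖E2 g y t‖ₑ ^ q) ^ ((n : ℝ) / 2) ≤
      C * ENNReal.ofReal ((1 + V) ^ (q3 n q / 2)) := by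
  have hn2 : (2 : ℝ) ≤ n := by exact_mod_cast hn
  have hn0 : (0 : ℝ) < n := by linarith
  have hn' : (0 : ℝ) < (n : ℝ) / 2 := by positivity
  have hq0 : 0 < q := by
    unfold q3 at hq
    by_contra hc
    push Not at hc
    nlinarith
  obtain ⟨C, hC, h0⟩ := mixR n hn q s (4 * A) hs0 hs2 hq hqs (by linarith)
  refine ⟨C, hC, ?_⟩
  intro V hV g hg h
  obtain ⟨hb, hz, a, η, β, ha, hmod⟩ := h
  set F : ℂ → ℂ := fun w => md η β g (cc w) with hF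
  have hFm : Measurable F := (md_meas η β g hg).comp cc_mp.measurable
  have hFb : ∀ x, ‖F x‖ ≤ 1 := by
    intro x
    rw [hF]
    simp only
    rw [md_norm]
    exact hb _
  have hFz : ∀ z : ℂ, 4 * A < ‖z‖ → F ((⟨a.1, a.2⟩ : ℂ) + z) = 0 := by
    intro z hz1
    rw [hF]
    simp only
    rw [← norm_eq_zero, md_norm, norm_eq_zero]
    apply hz
    intro hin
    obtain ⟨⟨h1, h2⟩, h3, h4⟩ := hin
    obtain ⟨⟨a1, a2⟩, a3, a4⟩ := ha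
    simp only [cc, Complex.add_re, Complex.add_im] at h1 h2 h3 h4
    simp only at a1 a2 a3 a4
    have hn : ‖z‖ ^ 2 = z.re ^ 2 + z.im ^ 2 := by
      rw [← Complex.normSq_eq_norm_sq, Complex.normSq_apply]; ring
    have c1 : z.re ^ 2 ≤ (2 * A) ^ 2 := sq_le_sq' (by linarith) (by linarith)
    have c2 : z.im ^ 2 ≤ (2 * A) ^ 2 := sq_le_sq' (by linarith) (by linarith)
    nlinarith
  have h1 := h0 F hFm hFb ⟨a.1, a.2⟩ hFz V hV (by
    intro ρ hρ u hu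
    rw [hF]
    simp only
    rw [circ_transfer (md η β g) a ρ u hρ]
    exact hmod ρ hρ u hu)
  have hpi : (1 : ℝ) ≤ 2 * Real.pi := by linarith [Real.pi_gt_three]
  have h4 : ∀ t, ∫⁻ y : ℝ × ℝ, ‖E2 g y t‖ₑ ^ q ≤
      ∫⁻ ξ : ℂ, ‖EC F (β - (2 * Real.pi) • t) ξ‖ₑ ^ q := by
    intro t
    set τ : ℝ := β - (2 * Real.pi) • t with hτ
    have hm : Measurable fun ξ : ℂ => ‖EC F τ ξ‖ₑ ^ q :=
      ((EC_meas F hFm).comp (measurable_const.prodMk measurable_id)).enorm.pow_const q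
    have e1 := cc_mp.lintegral_comp_emb cc_emb fun y => ‖E2 g y t‖ₑ ^ q
    rw [← e1]
    have e2 : ∀ z : ℂ, ‖E2 g (cc z) t‖ₑ ^ q =
        ‖EC F τ ((⟨η.1, η.2⟩ : ℂ) - (2 * Real.pi) • z)‖ₑ ^ q := by
      intro z
      rw [E2_EC g η β z t]
    simp_rw [e2]
    have e3 := lint_smul (volume : Measure ℂ)
      (fun ξ => ‖EC F τ ((⟨η.1, η.2⟩ : ℂ) - ξ)‖ₑ ^ q)
      (hm.comp (measurable_const.sub measurable_id)) (2 * Real.pi) (by positivity)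
    rw [e3, lintegral_sub_left_eq_self (fun ξ : ℂ => ‖EC F τ ξ‖ₑ ^ q)]
    calc _ ≤ 1 * ∫⁻ ξ : ℂ, ‖EC F τ ξ‖ₑ ^ q := by
          gcongr
          rw [ENNReal.ofReal_le_one, abs_of_pos (by positivity)]
          exact inv_le_one_of_one_le₀ (one_le_pow₀ hpi)
      _ = _ := one_mul _
  have hTm : Measurable fun t : ℝ => (∫⁻ ξ : ℂ, ‖EC F t ξ‖ₑ ^ q) ^ ((n : ℝ) / 2) := by
    have : Measurable fun p : ℝ × ℂ => ‖EC F p.1 p.2‖ₑ ^ q := (EC_meas F hFm).enorm.pow_const q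
    exact this.lintegral_prod_right'.pow_const _
  have h5 := lint_smul (volume : Measure ℝ)
    (fun t : ℝ => (∫⁻ ξ : ℂ, ‖EC F (β - t) ξ‖ₑ ^ q) ^ ((n : ℝ) / 2))
    (hTm.comp (measurable_const.sub measurable_id)) (2 * Real.pi) (by positivity)
  calc ∫⁻ t : ℝ, (∫⁻ y : ℝ × ℝ, ‖E2 g y t‖ₑ ^ q) ^ ((n : ℝ) / 2)
      ≤ ∫⁻ t : ℝ, (∫⁻ ξ : ℂ, ‖EC F (β - (2 * Real.pi) • t) ξ‖ₑ ^ q) ^ ((n : ℝ) / 2) :=
        lintegral_mono fun t => ENNReal.rpow_le_rpow (h4 t) hn'.le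
    _ ≤ 1 * ∫⁻ t : ℝ, (∫⁻ ξ : ℂ, ‖EC F t ξ‖ₑ ^ q) ^ ((n : ℝ) / 2) := by
        rw [h5, lintegral_sub_left_eq_self
          (fun t : ℝ => (∫⁻ ξ : ℂ, ‖EC F t ξ‖ₑ ^ q) ^ ((n : ℝ) / 2))]
        gcongr
        rw [ENNReal.ofReal_le_one, abs_of_pos (by positivity)]
        exact inv_le_one_of_one_le₀ (one_le_pow₀ hpi)
    _ ≤ _ := by
        rw [one_mul]
        exact h1

theorem catom_l1 (s A V : ℝ) (g : ℝ × ℝ → ℂ) (h : CAtom s A V g) :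
    ∫⁻ x, ‖g x‖ₑ ≤ volume (Icc (-1, -1) ((1, 1) : ℝ × ℝ)) := by
  rw [← lintegral_indicator_one measurableSet_Icc]
  refine lintegral_mono fun x => ?_
  by_cases hx : x ∈ Icc (-1, -1) ((1, 1) : ℝ × ℝ)
  · rw [indicator_of_mem hx, Pi.one_apply, ← ofReal_norm, ENNReal.ofReal_le_one]
    exact h.1 x
  · rw [h.2.1 x hx]
    simp

/-- Hölder regularity in `L¹` along circles -/
theorem gam_circ (a : ℝ × ℝ) (B γ : ℝ) (hB : 0 ≤ B) (hγ0 : 0 < γ) (hγ1 : γ ≤ 1)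
    (G : ℝ × ℝ → ℂ) (hG : ∀ x, ‖G x‖ ≤ 1)
    (hv : ∀ h ∈ Ioc (0 : ℝ) 1, ∫⁻ x, ‖G (rotP a h x) - G x‖ₑ ≤ ENNReal.ofReal (B * h ^ γ)) :
    CircMod (2 * γ / (2 + γ)) (2 * B ^ (2 / (2 + γ))) a G := by
  intro ρ hρ h hh
  have hg2 : (0 : ℝ) < 2 + γ := by linarith
  set D : Set (ℝ × ℝ) := {x : ℝ × ℝ | (x.1 - a.1) ^ 2 + (x.2 - a.2) ^ 2 ≤ ρ ^ 2} with hD
  have hvol : volume D ≤ ENNReal.ofReal (4 * ρ ^ 2) := by
    have h1 : D ⊆ Icc (a.1 - ρ) (a.1 + ρ) ×ˢ Icc (a.2 - ρ) (a.2 + ρ) := by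
      intro x hx
      have hx' : (x.1 - a.1) ^ 2 + (x.2 - a.2) ^ 2 ≤ ρ ^ 2 := hx
      have b1 : |x.1 - a.1| ≤ ρ := abs_le_of_sq_le_sq (by nlinarith [sq_nonneg (x.2 - a.2)]) hρ.le
      have b2 : |x.2 - a.2| ≤ ρ := abs_le_of_sq_le_sq (by nlinarith [sq_nonneg (x.1 - a.1)]) hρ.le
      rw [abs_le] at b1 b2
      exact ⟨⟨by linarith, by linarith⟩, ⟨by linarith, by linarith⟩⟩
    refine (measure_mono h1).trans (le_of_eq ?_)
    rw [Measure.volume_eq_prod, Measure.prod_prod, Real.volume_Icc, Real.volume_Icc,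
      ← ENNReal.ofReal_mul (by linarith)]
    congr 1
    ring
  set X := ∫⁻ x in D, ‖G (rotP a h x) - G x‖ₑ with hX
  have hX1 : X ≤ ENNReal.ofReal (B * h ^ γ) := (setLIntegral_le_lintegral _ _).trans (hv h hh)
  have hX2 : X ≤ ENNReal.ofReal (8 * ρ ^ 2) := by
    calc X ≤ ∫⁻ _ in D, ENNReal.ofReal 2 := by
          refine lintegral_mono fun x => ?_
          rw [← ofReal_norm]
          refine ENNReal.ofReal_le_ofReal ((norm_sub_le _ _).trans ?_)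
          linarith [hG (rotP a h x), hG x]
      _ = ENNReal.ofReal 2 * volume D := by rw [setLIntegral_const]
      _ ≤ ENNReal.ofReal 2 * ENNReal.ofReal (4 * ρ ^ 2) := by gcongr
      _ = _ := by
          rw [← ENNReal.ofReal_mul (by norm_num)]
          congr 1
          ring
  have hh0 := hh.1
  have hp1 : (0 : ℝ) ≤ 2 / (2 + γ) := by positivity
  have hp2 : (0 : ℝ) ≤ γ / (2 + γ) := by positivity
  have hp3 : 2 / (2 + γ) + γ / (2 + γ) = 1 := by field_simp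
  have hhγ : (0 : ℝ) ≤ h ^ γ := Real.rpow_nonneg hh0.le _
  calc X = X ^ (2 / (2 + γ)) * X ^ (γ / (2 + γ)) := by
        rw [← ENNReal.rpow_add_of_nonneg _ _ hp1 hp2, hp3, ENNReal.rpow_one]
    _ ≤ ENNReal.ofReal (B * h ^ γ) ^ (2 / (2 + γ)) * ENNReal.ofReal (8 * ρ ^ 2) ^ (γ / (2 + γ)) := by
        gcongr
    _ = ENNReal.ofReal ((B * h ^ γ) ^ (2 / (2 + γ)) * (8 * ρ ^ 2) ^ (γ / (2 + γ))) := by
        rw [ENNReal.ofReal_rpow_of_nonneg (by positivity) hp1,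
          ENNReal.ofReal_rpow_of_nonneg (by positivity) hp2, ← ENNReal.ofReal_mul (by positivity)]
    _ ≤ _ := by
        apply ENNReal.ofReal_le_ofReal
        have e1 : (8 * ρ ^ 2) ^ (γ / (2 + γ)) ≤ 2 * ρ ^ (2 * γ / (2 + γ)) := by
          rw [Real.mul_rpow (by norm_num) (by positivity), ← Real.rpow_two, ← Real.rpow_mul hρ.le,
            ← mul_div_assoc]
          have e3 : (8 : ℝ) ^ (γ / (2 + γ)) ≤ 2 := by
            calc (8 : ℝ) ^ (γ / (2 + γ)) ≤ (8 : ℝ) ^ (1 / 3 : ℝ) := by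
                  apply Real.rpow_le_rpow_of_exponent_le (by norm_num)
                  rw [div_le_div_iff₀ hg2 (by norm_num)]
                  linarith
              _ = 2 := by
                  rw [show (8 : ℝ) = 2 ^ (3 : ℝ) by norm_num, ← Real.rpow_mul (by norm_num)]
                  norm_num
          gcongr
        have e2 : (B * h ^ γ) ^ (2 / (2 + γ)) = B ^ (2 / (2 + γ)) * h ^ (2 * γ / (2 + γ)) := by
          rw [Real.mul_rpow hB hhγ, ← Real.rpow_mul hh0.le]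
          congr 2
          ring
        rw [e2, Real.mul_rpow hρ.le hh0.le]
        calc B ^ (2 / (2 + γ)) * h ^ (2 * γ / (2 + γ)) * (8 * ρ ^ 2) ^ (γ / (2 + γ))
            ≤ B ^ (2 / (2 + γ)) * h ^ (2 * γ / (2 + γ)) * (2 * ρ ^ (2 * γ / (2 + γ))) := by
              gcongr
          _ = _ := by ring

end Run7.h485.RR
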